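import Mathlib

/-!
A quantitative contraction in the space of square integrable functions for two consecutive
averaged Moebius steps.
-/

set_option autoImplicit false

open MeasureTheory Set
open scoped ENNReal

namespace Pool.Agent.Helper76x.LP

/-- absolute difference of extended nonnegative numbers -/
noncomputable def ad (f g : ℝ≥0∞) : ℝ≥0∞ := (f - g) + (g - f)

lemma le_add_ad (f g : ℝ≥0∞) : f ≤ g + ad f g := by
  unfold ad
  calc f ≤ g + (f - g) := le_add_tsub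
    _ ≤ g + ((f - g) + (g - f)) := by gcongr; exact le_self_add

lemma ad_sq (f g : ℝ≥0∞) : (f + g) ^ 2 + (ad f g) ^ 2 ≤ 2 * f ^ 2 + 2 * g ^ 2 := by
  by_cases hf : f = ⊤
  · rw [hf]; simp
  by_cases hg : g = ⊤
  · rw [hg]; simp
  have key : ∀ f g : ℝ≥0∞, f ≠ ⊤ → g ≠ ⊤ → g ≤ f →
      (f + g) ^ 2 + ((f - g) + (g - f)) ^ 2 ≤ 2 * f ^ 2 + 2 * g ^ 2 := by
    intro f g hf hg h
    obtain ⟨c, rfl⟩ := exists_add_of_le h
    rw [ENNReal.add_sub_cancel_left hg, tsub_eq_zero_of_le le_self_add, add_zero]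
    apply le_of_eq
    ring
  unfold ad
  rcases le_total g f with h | h
  · exact key f g hf hg h
  · have := key g f hg hf h
    rw [add_comm f g, add_comm (f - g), add_comm (2 * f ^ 2)]
    exact this

lemma add_sq_le' (f g : ℝ≥0∞) : (f + g) ^ 2 ≤ 2 * f ^ 2 + 2 * g ^ 2 :=
  le_self_add.trans (ad_sq f g)

lemma sq_lint {X : Type*} [MeasurableSpace X] (μ : Measure X) {h : X → ℝ≥0∞}
    (hh : AEMeasurable h μ) : (∫⁻ x, h x ∂μ) ^ 2 ≤ (∫⁻ x, h x ^ 2 ∂μ) * μ univ := by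
  have h1 := ENNReal.lintegral_mul_le_Lp_mul_Lq μ Real.HolderConjugate.two_two hh
    (aemeasurable_const (b := (1 : ℝ≥0∞)))
  have h2 : (∫⁻ x, h x ∂μ) ≤ (∫⁻ x, h x ^ (2:ℝ) ∂μ) ^ (1 / (2:ℝ)) * (μ univ) ^ (1 / (2:ℝ)) := by
    simpa using h1
  have h3 : (∫⁻ x, h x ^ (2:ℝ) ∂μ) = ∫⁻ x, h x ^ 2 ∂μ := by
    congr 1
    ext x
    exact ENNReal.rpow_two _
  rw [h3] at h2
  calc (∫⁻ x, h x ∂μ) ^ 2 ≤
        ((∫⁻ x, h x ^ 2 ∂μ) ^ (1 / (2:ℝ)) * (μ univ) ^ (1 / (2:ℝ))) ^ 2 := by gcongr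
    _ = (∫⁻ x, h x ^ 2 ∂μ) * μ univ := by
        rw [mul_pow, ← ENNReal.rpow_two, ← ENNReal.rpow_two, ← ENNReal.rpow_mul,
          ← ENNReal.rpow_mul]
        norm_num

lemma sq_sum {k : ℕ} (f : Fin k → ℝ≥0∞) : (∑ j, f j) ^ 2 ≤ (k : ℝ≥0∞) * ∑ j, f j ^ 2 := by
  have h := sq_lint (Measure.count (α := Fin k)) (h := f) (measurable_of_countable _).aemeasurable
  rw [lintegral_count, lintegral_count, tsum_fintype, tsum_fintype] at h
  rw [mul_comm]
  simpa using h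

/-- total mass -/
noncomputable def mass (F : ℝ → ℝ≥0∞) : ℝ≥0∞ := ∫⁻ x, F x ^ 2

/-- total variation of a shift -/
noncomputable def shiftVar (η : ℝ) (F : ℝ → ℝ≥0∞) : ℝ≥0∞ := ∫⁻ x, ad (F x) (F (x - η)) ^ 2

/-- averaging -/
noncomputable def avg (ε : ℝ) (F : ℝ → ℝ≥0∞) (x : ℝ) : ℝ≥0∞ := ∫⁻ s in Icc (0:ℝ) 1, F (x - ε * s)

/-- the Moebius step -/
noncomputable def mob (b : ℝ) (F : ℝ → ℝ≥0∞) (x : ℝ) : ℝ≥0∞ :=
  ENNReal.ofReal |x|⁻¹ * F (b - x⁻¹)

variable {F : ℝ → ℝ≥0∞}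

lemma ad_meas {F G : ℝ → ℝ≥0∞} (hF : Measurable F) (hG : Measurable G) :
    Measurable fun x => ad (F x) (G x) := by
  unfold ad
  exact (hF.sub hG).add (hG.sub hF)

lemma avg_meas (hF : Measurable F) (ε : ℝ) : Measurable (avg ε F) := by
  unfold avg
  have : Measurable fun p : ℝ × ℝ => F (p.1 - ε * p.2) := hF.comp (by fun_prop)
  exact this.lintegral_prod_right'

lemma mob_meas (hF : Measurable F) (b : ℝ) : Measurable (mob b F) := by
  unfold mob
  have h1 : Measurable fun x : ℝ => F (b - x⁻¹) := hF.comp (by fun_prop)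
  have h2 : Measurable fun x : ℝ => ENNReal.ofReal |x|⁻¹ := by
    apply ENNReal.measurable_ofReal.comp
    exact (measurable_id.abs).inv
  exact h2.mul h1

lemma lint_Icc_split {g : ℝ → ℝ≥0∞} (hg : Measurable g) :
    ∫⁻ s in Icc (0:ℝ) 1, g s = ∫⁻ s in Ioc (0:ℝ) (1 / 2), (g s + g (s + 1 / 2)) := by
  rw [setLIntegral_congr (Ioc_ae_eq_Icc (μ := volume) (a := (0:ℝ)) (b := 1)).symm]
  have h1 : Ioc (0:ℝ) 1 = Ioc 0 (1 / 2) ∪ Ioc (1 / 2) 1 :=
    (Ioc_union_Ioc_eq_Ioc (by norm_num) (by norm_num)).symm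
  have hdis : Disjoint (Ioc (0:ℝ) (1 / 2)) (Ioc (1 / 2) 1) := by
    rw [Set.disjoint_left]
    intro x hx hx'
    exact absurd hx.2 (not_le.2 hx'.1)
  rw [h1, lintegral_union measurableSet_Ioc hdis, lintegral_add_left hg]
  congr 1
  have h2 := (measurePreserving_add_right (volume : Measure ℝ) (1 / 2)).setLIntegral_comp_preimage
    (s := Ioc (1 / 2) 1) measurableSet_Ioc hg
  rw [← h2]
  congr 1
  congr 1
  ext x
  simp only [mem_preimage, mem_Ioc]
  constructor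
  · rintro ⟨a, b⟩; constructor <;> linarith
  · rintro ⟨a, b⟩; constructor <;> linarith

lemma mass_swap {G : ℝ → ℝ≥0∞} (hG : Measurable G) (ε : ℝ) (S : Set ℝ) :
    ∫⁻ x, ∫⁻ s in S, G (x - ε * s) = (∫⁻ x, G x) * volume S := by
  rw [lintegral_lintegral_swap]
  · have : ∀ s : ℝ, ∫⁻ x, G (x - ε * s) = ∫⁻ x, G x := fun s => lintegral_sub_right_eq_self G _
    simp_rw [this]
    rw [lintegral_const, Measure.restrict_apply_univ]
  · apply Measurable.aemeasurable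
    exact hG.comp (by fun_prop)

lemma avg_defect (hF : Measurable F) (ε : ℝ) :
    mass (avg ε F) + 4⁻¹ * shiftVar (ε / 2) F ≤ mass F := by
  set D : ℝ → ℝ≥0∞ := fun x => ad (F x) (F (x - ε / 2)) ^ 2 with hD
  have hF2 : Measurable fun x => F (x - ε / 2) := hF.comp (by fun_prop)
  have hDm : Measurable D := (ad_meas hF hF2).pow_const 2
  have hpt : ∀ x, avg ε F x ^ 2 + 2⁻¹ * ∫⁻ s in Ioc (0:ℝ) (1 / 2), D (x - ε * s) ≤
      2⁻¹ * ∫⁻ s in Ioc (0:ℝ) (1 / 2), (2 * F (x - ε * s) ^ 2 +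
        2 * F (x - ε * s - ε / 2) ^ 2) := by
    intro x
    have hg : Measurable fun s => F (x - ε * s) := hF.comp (by fun_prop)
    have hg2 : Measurable fun s : ℝ => F (x - ε * s - ε / 2) := hF.comp (by fun_prop)
    have h1 : avg ε F x = ∫⁻ s in Ioc (0:ℝ) (1 / 2), (F (x - ε * s) + F (x - ε * s - ε / 2)) := by
      unfold avg
      rw [lint_Icc_split hg]
      congr 1
      ext s
      congr 2
      ring
    have h2 : avg ε F x ^ 2 ≤
        2⁻¹ * ∫⁻ s in Ioc (0:ℝ) (1 / 2), (F (x - ε * s) + F (x - ε * s - ε / 2)) ^ 2 := by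
      rw [h1]
      refine (sq_lint _ (hg.add hg2).aemeasurable).trans (le_of_eq ?_)
      rw [mul_comm, Measure.restrict_apply_univ, Real.volume_Ioc]
      congr 1
      rw [sub_zero, ENNReal.ofReal_div_of_pos (by norm_num)]
      simp
    refine (add_le_add_left h2 _).trans ?_
    have hm1 : Measurable fun s : ℝ => (F (x - ε * s) + F (x - ε * s - ε / 2)) ^ 2 :=
      (hg.add hg2).pow_const 2
    rw [← mul_add, ← lintegral_add_left hm1]
    refine mul_le_mul' le_rfl (lintegral_mono fun s => ?_)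
    exact ad_sq _ _
  have hsum : ∫⁻ x, (avg ε F x ^ 2 + 2⁻¹ * ∫⁻ s in Ioc (0:ℝ) (1 / 2), D (x - ε * s)) ≤
      ∫⁻ x, (2⁻¹ * ∫⁻ s in Ioc (0:ℝ) (1 / 2), (2 * F (x - ε * s) ^ 2 +
        2 * F (x - ε * s - ε / 2) ^ 2)) := lintegral_mono hpt
  rw [lintegral_add_left ((avg_meas hF ε).pow_const 2)] at hsum
  have hvol : volume (Ioc (0:ℝ) (1 / 2)) = 2⁻¹ := by
    rw [Real.volume_Ioc, sub_zero, ENNReal.ofReal_div_of_pos (by norm_num)]
    simp
  have e1 : ∫⁻ x, 2⁻¹ * ∫⁻ s in Ioc (0:ℝ) (1 / 2), D (x - ε * s) =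
      4⁻¹ * shiftVar (ε / 2) F := by
    rw [lintegral_const_mul' _ _ (by simp), mass_swap hDm, hvol, mul_comm (∫⁻ x, D x), ← mul_assoc]
    congr 1
    rw [← ENNReal.mul_inv (by simp) (by simp)]
    norm_num
  have e2 : ∫⁻ x, (2⁻¹ * ∫⁻ s in Ioc (0:ℝ) (1 / 2), (2 * F (x - ε * s) ^ 2 +
        2 * F (x - ε * s - ε / 2) ^ 2)) = mass F := by
    rw [lintegral_const_mul' _ _ (by simp)]
    have hm : Measurable fun y => 2 * F y ^ 2 + 2 * F (y - ε / 2) ^ 2 :=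
      ((hF.pow_const 2).const_mul 2).add ((hF2.pow_const 2).const_mul 2)
    rw [mass_swap (G := fun y => 2 * F y ^ 2 + 2 * F (y - ε / 2) ^ 2) hm, hvol,
      lintegral_add_left ((hF.pow_const 2).const_mul 2), lintegral_const_mul _ (hF.pow_const 2),
      lintegral_const_mul _ (hF2.pow_const 2), lintegral_sub_right_eq_self (fun y => F y ^ 2)]
    rw [← two_mul, mul_comm (2 * (2 * ∫⁻ x, F x ^ 2)), ← mul_assoc, ← mul_assoc, ← mul_assoc]
    have : (2⁻¹ * 2⁻¹ * 2 * 2 : ℝ≥0∞) = 1 := by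
      have h2 : (2⁻¹ * 2 : ℝ≥0∞) = 1 := ENNReal.inv_mul_cancel (by simp) (by simp)
      calc (2⁻¹ * 2⁻¹ * 2 * 2 : ℝ≥0∞) = (2⁻¹ * 2) * (2⁻¹ * 2) := by ring
        _ = 1 := by rw [h2, one_mul]
    rw [this, one_mul]
    rfl
  rw [e1, e2] at hsum
  exact hsum

lemma avg_local (hF : Measurable F) {ε b : ℝ} (h0 : 0 ≤ ε) (h1 : ε ≤ 1) :
    ∫⁻ x in Icc (b - 1) (b + 1), avg ε F x ^ 2 ≤ ∫⁻ x in Ico (b - 2) (b + 2), F x ^ 2 := by
  set G : ℝ → ℝ≥0∞ := (Ico (b - 2) (b + 2)).indicator fun x => F x ^ 2 with hG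
  have hGm : Measurable G := (hF.pow_const 2).indicator measurableSet_Ico
  have hpt : ∀ x ∈ Icc (b - 1) (b + 1), avg ε F x ^ 2 ≤ ∫⁻ s in Icc (0:ℝ) 1, G (x - ε * s) := by
    intro x hx
    have hg : Measurable fun s => F (x - ε * s) := hF.comp (by fun_prop)
    unfold avg
    refine (sq_lint _ hg.aemeasurable).trans ?_
    rw [Measure.restrict_apply_univ, Real.volume_Icc]
    simp only [sub_zero, ENNReal.ofReal_one, mul_one]
    have hGs : Measurable fun s => G (x - ε * s) := hGm.comp (by fun_prop)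
    apply setLIntegral_mono_ae hGs.aemeasurable
    refine Filter.Eventually.of_forall fun s hs => ?_
    simp only [hG]
    rw [indicator_of_mem]
    rw [mem_Icc] at hs hx
    rw [mem_Ico]
    constructor
    · nlinarith
    · nlinarith
  calc ∫⁻ x in Icc (b - 1) (b + 1), avg ε F x ^ 2
      ≤ ∫⁻ x in Icc (b - 1) (b + 1), ∫⁻ s in Icc (0:ℝ) 1, G (x - ε * s) := by
        apply setLIntegral_mono_ae
        · apply Measurable.aemeasurable
          have : Measurable fun p : ℝ × ℝ => G (p.1 - ε * p.2) := hGm.comp (by fun_prop)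
          exact this.lintegral_prod_right'
        · exact Filter.Eventually.of_forall hpt
    _ ≤ ∫⁻ x, ∫⁻ s in Icc (0:ℝ) 1, G (x - ε * s) := setLIntegral_le_lintegral _ _
    _ = (∫⁻ x, G x) * volume (Icc (0:ℝ) 1) := mass_swap hGm ε _
    _ = ∫⁻ x in Ico (b - 2) (b + 2), F x ^ 2 := by
        rw [Real.volume_Icc, hG, lintegral_indicator measurableSet_Ico]
        simp

lemma mob_local (F : ℝ → ℝ≥0∞) (b : ℝ) {S : Set ℝ} (hS : MeasurableSet S)
    (h0 : (0:ℝ) ∉ S) : ∫⁻ x in S, mob b F x ^ 2 = ∫⁻ y in (fun x => b - x⁻¹) '' S, F y ^ 2 := by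
  rw [lintegral_image_eq_lintegral_abs_deriv_mul hS (f' := fun x => (x ^ 2)⁻¹)]
  · apply setLIntegral_congr_fun hS
    intro x hx
    have hx0 : x ≠ 0 := fun h => h0 (h ▸ hx)
    simp only [mob]
    rw [mul_pow, ← ENNReal.ofReal_pow (by positivity), abs_of_pos (by positivity : 0 < (x ^ 2)⁻¹)]
    congr 2
    rw [inv_pow, sq_abs]
  · intro x hx
    have hx0 : x ≠ 0 := fun h => h0 (h ▸ hx)
    have h1 := (hasDerivAt_inv hx0).const_sub b
    have h2 : -(-(x ^ 2)⁻¹) = (x ^ 2)⁻¹ := neg_neg _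
    rw [h2] at h1
    exact h1.hasDerivWithinAt
  · intro x _ y _ h
    simp only at h
    have : x⁻¹ = y⁻¹ := by linarith
    exact inv_injective this

lemma mob_mass (F : ℝ → ℝ≥0∞) (b : ℝ) : mass (mob b F) = mass F := by
  have h1 := mob_local F b (S := {0}ᶜ) (measurableSet_singleton 0).compl (by simp)
  have h2 : (fun x : ℝ => b - x⁻¹) '' {0}ᶜ = {b}ᶜ := by
    ext y
    simp only [mem_image, mem_compl_iff, mem_singleton_iff]
    constructor
    · rintro ⟨x, hx, rfl⟩ h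
      have : x⁻¹ = 0 := by linarith
      exact hx (inv_eq_zero.1 this)
    · intro h
      refine ⟨(b - y)⁻¹, inv_ne_zero (sub_ne_zero.2 (Ne.symm h)), ?_⟩
      rw [inv_inv]; ring
  rw [h2] at h1
  have h3 : ∀ (c : ℝ) (G : ℝ → ℝ≥0∞), ∫⁻ x in {c}ᶜ, G x = ∫⁻ x, G x := by
    intro c G
    have h4 : ({c}ᶜ : Set ℝ) =ᵐ[volume] (univ : Set ℝ) := by
      rw [ae_eq_univ, compl_compl]
      simp
    rw [setLIntegral_congr h4, setLIntegral_univ]
  rw [h3, h3] at h1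
  exact h1

lemma mob_far (F : ℝ → ℝ≥0∞) (b : ℝ) :
    ∫⁻ y in (Icc (b - 1) (b + 1))ᶜ, F y ^ 2 ≤ ∫⁻ x in Ico (0 - 2 : ℝ) (0 + 2), mob b F x ^ 2 := by
  have h1 := mob_local F b (S := Ioo (-1) 1 \ {0})
    (measurableSet_Ioo.diff (measurableSet_singleton 0)) (by simp)
  have h2 : (Icc (b - 1) (b + 1))ᶜ ⊆ (fun x : ℝ => b - x⁻¹) '' (Ioo (-1) 1 \ {0}) := by
    intro y hy
    rw [mem_compl_iff, mem_Icc, not_and_or, not_le, not_le] at hy
    have hne : b - y ≠ 0 := by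
      rcases hy with h | h
      · intro h0; linarith
      · intro h0; linarith
    refine ⟨(b - y)⁻¹, ⟨?_, ?_⟩, ?_⟩
    · rw [mem_Ioo, ← abs_lt, abs_inv]
      apply inv_lt_one_of_one_lt₀
      rw [lt_abs]
      rcases hy with h | h
      · left; linarith
      · right; linarith
    · simpa using inv_ne_zero hne
    · simp only [inv_inv]; ring
  calc ∫⁻ y in (Icc (b - 1) (b + 1))ᶜ, F y ^ 2
      ≤ ∫⁻ y in (fun x : ℝ => b - x⁻¹) '' (Ioo (-1) 1 \ {0}), F y ^ 2 := lintegral_mono_set h2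
    _ = ∫⁻ x in Ioo (-1) 1 \ {0}, mob b F x ^ 2 := h1.symm
    _ ≤ _ := by
        apply lintegral_mono_set
        intro x hx
        have := hx.1
        rw [mem_Ioo] at this
        rw [mem_Ico]
        constructor <;> linarith

lemma telescoping (F : ℝ → ℝ≥0∞) (η x : ℝ) (k : ℕ) :
    F x ≤ F (x - k * η) + ∑ j : Fin k, ad (F (x - j * η)) (F (x - j * η - η)) := by
  induction k with
  | zero => simp
  | succ k ih =>
    rw [Fin.sum_univ_castSucc]
    refine ih.trans ?_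
    have h1 := le_add_ad (F (x - k * η)) (F (x - k * η - η))
    have e : x - ((k + 1 : ℕ) : ℝ) * η = x - k * η - η := by push_cast; ring
    rw [e]
    calc F (x - k * η) + ∑ j : Fin k, ad (F (x - j * η)) (F (x - j * η - η))
        ≤ (F (x - k * η - η) + ad (F (x - k * η)) (F (x - k * η - η))) +
          ∑ j : Fin k, ad (F (x - j * η)) (F (x - j * η - η)) := by gcongr
      _ = _ := by
          simp only [Fin.val_castSucc, Fin.val_last]
          ring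

lemma shift_local (hF : Measurable F) (η : ℝ) (I : Set ℝ) (k : ℕ) :
    ∫⁻ x in I, F x ^ 2 ≤
      2 * (∫⁻ x in I, F (x - k * η) ^ 2) + 2 * (k : ℝ≥0∞) ^ 2 * shiftVar η F := by
  have hFs : ∀ c : ℝ, Measurable fun x => F (x - c) := fun c => hF.comp (by fun_prop)
  have hD : ∀ c : ℝ, Measurable fun x => ad (F (x - c)) (F (x - c - η)) ^ 2 := fun c =>
    (ad_meas (hFs c) (hF.comp (by fun_prop))).pow_const 2
  have hpt : ∀ x, F x ^ 2 ≤ 2 * F (x - k * η) ^ 2 +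
      2 * ((k : ℝ≥0∞) * ∑ j : Fin k, ad (F (x - j * η)) (F (x - j * η - η)) ^ 2) := by
    intro x
    calc F x ^ 2 ≤ (F (x - k * η) + ∑ j : Fin k, ad (F (x - j * η)) (F (x - j * η - η))) ^ 2 := by
          gcongr; exact telescoping F η x k
      _ ≤ 2 * F (x - k * η) ^ 2 + 2 * (∑ j : Fin k, ad (F (x - j * η)) (F (x - j * η - η))) ^ 2 :=
          add_sq_le' _ _
      _ ≤ _ := by gcongr; exact sq_sum _
  calc ∫⁻ x in I, F x ^ 2 ≤ ∫⁻ x in I, (2 * F (x - k * η) ^ 2 +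
      2 * ((k : ℝ≥0∞) * ∑ j : Fin k, ad (F (x - j * η)) (F (x - j * η - η)) ^ 2)) :=
        lintegral_mono hpt
    _ = 2 * (∫⁻ x in I, F (x - k * η) ^ 2) + 2 * ((k : ℝ≥0∞) * ∑ j : Fin k,
          ∫⁻ x in I, ad (F (x - j * η)) (F (x - j * η - η)) ^ 2) := by
        have hm : Measurable fun x => ∑ j : Fin k, ad (F (x - j * η)) (F (x - j * η - η)) ^ 2 :=
          Finset.measurable_sum _ fun j _ => hD _
        rw [lintegral_add_left (((hFs _).pow_const 2).const_mul 2),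
          lintegral_const_mul _ ((hFs _).pow_const 2), lintegral_const_mul _ (hm.const_mul _),
          lintegral_const_mul _ hm, lintegral_finsetSum _ fun j _ => hD _]
    _ ≤ 2 * (∫⁻ x in I, F (x - k * η) ^ 2) + 2 * ((k : ℝ≥0∞) * ∑ j : Fin k, shiftVar η F) := by
        gcongr with j _
        refine (setLIntegral_le_lintegral _ _).trans (le_of_eq ?_)
        exact lintegral_sub_right_eq_self (fun y => ad (F y) (F (y - η)) ^ 2) _
    _ = _ := by
        rw [Finset.sum_const, Finset.card_univ, Fintype.card_fin, nsmul_eq_mul]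
        ring

/-- a nearly shift invariant function has little mass on a bounded interval -/
lemma mass_local (hF : Measurable F) {η : ℝ} {M : ℕ} (hM : 4 ≤ M * η) (c : ℝ) :
    8 * ∫⁻ x in Ico (c - 2) (c + 2), F x ^ 2 ≤
      2 * mass F + 280 * (M : ℝ≥0∞) ^ 2 * shiftVar η F := by
  set I : Set ℝ := Ico (c - 2) (c + 2) with hI
  set T : Fin 8 → Set ℝ := fun j => Ico (c - 2 - j * (M * η)) (c + 2 - j * (M * η)) with hT
  have h1 : ∀ j : Fin 8, ∫⁻ x in I, F x ^ 2 ≤ 2 * (∫⁻ x in T j, F x ^ 2) +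
      2 * ((j : ℕ) : ℝ≥0∞) ^ 2 * ((M : ℝ≥0∞) ^ 2 * shiftVar η F) := by
    intro j
    refine (shift_local hF η I (j * M)).trans ?_
    have h2 := (measurePreserving_sub_right (volume : Measure ℝ)
      (j * (M * η))).setLIntegral_comp_preimage (s := T j) measurableSet_Ico (hF.pow_const 2)
    have h3 : (fun x : ℝ => x - j * (M * η)) ⁻¹' (T j) = I := by
      ext x
      simp only [hT, hI, mem_preimage, mem_Ico]
      constructor
      · rintro ⟨a, b⟩; constructor <;> linarith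
      · rintro ⟨a, b⟩; constructor <;> linarith
    rw [h3] at h2
    rw [← h2]
    apply le_of_eq
    have e : ((j * M : ℕ) : ℝ) * η = j * (M * η) := by push_cast; ring
    rw [e]
    push_cast
    ring
  have h2 : ∑ j : Fin 8, ∫⁻ x in T j, F x ^ 2 ≤ mass F := by
    have h3 : ∫⁻ x in ⋃ j ∈ (Finset.univ : Finset (Fin 8)), T j, F x ^ 2 =
        ∑ j : Fin 8, ∫⁻ x in T j, F x ^ 2 := by
      apply lintegral_biUnion_finset
      · intro i _ j _ hij
        rw [Function.onFun, Set.disjoint_left]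
        intro x hx hx'
        simp only [hT, mem_Ico] at hx hx'
        rcases lt_or_gt_of_ne hij with h | h
        · have h4 : ((i : ℕ) : ℝ) + 1 ≤ ((j : ℕ) : ℝ) := by exact_mod_cast h
          nlinarith
        · have h4 : ((j : ℕ) : ℝ) + 1 ≤ ((i : ℕ) : ℝ) := by exact_mod_cast h
          nlinarith
      · intro j _; exact measurableSet_Ico
    rw [← h3]
    exact setLIntegral_le_lintegral _ _
  have h3 : ∑ j : Fin 8, ∫⁻ x in I, F x ^ 2 ≤ ∑ j : Fin 8, (2 * (∫⁻ x in T j, F x ^ 2) +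
      2 * ((j : ℕ) : ℝ≥0∞) ^ 2 * ((M : ℝ≥0∞) ^ 2 * shiftVar η F)) :=
    Finset.sum_le_sum fun j _ => h1 j
  rw [Finset.sum_const, Finset.card_univ, Fintype.card_fin, nsmul_eq_mul,
    Finset.sum_add_distrib, ← Finset.mul_sum, ← Finset.sum_mul, ← Finset.mul_sum] at h3
  have h4 : (2:ℝ≥0∞) * ∑ j : Fin 8, ((j : ℕ) : ℝ≥0∞) ^ 2 = 280 := by
    have : ∑ j : Fin 8, ((j : ℕ) : ℝ≥0∞) ^ 2 = ((∑ j : Fin 8, (j : ℕ) ^ 2 : ℕ) : ℝ≥0∞) := by
      push_cast; rfl
    rw [this]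
    have h5 : (∑ j : Fin 8, (j : ℕ) ^ 2 : ℕ) = 140 := by decide
    rw [h5]
    norm_num
  rw [h4] at h3
  rw [Nat.cast_ofNat] at h3
  refine h3.trans ?_
  rw [mul_assoc 280]
  gcongr

/-- The contraction estimate. -/
theorem contract (hF : Measurable F) {ε : ℝ} (h0 : 0 < ε) (h1 : ε ≤ 1) {M : ℕ}
    (hM : 8 ≤ M * ε) (b : ℝ) :
    (140 * (M : ℝ≥0∞) ^ 2 + 1) * mass (avg ε (mob b (avg ε F))) ≤
      (140 * (M : ℝ≥0∞) ^ 2 + 2⁻¹) * mass F := by
  set G := avg ε F with hG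
  set H := mob b G with hH
  have hGm : Measurable G := avg_meas hF ε
  have hHm : Measurable H := mob_meas hGm b
  have hM' : 4 ≤ M * (ε / 2) := by linarith
  have d1 := avg_defect hF ε
  have d2 := avg_defect hHm ε
  have m1 := mass_local hF hM' b
  have m2 := mass_local hHm hM' 0
  have l1 := avg_local hF (b := b) h0.le h1
  have l2 := mob_far G b
  have hGH : mass H = mass G := mob_mass G b
  set Ω1 := shiftVar (ε / 2) F
  set Ω2 := shiftVar (ε / 2) H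
  have hsplit : mass G ≤ (∫⁻ x in Ico (b - 2) (b + 2), F x ^ 2) +
      ∫⁻ x in Ico (0 - 2 : ℝ) (0 + 2), H x ^ 2 := by
    unfold mass
    rw [← lintegral_add_compl _ (measurableSet_Icc (a := b - 1) (b := b + 1))]
    exact add_le_add l1 l2
  have hGF : mass G ≤ mass F := le_self_add.trans d1
  have hCG : mass (avg ε H) ≤ mass G := by rw [← hGH]; exact le_self_add.trans d2
  have k1 : 8 * mass (avg ε H) ≤ 4 * mass F + 280 * (M : ℝ≥0∞) ^ 2 * (Ω1 + Ω2) := by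
    calc 8 * mass (avg ε H) ≤ 8 * mass G := by gcongr
      _ ≤ 8 * ((∫⁻ x in Ico (b - 2) (b + 2), F x ^ 2) +
          ∫⁻ x in Ico (0 - 2 : ℝ) (0 + 2), H x ^ 2) := by gcongr
      _ = 8 * (∫⁻ x in Ico (b - 2) (b + 2), F x ^ 2) +
          8 * ∫⁻ x in Ico (0 - 2 : ℝ) (0 + 2), H x ^ 2 := mul_add _ _ _
      _ ≤ (2 * mass F + 280 * (M : ℝ≥0∞) ^ 2 * Ω1) +
          (2 * mass H + 280 * (M : ℝ≥0∞) ^ 2 * Ω2) := add_le_add m1 m2
      _ ≤ (2 * mass F + 280 * (M : ℝ≥0∞) ^ 2 * Ω1) +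
          (2 * mass F + 280 * (M : ℝ≥0∞) ^ 2 * Ω2) := by rw [hGH]; gcongr
      _ = _ := by ring
  have k2 : 4 * mass (avg ε H) + (Ω1 + Ω2) ≤ 4 * mass F := by
    have e1 : 4 * mass (avg ε H) + Ω2 ≤ 4 * mass G := by
      rw [← hGH]
      calc 4 * mass (avg ε H) + Ω2 = 4 * (mass (avg ε H) + 4⁻¹ * Ω2) := by
            rw [mul_add, ← mul_assoc, ENNReal.mul_inv_cancel (by simp) (by simp), one_mul]
        _ ≤ 4 * mass H := by gcongr
    have e2 : 4 * mass G + Ω1 ≤ 4 * mass F := by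
      calc 4 * mass G + Ω1 = 4 * (mass G + 4⁻¹ * Ω1) := by
            rw [mul_add, ← mul_assoc, ENNReal.mul_inv_cancel (by simp) (by simp), one_mul]
        _ ≤ 4 * mass F := by gcongr
    calc 4 * mass (avg ε H) + (Ω1 + Ω2) = (4 * mass (avg ε H) + Ω2) + Ω1 := by ring
      _ ≤ 4 * mass G + Ω1 := by gcongr
      _ ≤ _ := e2
  have k3 : 8 * ((140 * (M : ℝ≥0∞) ^ 2 + 1) * mass (avg ε H)) ≤
      8 * ((140 * (M : ℝ≥0∞) ^ 2 + 2⁻¹) * mass F) := by
    calc 8 * ((140 * (M : ℝ≥0∞) ^ 2 + 1) * mass (avg ε H))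
        = 280 * (M : ℝ≥0∞) ^ 2 * (4 * mass (avg ε H)) + 8 * mass (avg ε H) := by ring
      _ ≤ 280 * (M : ℝ≥0∞) ^ 2 * (4 * mass (avg ε H)) +
          (4 * mass F + 280 * (M : ℝ≥0∞) ^ 2 * (Ω1 + Ω2)) := by gcongr
      _ = 280 * (M : ℝ≥0∞) ^ 2 * (4 * mass (avg ε H) + (Ω1 + Ω2)) + 4 * mass F := by ring
      _ ≤ 280 * (M : ℝ≥0∞) ^ 2 * (4 * mass F) + 4 * mass F := by gcongr
      _ = 8 * ((140 * (M : ℝ≥0∞) ^ 2 + 2⁻¹) * mass F) := by
          have : (8 * 2⁻¹ : ℝ≥0∞) = 4 := by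
            have h2 : (2 * 2⁻¹ : ℝ≥0∞) = 1 := ENNReal.mul_inv_cancel (by simp) (by simp)
            calc (8 * 2⁻¹ : ℝ≥0∞) = 4 * (2 * 2⁻¹) := by ring
              _ = 4 := by rw [h2, mul_one]
          calc 280 * (M : ℝ≥0∞) ^ 2 * (4 * mass F) + 4 * mass F
              = 280 * (M : ℝ≥0∞) ^ 2 * (4 * mass F) + (8 * 2⁻¹) * mass F := by rw [this]
            _ = _ := by ring
  exact (ENNReal.mul_le_mul_iff_right (by simp) (by simp)).1 k3

end Pool.Agent.Helper76x.LP
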