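import Mathlib

/-!
Discrete Schroedinger operators on a finite interval: eigenfunctions, resonances, Green vectors.
-/

set_option autoImplicit false

open Finset

namespace Pool.Agent.Helper76x.LP

/-- extension by zero -/
noncomputable def ext0 {a b : ℤ} (f : ↥(Icc a b) → ℝ) : ℤ → ℝ :=
  fun z => if h : z ∈ Icc a b then f ⟨z, h⟩ else 0

/-- matrix of the operator on an interval -/
noncomputable def mat (V : ℤ → ℝ) (a b : ℤ) : Matrix ↥(Icc a b) ↥(Icc a b) ℝ :=
  fun x y => (if (y : ℤ) = (x : ℤ) + 1 then 1 else 0) + (if (y : ℤ) = (x : ℤ) - 1 then 1 else 0) +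
    (if (y : ℤ) = (x : ℤ) then V x else 0)

lemma mat_symm (V : ℤ → ℝ) (a b : ℤ) : (mat V a b).IsHermitian := by
  rw [Matrix.IsHermitian]
  ext x y
  simp only [Matrix.conjTranspose_apply, mat, star_trivial]
  rcases lt_trichotomy (x : ℤ) (y : ℤ) with h | h | h
  · have e1 : ¬ (x : ℤ) = y + 1 := by omega
    have e2 : ¬ (x : ℤ) = y := by omega
    have e3 : ¬ (y : ℤ) = x - 1 := by omega
    have e4 : ¬ (y : ℤ) = x := by omega
    have e5 : ((x : ℤ) = y - 1) ↔ ((y : ℤ) = x + 1) := by omega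
    simp only [e1, e2, e3, e4, e5, if_false]
    ring
  · have e : x = y := Subtype.ext h
    rw [e]
  · have e1 : ¬ (x : ℤ) = y - 1 := by omega
    have e2 : ¬ (x : ℤ) = y := by omega
    have e3 : ¬ (y : ℤ) = x + 1 := by omega
    have e4 : ¬ (y : ℤ) = x := by omega
    have e5 : ((x : ℤ) = y + 1) ↔ ((y : ℤ) = x - 1) := by omega
    simp only [e1, e2, e3, e4, e5, if_false]
    ring

lemma sum_ite_ext0 {a b : ℤ} (f : ↥(Icc a b) → ℝ) (z : ℤ) (c : ℝ) :
    ∑ y : ↥(Icc a b), (if (y : ℤ) = z then c else 0) * f y = c * ext0 f z := by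
  unfold ext0
  by_cases h : z ∈ Icc a b
  · rw [dif_pos h]
    rw [sum_eq_single (⟨z, h⟩ : ↥(Icc a b))]
    · simp
    · intro y _ hy
      rw [if_neg, zero_mul]
      intro he
      exact hy (Subtype.ext he)
    · intro h'; exact absurd (mem_univ _) h'
  · rw [dif_neg h, mul_zero]
    apply sum_eq_zero
    intro y _
    rw [if_neg, zero_mul]
    intro he
    exact h (he ▸ y.2)

lemma mat_mulVec (V : ℤ → ℝ) (a b : ℤ) (f : ↥(Icc a b) → ℝ) (x : ↥(Icc a b)) :
    (mat V a b).mulVec f x = ext0 f (x + 1) + ext0 f (x - 1) + V x * ext0 f x := by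
  unfold mat Matrix.mulVec dotProduct
  simp only [add_mul, sum_add_distrib]
  rw [sum_ite_ext0, sum_ite_ext0, sum_ite_ext0]
  ring

lemma ext0_coe {a b : ℤ} (f : ↥(Icc a b) → ℝ) (x : ↥(Icc a b)) : ext0 f x = f x := by
  unfold ext0
  rw [dif_pos x.2]

lemma sum_ext0 {a b : ℤ} (f g : ↥(Icc a b) → ℝ) :
    ∑ x ∈ Icc a b, ext0 f x * ext0 g x = ∑ x : ↥(Icc a b), f x * g x := by
  rw [← sum_coe_sort (Icc a b)]
  refine sum_congr rfl fun x _ => ?_
  rw [ext0_coe, ext0_coe]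

/-- Spectral theorem on an interval. -/
theorem spec (V : ℤ → ℝ) (a b : ℤ) :
    ∃ (lam : ↥(Icc a b) → ℝ) (φ : ↥(Icc a b) → ℤ → ℝ),
      (∀ i, ∀ x, x ∉ Icc a b → φ i x = 0) ∧
      (∀ i, ∀ x ∈ Icc a b, φ i (x + 1) + φ i (x - 1) + V x * φ i x = lam i * φ i x) ∧
      (∀ i j, ∑ x ∈ Icc a b, φ i x * φ j x = if i = j then 1 else 0) ∧
      (∀ x ∈ Icc a b, ∀ y ∈ Icc a b, ∑ i, φ i x * φ i y = if x = y then 1 else 0) := by
  set hA := mat_symm V a b with hhA
  refine ⟨hA.eigenvalues, fun i => ext0 (hA.eigenvectorBasis i), ?_, ?_, ?_, ?_⟩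
  · intro i x hx
    show ext0 _ x = 0
    unfold ext0
    rw [dif_neg hx]
  · intro i x hx
    have h := congrFun (hA.mulVec_eigenvectorBasis i) ⟨x, hx⟩
    rw [mat_mulVec] at h
    simp only [Pi.smul_apply, smul_eq_mul] at h
    rw [h]
    congr 1
    exact (ext0_coe (hA.eigenvectorBasis i) ⟨x, hx⟩).symm
  · intro i j
    rw [sum_ext0]
    have h := orthonormal_iff_ite.1 hA.eigenvectorBasis.orthonormal i j
    rw [← h, PiLp.inner_apply]
    refine sum_congr rfl fun x _ => ?_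
    simp [mul_comm]
  · intro x hx y hy
    have h := hA.eigenvectorBasis.sum_inner_mul_inner
      (EuclideanSpace.single (⟨x, hx⟩ : ↥(Icc a b)) (1 : ℝ))
      (EuclideanSpace.single (⟨y, hy⟩ : ↥(Icc a b)) (1 : ℝ))
    have e : ∀ i, ext0 (hA.eigenvectorBasis i) x * ext0 (hA.eigenvectorBasis i) y =
        inner ℝ (EuclideanSpace.single (⟨x, hx⟩ : ↥(Icc a b)) (1 : ℝ)) (hA.eigenvectorBasis i) *
        inner ℝ (hA.eigenvectorBasis i) (EuclideanSpace.single (⟨y, hy⟩ : ↥(Icc a b)) (1 : ℝ)) := by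
      intro i
      rw [EuclideanSpace.inner_single_left, EuclideanSpace.inner_single_right]
      have e1 := ext0_coe (hA.eigenvectorBasis i) ⟨x, hx⟩
      have e2 := ext0_coe (hA.eigenvectorBasis i) ⟨y, hy⟩
      simp only at e1 e2
      rw [e1, e2]
      simp
    rw [sum_congr rfl fun i _ => e i, h, EuclideanSpace.inner_single_left]
    by_cases hxy : x = y
    · subst hxy
      simp
    · rw [if_neg hxy]
      have : (⟨x, hx⟩ : ↥(Icc a b)) ≠ ⟨y, hy⟩ := by
        intro he; exact hxy (congrArg Subtype.val he)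
      simp [this]

/-- the operator minus the energy -/
def hop (V : ℤ → ℝ) (E : ℝ) (v : ℤ → ℝ) (x : ℤ) : ℝ := v (x + 1) + v (x - 1) + (V x - E) * v x

/-- `E` is a resonance of width `δ` on the interval `[a, b]` -/
def Res (V : ℤ → ℝ) (E δ : ℝ) (a b : ℤ) : Prop :=
  ∃ v : ℤ → ℝ, (∀ x, x ∉ Icc a b → v x = 0) ∧
    ∑ x ∈ Icc a b, (hop V E v x) ^ 2 < δ ^ 2 * ∑ x ∈ Icc a b, (v x) ^ 2

lemma parseval {a b : ℤ} {φ : ↥(Icc a b) → ℤ → ℝ}
    (h3 : ∀ i j, ∑ x ∈ Icc a b, φ i x * φ j x = if i = j then 1 else 0) (c : ↥(Icc a b) → ℝ) :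
    ∑ x ∈ Icc a b, (∑ i, c i * φ i x) ^ 2 = ∑ i, c i ^ 2 := by
  have e : ∀ x, (∑ i, c i * φ i x) ^ 2 = ∑ i, ∑ j, c i * c j * (φ i x * φ j x) := by
    intro x
    rw [sq, sum_mul_sum]
    refine sum_congr rfl fun i _ => sum_congr rfl fun j _ => by ring
  rw [sum_congr rfl fun x _ => e x, sum_comm]
  refine sum_congr rfl fun i _ => ?_
  rw [sum_comm]
  simp_rw [← mul_sum, h3]
  simp [sq]

lemma Res.exists_near {V : ℤ → ℝ} {E δ : ℝ} {a b : ℤ} (h : Res V E δ a b)
    {lam : ↥(Icc a b) → ℝ} {φ : ↥(Icc a b) → ℤ → ℝ}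
    (h1 : ∀ i, ∀ x, x ∉ Icc a b → φ i x = 0)
    (h2 : ∀ i, ∀ x ∈ Icc a b, φ i (x + 1) + φ i (x - 1) + V x * φ i x = lam i * φ i x)
    (h3 : ∀ i j, ∑ x ∈ Icc a b, φ i x * φ j x = if i = j then 1 else 0)
    (h4 : ∀ x ∈ Icc a b, ∀ y ∈ Icc a b, ∑ i, φ i x * φ i y = if x = y then 1 else 0) :
    ∃ i, (lam i - E) ^ 2 < δ ^ 2 := by
  obtain ⟨v, hv, hlt⟩ := h
  by_contra hcon
  push Not at hcon
  set c : ↥(Icc a b) → ℝ := fun i => ∑ y ∈ Icc a b, φ i y * v y with hc
  have hexp : ∀ x, v x = ∑ i, c i * φ i x := by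
    intro x
    by_cases hx : x ∈ Icc a b
    · have e : ∑ i, c i * φ i x = ∑ y ∈ Icc a b, v y * ∑ i, φ i y * φ i x := by
        simp_rw [hc, sum_mul, mul_sum]
        rw [sum_comm]
        refine sum_congr rfl fun y _ => sum_congr rfl fun i _ => by ring
      rw [e]
      rw [sum_congr rfl fun y hy => by rw [h4 y hy x hx]]
      simp [hx]
    · rw [hv x hx]
      symm
      apply sum_eq_zero
      intro i _
      rw [h1 i x hx, mul_zero]
  have hhop : ∀ x ∈ Icc a b, hop V E v x = ∑ i, ((lam i - E) * c i) * φ i x := by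
    intro x hx
    unfold hop
    rw [hexp (x + 1), hexp (x - 1), hexp x, mul_sum, ← sum_add_distrib, ← sum_add_distrib]
    refine sum_congr rfl fun i _ => ?_
    have := h2 i x hx
    linear_combination (c i) * this
  have hlt2 : ∑ i, ((lam i - E) * c i) ^ 2 < δ ^ 2 * ∑ i, c i ^ 2 := by
    rw [← parseval h3, ← parseval h3]
    have e1 : ∑ x ∈ Icc a b, (∑ i, (lam i - E) * c i * φ i x) ^ 2 =
        ∑ x ∈ Icc a b, (hop V E v x) ^ 2 := sum_congr rfl fun x hx => by rw [hhop x hx]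
    have e2 : ∑ x ∈ Icc a b, (∑ i, c i * φ i x) ^ 2 = ∑ x ∈ Icc a b, (v x) ^ 2 :=
      sum_congr rfl fun x _ => by rw [← hexp x]
    rw [e1, e2]
    exact hlt
  have hge : δ ^ 2 * ∑ i, c i ^ 2 ≤ ∑ i, ((lam i - E) * c i) ^ 2 := by
    rw [mul_sum]
    refine sum_le_sum fun i _ => ?_
    rw [mul_pow]
    exact mul_le_mul_of_nonneg_right (hcon i) (sq_nonneg _)
  linarith

/-- Green vector at a nonresonant energy -/
theorem green {V : ℤ → ℝ} {E δ : ℝ} {a b : ℤ} (hδ : 0 < δ) (h : ¬ Res V E δ a b) {x : ℤ}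
    (hx : x ∈ Icc a b) : ∃ ψ : ℤ → ℝ, (∀ y, y ∉ Icc a b → ψ y = 0) ∧
      (∀ y ∈ Icc a b, hop V E ψ y = if y = x then 1 else 0) ∧
      ∑ y ∈ Icc a b, ψ y ^ 2 ≤ (1 / δ) ^ 2 := by
  obtain ⟨lam, φ, h1, h2, h3, h4⟩ := spec V a b
  have hl : ∀ i, δ ^ 2 ≤ (lam i - E) ^ 2 := by
    intro i
    by_contra hcon
    rw [not_le] at hcon
    apply h
    refine ⟨φ i, h1 i, ?_⟩
    have e1 : ∑ y ∈ Icc a b, (φ i y) ^ 2 = 1 := by
      have := h3 i i
      rw [if_pos rfl] at this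
      rw [← this]
      exact sum_congr rfl fun y _ => sq _
    have e2 : ∀ y ∈ Icc a b, (hop V E (φ i) y) ^ 2 = (lam i - E) ^ 2 * (φ i y) ^ 2 := by
      intro y hy
      unfold hop
      have := h2 i y hy
      have e : φ i (y + 1) + φ i (y - 1) + (V y - E) * φ i y = (lam i - E) * φ i y := by
        linear_combination this
      rw [e, mul_pow]
    rw [sum_congr rfl e2, ← mul_sum, e1]
    linarith
  have hl0 : ∀ i, lam i - E ≠ 0 := by
    intro i h0
    have := hl i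
    rw [h0] at this
    nlinarith
  refine ⟨fun y => ∑ i, (φ i x / (lam i - E)) * φ i y, ?_, ?_, ?_⟩
  · intro y hy
    apply sum_eq_zero
    intro i _
    rw [h1 i y hy, mul_zero]
  · intro y hy
    unfold hop
    rw [mul_sum, ← sum_add_distrib, ← sum_add_distrib]
    have e : ∀ i, φ i x / (lam i - E) * φ i (y + 1) + φ i x / (lam i - E) * φ i (y - 1) +
        (V y - E) * (φ i x / (lam i - E) * φ i y) = φ i y * φ i x := by
      intro i
      have h5 := h2 i y hy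
      have h6 : φ i (y + 1) + φ i (y - 1) + (V y - E) * φ i y = (lam i - E) * φ i y := by
        linear_combination h5
      calc _ = φ i x / (lam i - E) * (φ i (y + 1) + φ i (y - 1) + (V y - E) * φ i y) := by ring
        _ = φ i x / (lam i - E) * ((lam i - E) * φ i y) := by rw [h6]
        _ = φ i y * φ i x := by
          have := hl0 i
          field_simp
    rw [sum_congr rfl fun i _ => e i]
    exact h4 y hy x hx
  · rw [parseval h3]
    have e : ∑ i, (φ i x / (lam i - E)) ^ 2 ≤ ∑ i, (1 / δ) ^ 2 * (φ i x * φ i x) := by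
      refine sum_le_sum fun i _ => ?_
      rw [div_pow, div_pow, one_pow, one_div, div_eq_inv_mul, sq (φ i x)]
      apply mul_le_mul_of_nonneg_right _ (mul_self_nonneg _)
      exact inv_anti₀ (by positivity) (hl i)
    refine e.trans ?_
    rw [← mul_sum, h4 x hx x hx, if_pos rfl, mul_one]

end Pool.Agent.Helper76x.LP
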