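import Mathlib
import Pool.Agent.Helper76x.LP.Spec

/-!
Discrete Schroedinger operators on a finite interval: decay of solutions in nonresonant boxes.
-/

set_option autoImplicit false

open Finset

namespace Pool.Agent.Helper76x.LP

lemma sum_shift (g : ℤ → ℝ) {a b : ℤ} (hab : a ≤ b) :
    ∑ y ∈ Icc a b, g (y + 1) = ∑ y ∈ Icc a b, g y - g a + g (b + 1) := by
  induction b, hab using Int.leInduction with
  | base => simp
  | succ b hb ih =>
    have e : Icc a (b + 1) = insert (b + 1) (Icc a b) := by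
      ext z; simp only [mem_Icc, mem_insert]; omega
    have hn : b + 1 ∉ Icc a b := by simp
    rw [e, sum_insert hn, sum_insert hn, ih]
    ring

lemma green_identity (V : ℤ → ℝ) (E : ℝ) {a b : ℤ} (hab : a ≤ b) {ψ : ℤ → ℝ}
    (hψ : ∀ y, y ∉ Icc a b → ψ y = 0) (φ : ℤ → ℝ) :
    ∑ y ∈ Icc a b, φ y * hop V E ψ y =
      ∑ y ∈ Icc a b, ψ y * hop V E φ y - φ (a - 1) * ψ a - φ (b + 1) * ψ b := by
  have h1 := sum_shift (fun y => φ (y - 1) * ψ y) hab
  have h2 := sum_shift (fun y => φ y * ψ (y - 1)) hab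
  have hb : ψ (b + 1) = 0 := hψ _ (by simp)
  have ha : ψ (a - 1) = 0 := hψ _ (by simp)
  simp only [add_sub_cancel_right, hb, ha, mul_zero, sub_zero, add_zero] at h1 h2
  have e1 : ∑ y ∈ Icc a b, φ y * hop V E ψ y = ∑ y ∈ Icc a b, φ y * ψ (y + 1) +
      ∑ y ∈ Icc a b, φ y * ψ (y - 1) + ∑ y ∈ Icc a b, (V y - E) * (φ y * ψ y) := by
    rw [← sum_add_distrib, ← sum_add_distrib]
    refine sum_congr rfl fun y _ => ?_
    unfold hop; ring
  have e2 : ∑ y ∈ Icc a b, ψ y * hop V E φ y = ∑ y ∈ Icc a b, φ (y + 1) * ψ y +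
      ∑ y ∈ Icc a b, φ (y - 1) * ψ y + ∑ y ∈ Icc a b, (V y - E) * (φ y * ψ y) := by
    rw [← sum_add_distrib, ← sum_add_distrib]
    refine sum_congr rfl fun y _ => ?_
    unfold hop; ring
  rw [e1, e2, h1]
  linarith

/-- transfer of a pair along a sequence of coefficients -/
def tr (w : ℕ → ℝ) (p : ℝ × ℝ) : ℕ → ℝ × ℝ
  | 0 => p
  | k + 1 => (w k * (tr w p k).1 - (tr w p k).2, (tr w p k).1)

/-- squared length of a pair -/
def nsq (p : ℝ × ℝ) : ℝ := p.1 ^ 2 + p.2 ^ 2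

lemma tr_left {V : ℤ → ℝ} {E : ℝ} {a x : ℤ} {ψ : ℤ → ℝ} (ha : ψ (a - 1) = 0)
    (h : ∀ y, a ≤ y → y < x → hop V E ψ y = 0) :
    ∀ k : ℕ, a + k ≤ x → ψ (a + k) = ψ a * (tr (fun j => E - V (a + j)) (1, 0) k).1 ∧
      ψ (a + k - 1) = ψ a * (tr (fun j => E - V (a + j)) (1, 0) k).2 := by
  intro k
  induction k with
  | zero =>
    intro _
    simp [tr, ha]
  | succ k ih =>
    intro hk
    push_cast at hk ⊢
    obtain ⟨i1, i2⟩ := ih (by omega)
    have h3 := h (a + k) (by omega) (by omega)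
    unfold hop at h3
    constructor
    · simp only [tr]
      have e : a + ((k : ℤ) + 1) = a + k + 1 := by ring
      rw [e]
      linear_combination h3 - i2 + (E - V (a + k)) * i1
    · simp only [tr]
      have e : a + ((k : ℤ) + 1) - 1 = a + k := by ring
      rw [e, i1]

lemma tr_right {V : ℤ → ℝ} {E : ℝ} {b x : ℤ} {ψ : ℤ → ℝ} (hb : ψ (b + 1) = 0)
    (h : ∀ y, y ≤ b → x < y → hop V E ψ y = 0) :
    ∀ k : ℕ, x ≤ b - k → ψ (b - k) = ψ b * (tr (fun j => E - V (b - j)) (1, 0) k).1 ∧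
      ψ (b - k + 1) = ψ b * (tr (fun j => E - V (b - j)) (1, 0) k).2 := by
  intro k
  induction k with
  | zero =>
    intro _
    simp [tr, hb]
  | succ k ih =>
    intro hk
    push_cast at hk ⊢
    obtain ⟨i1, i2⟩ := ih (by omega)
    have h3 := h (b - k) (by omega) (by omega)
    unfold hop at h3
    constructor
    · simp only [tr]
      have e : b - ((k : ℤ) + 1) = b - k - 1 := by ring
      rw [e]
      linear_combination h3 - i2 + (E - V (b - k)) * i1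
    · simp only [tr]
      have e : b - ((k : ℤ) + 1) + 1 = b - k := by ring
      rw [e, i1]

lemma two_le_sum {a b x y : ℤ} (hxy : x ≠ y) {ψ : ℤ → ℝ} (hψ : ∀ y, y ∉ Icc a b → ψ y = 0) :
    ψ x ^ 2 + ψ y ^ 2 ≤ ∑ z ∈ Icc a b, ψ z ^ 2 := by
  have h1 : ∑ z ∈ Icc a b, ψ z ^ 2 = ∑ z ∈ Icc a b ∪ {x, y}, ψ z ^ 2 := by
    apply sum_subset subset_union_left
    intro z _ hz
    rw [hψ z hz]; ring
  rw [h1]
  calc ψ x ^ 2 + ψ y ^ 2 = ∑ z ∈ ({x, y} : Finset ℤ), ψ z ^ 2 := (sum_pair (f := fun z => ψ z ^ 2) hxy).symm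
    _ ≤ _ := sum_le_sum_of_subset_of_nonneg subset_union_right fun _ _ _ => sq_nonneg _

/-- decay of a solution at the centre of a nonresonant box -/
theorem decay {V : ℤ → ℝ} {E E0 δ M h κ : ℝ} {a b x : ℤ} {φ : ℤ → ℝ} (hδ : 0 < δ) (hM : 0 < M)
    (hx : x ∈ Icc a b) (hφ : ∀ y ∈ Icc a b, hop V E φ y = 0) (hφ1 : ∑ y ∈ Icc a b, φ y ^ 2 ≤ 1)
    (hE : |E - E0| ≤ h) (hres : ¬ Res V E0 δ a b)
    (hl : φ (a - 1) = 0 ∨ |φ (a - 1)| ≤ 1 ∧ ∃ k : ℕ, a + k = x ∧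
      M ^ 2 ≤ nsq (tr (fun j => E0 - V (a + j)) (1, 0) k))
    (hr : φ (b + 1) = 0 ∨ |φ (b + 1)| ≤ 1 ∧ ∃ k : ℕ, b - k = x ∧
      M ^ 2 ≤ nsq (tr (fun j => E0 - V (b - j)) (1, 0) k))
    (hκ : h * (1 / δ) + 2 * (1 / δ * (1 / M)) ≤ κ) : |φ x| ≤ κ := by
  have hab : a ≤ b := by rw [mem_Icc] at hx; omega
  obtain ⟨ψ, p1, p2, p3⟩ := green hδ hres hx
  have key := green_identity V E0 hab p1 φ
  have e1 : ∑ y ∈ Icc a b, φ y * hop V E0 ψ y = φ x := by
    rw [sum_congr rfl fun y hy => by rw [p2 y hy]]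
    simp only [mul_ite, mul_one, mul_zero, sum_ite_eq', hx, if_true]
  have e2 : ∑ y ∈ Icc a b, ψ y * hop V E0 φ y = (E - E0) * ∑ y ∈ Icc a b, ψ y * φ y := by
    rw [mul_sum]
    refine sum_congr rfl fun y hy => ?_
    have := hφ y hy
    unfold hop at *
    linear_combination (ψ y) * this
  rw [e1, e2] at key
  have hd : 0 ≤ 1 / δ := by positivity
  have hcs : |∑ y ∈ Icc a b, ψ y * φ y| ≤ 1 / δ := by
    apply abs_le_of_sq_le_sq _ hd
    calc (∑ y ∈ Icc a b, ψ y * φ y) ^ 2 ≤ (∑ y ∈ Icc a b, ψ y ^ 2) * ∑ y ∈ Icc a b, φ y ^ 2 :=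
          sum_mul_sq_le_sq_mul_sq _ _ _
      _ ≤ (1 / δ) ^ 2 * 1 := mul_le_mul p3 hφ1 (sum_nonneg fun _ _ => sq_nonneg _) (by positivity)
      _ = (1 / δ) ^ 2 := mul_one _
  have hleft : |φ (a - 1) * ψ a| ≤ 1 / δ * (1 / M) := by
    rcases hl with h0 | ⟨h1, k, hk, hk2⟩
    · rw [h0, zero_mul, abs_zero]; positivity
    · obtain ⟨t1, t2⟩ := tr_left (V := V) (E := E0) (a := a) (x := x) (ψ := ψ)
        (p1 _ (by simp)) (fun y hy1 hy2 => by
          rw [p2 y (by rw [mem_Icc] at *; omega), if_neg (by omega)]) k (by omega)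
      rw [hk] at t1 t2
      have h2 := two_le_sum (x := x) (y := x - 1) (by omega) p1
      have h3 : ψ a ^ 2 * nsq (tr (fun j => E0 - V (a + j)) (1, 0) k) ≤ (1 / δ) ^ 2 := by
        refine le_trans (le_of_eq ?_) (h2.trans p3)
        rw [t1, t2, nsq]; ring
      have h4 : (ψ a * M) ^ 2 ≤ (1 / δ) ^ 2 := by
        rw [mul_pow]
        exact (mul_le_mul_of_nonneg_left hk2 (sq_nonneg _)).trans h3
      have h5 : |ψ a * M| ≤ 1 / δ := abs_le_of_sq_le_sq h4 hd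
      rw [abs_mul, abs_of_pos hM] at h5
      have h6 : |ψ a| ≤ 1 / δ * (1 / M) := by
        rw [← div_eq_mul_one_div, le_div_iff₀ hM]; exact h5
      rw [abs_mul]
      calc |φ (a - 1)| * |ψ a| ≤ 1 * (1 / δ * (1 / M)) :=
            mul_le_mul h1 h6 (abs_nonneg _) zero_le_one
        _ = _ := one_mul _
  have hright : |φ (b + 1) * ψ b| ≤ 1 / δ * (1 / M) := by
    rcases hr with h0 | ⟨h1, k, hk, hk2⟩
    · rw [h0, zero_mul, abs_zero]; positivity
    · obtain ⟨t1, t2⟩ := tr_right (V := V) (E := E0) (b := b) (x := x) (ψ := ψ)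
        (p1 _ (by simp)) (fun y hy1 hy2 => by
          rw [p2 y (by rw [mem_Icc] at *; omega), if_neg (by omega)]) k (by omega)
      rw [hk] at t1 t2
      have h2 := two_le_sum (x := x) (y := x + 1) (by omega) p1
      have h3 : ψ b ^ 2 * nsq (tr (fun j => E0 - V (b - j)) (1, 0) k) ≤ (1 / δ) ^ 2 := by
        refine le_trans (le_of_eq ?_) (h2.trans p3)
        rw [t1, t2, nsq]; ring
      have h4 : (ψ b * M) ^ 2 ≤ (1 / δ) ^ 2 := by
        rw [mul_pow]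
        exact (mul_le_mul_of_nonneg_left hk2 (sq_nonneg _)).trans h3
      have h5 : |ψ b * M| ≤ 1 / δ := abs_le_of_sq_le_sq h4 hd
      rw [abs_mul, abs_of_pos hM] at h5
      have h6 : |ψ b| ≤ 1 / δ * (1 / M) := by
        rw [← div_eq_mul_one_div, le_div_iff₀ hM]; exact h5
      rw [abs_mul]
      calc |φ (b + 1)| * |ψ b| ≤ 1 * (1 / δ * (1 / M)) :=
            mul_le_mul h1 h6 (abs_nonneg _) zero_le_one
        _ = _ := one_mul _
  have hmid : |(E - E0) * ∑ y ∈ Icc a b, ψ y * φ y| ≤ h * (1 / δ) := by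
    rw [abs_mul]
    exact mul_le_mul hE hcs (abs_nonneg _) ((abs_nonneg _).trans hE)
  rw [key]
  have := abs_sub ((E - E0) * ∑ y ∈ Icc a b, ψ y * φ y - φ (a - 1) * ψ a) (φ (b + 1) * ψ b)
  have h2 := abs_sub ((E - E0) * ∑ y ∈ Icc a b, ψ y * φ y) (φ (a - 1) * ψ a)
  linarith

end Pool.Agent.Helper76x.LP
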