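import Mathlib
import Pool.Agent.Helper76x.LP.Decay

/-!
Localization of the eigenfunctions of a discrete Schroedinger operator on a finite interval.
-/

set_option autoImplicit false

open Finset

namespace Pool.Agent.Helper76x.LP

/-- The good event at scale `t` for a potential bounded by `B`. -/
def GoodAt (V : ℤ → ℝ) (B : ℝ) (t : ℕ) : Prop :=
  ∀ k : ℤ, |(k : ℝ) * Real.exp (-(3 * t))| ≤ B + 3 →
    (∀ a : ℤ, |a| ≤ 10 * (t : ℤ) ^ 8 →
      Real.exp (4 * t) ^ 2 ≤
          nsq (tr (fun j => k * Real.exp (-(3 * t)) - V (a + j)) (1, 0) (t ^ 8)) ∧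
      Real.exp (4 * t) ^ 2 ≤
          nsq (tr (fun j => k * Real.exp (-(3 * t)) - V (a - j)) (1, 0) (t ^ 8))) ∧
    (∀ a b c d : ℤ, -(10 * (t : ℤ) ^ 8) ≤ a → a ≤ b → b < c → c ≤ d → d ≤ 10 * (t : ℤ) ^ 8 →
      b - a ≤ 2 * (t : ℤ) ^ 8 → d - c ≤ 2 * (t : ℤ) ^ 8 →
      ¬ (Res V (k * Real.exp (-(3 * t))) (Real.exp (-(2 * t))) a b ∧
        Res V (k * Real.exp (-(3 * t))) (Real.exp (-(2 * t))) c d))

/-- A normalized eigenfunction on the interval `[-L, L]`, extended by zero. -/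
structure Eig (V : ℤ → ℝ) (L : ℕ) (E : ℝ) (φ : ℤ → ℝ) : Prop where
  supp : ∀ x, x ∉ Icc (-(L : ℤ)) L → φ x = 0
  eqn : ∀ x ∈ Icc (-(L : ℤ)) L, φ (x + 1) + φ (x - 1) + V x * φ x = E * φ x
  norm : ∑ x ∈ Icc (-(L : ℤ)) L, φ x ^ 2 = 1

variable {V : ℤ → ℝ} {B : ℝ} {L : ℕ} {E : ℝ} {φ : ℤ → ℝ}

lemma Eig.le_one (h : Eig V L E φ) (x : ℤ) : |φ x| ≤ 1 := by
  by_cases hx : x ∈ Icc (-(L : ℤ)) L
  · have h1 : φ x ^ 2 ≤ 1 := by
      rw [← h.norm]
      exact single_le_sum (f := fun x => φ x ^ 2) (fun _ _ => sq_nonneg _) hx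
    exact abs_le_of_sq_le_sq (by simpa using h1) zero_le_one
  · rw [h.supp x hx]; simp

lemma Eig.bound (h : Eig V L E φ) (hV : ∀ n, |V n| ≤ B) : |E| ≤ B + 2 := by
  have hne : (Icc (-(L : ℤ)) L).Nonempty := ⟨0, by simp⟩
  obtain ⟨x, hx, hmax⟩ := exists_max_image (Icc (-(L : ℤ)) L) (fun x => |φ x|) hne
  have hall : ∀ y, |φ y| ≤ |φ x| := by
    intro y
    by_cases hy : y ∈ Icc (-(L : ℤ)) L
    · exact hmax y hy
    · rw [h.supp y hy]; simp
  have hpos : 0 < |φ x| := by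
    by_contra hcon
    have h0 : |φ x| = 0 := le_antisymm (not_lt.1 hcon) (abs_nonneg _)
    have hz : ∀ y, φ y = 0 := fun y => by
      have := hall y
      rw [h0] at this
      exact abs_eq_zero.1 (le_antisymm this (abs_nonneg _))
    have := h.norm
    simp [hz] at this
  have e : E * φ x = φ (x + 1) + φ (x - 1) + V x * φ x := (h.eqn x hx).symm
  have h1 : |E| * |φ x| ≤ (B + 2) * |φ x| := by
    rw [← abs_mul, e]
    calc |φ (x + 1) + φ (x - 1) + V x * φ x| ≤ |φ (x + 1)| + |φ (x - 1)| + |V x * φ x| :=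
          abs_add_three _ _ _
      _ ≤ |φ x| + |φ x| + B * |φ x| := by
          rw [abs_mul]
          have := mul_le_mul_of_nonneg_right (hV x) (abs_nonneg (φ x))
          linarith [hall (x + 1), hall (x - 1)]
      _ = (B + 2) * |φ x| := by ring
  exact le_of_mul_le_mul_right h1 hpos

lemma Eig.sum_le (h : Eig V L E φ) (S : Finset ℤ) : ∑ x ∈ S, φ x ^ 2 ≤ 1 := by
  rw [← h.norm]
  calc ∑ x ∈ S, φ x ^ 2 ≤ ∑ x ∈ S ∪ Icc (-(L : ℤ)) L, φ x ^ 2 :=
        sum_le_sum_of_subset_of_nonneg subset_union_left fun _ _ _ => sq_nonneg _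
    _ = ∑ x ∈ Icc (-(L : ℤ)) L, φ x ^ 2 := by
        symm
        apply sum_subset subset_union_right
        intro z _ hz
        rw [h.supp z hz]; ring

theorem Eig.loc (h : Eig V L E φ) (hV : ∀ n, |V n| ≤ B) {t : ℕ} (hG : GoodAt V B t) {m : ℤ}
    (hm : |m| ≤ (t : ℤ) ^ 8) (hbig : 3 * Real.exp (-t) < |φ m|) {x : ℤ}
    (hx1 : 2 * (t : ℤ) ^ 8 < |x - m|) (hx2 : |x - m| ≤ 8 * (t : ℤ) ^ 8) :
    |φ x| ≤ 3 * Real.exp (-t) := by
  by_contra hcon
  rw [not_le] at hcon
  have hnn : (0:ℤ) ≤ (t : ℤ) ^ 8 := by positivity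
  set ℓ : ℤ := (t : ℤ) ^ 8 with hℓ
  have htr : (0:ℝ) ≤ t := Nat.cast_nonneg t
  -- the grid energy
  set k : ℤ := ⌊E * Real.exp (3 * t)⌋ with hk
  have hprod : Real.exp (3 * t) * Real.exp (-(3 * t)) = 1 := by
    rw [← Real.exp_add]; simp
  have hE0 : |E - k * Real.exp (-(3 * t))| ≤ Real.exp (-(3 * t)) := by
    have e : E - k * Real.exp (-(3 * t)) = (E * Real.exp (3 * t) - k) * Real.exp (-(3 * t)) := by
      rw [sub_mul, mul_assoc, hprod, mul_one]
    rw [e, abs_mul, abs_of_pos (Real.exp_pos _)]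
    have h1 : |E * Real.exp (3 * t) - k| ≤ 1 := by
      rw [abs_le]
      constructor
      · have := Int.floor_le (E * Real.exp (3 * t)); linarith
      · have := Int.lt_floor_add_one (E * Real.exp (3 * t)); linarith
    calc |E * Real.exp (3 * t) - k| * Real.exp (-(3 * t)) ≤ 1 * Real.exp (-(3 * t)) :=
          mul_le_mul_of_nonneg_right h1 (Real.exp_pos _).le
      _ = _ := one_mul _
  have hk3 : |(k : ℝ) * Real.exp (-(3 * t))| ≤ B + 3 := by
    have h1 := h.bound hV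
    have h2 : Real.exp (-(3 * t)) ≤ 1 := Real.exp_le_one_iff.2 (by linarith)
    have h3 : |(k : ℝ) * Real.exp (-(3 * t))| ≤ |E| + |E - k * Real.exp (-(3 * t))| := by
      have := abs_sub E (E - k * Real.exp (-(3 * t)))
      rwa [sub_sub_cancel] at this
    linarith
  obtain ⟨hclean, hsep⟩ := hG k hk3
  set E0 : ℝ := k * Real.exp (-(3 * t)) with hE0def
  have hκ : Real.exp (-(3 * t)) * (1 / Real.exp (-(2 * t))) +
      2 * (1 / Real.exp (-(2 * t)) * (1 / Real.exp (4 * t))) ≤ 3 * Real.exp (-t) := by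
    have e1 : 1 / Real.exp (-(2 * t)) = Real.exp (2 * t) := by
      rw [Real.exp_neg, one_div, inv_inv]
    have e2 : 1 / Real.exp (4 * t) = Real.exp (-(4 * t)) := by
      rw [Real.exp_neg, one_div]
    rw [e1, e2, ← Real.exp_add, ← Real.exp_add]
    have e3 : -(3 * (t:ℝ)) + 2 * t = -t := by ring
    have e4 : 2 * (t:ℝ) + -(4 * t) = -t - t := by ring
    rw [e3, e4]
    have : Real.exp (-t - t) ≤ Real.exp (-(t:ℝ)) := Real.exp_le_exp.2 (by linarith)
    linarith
  have claim : ∀ y : ℤ, |y| ≤ 9 * ℓ → 3 * Real.exp (-t) < |φ y| →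
      Res V E0 (Real.exp (-(2 * t))) (max (y - ℓ) (-L)) (min (y + ℓ) L) := by
    intro y hy hyb
    have hyL : y ∈ Icc (-(L : ℤ)) L := by
      by_contra hc
      rw [h.supp y hc] at hyb
      have := Real.exp_pos (-(t:ℝ))
      simp at hyb
      linarith
    rw [mem_Icc] at hyL
    rw [abs_le] at hy
    by_contra hres
    have := decay (V := V) (E := E) (E0 := E0) (φ := φ) (x := y)
      (a := max (y - ℓ) (-L)) (b := min (y + ℓ) L) (Real.exp_pos _) (Real.exp_pos _)
      (by rw [mem_Icc]; omega)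
      (fun z hz => by
        rw [mem_Icc] at hz
        have := h.eqn z (by rw [mem_Icc]; omega)
        unfold hop; linarith) (h.sum_le _) hE0 hres ?_ ?_ hκ
    · linarith
    · by_cases hc : -(L : ℤ) ≤ y - ℓ
      · right
        rw [max_eq_left hc]
        refine ⟨h.le_one _, t ^ 8, ?_, ?_⟩
        · push_cast; omega
        · exact (hclean (y - ℓ) (by rw [abs_le]; constructor <;> omega)).1
      · left
        rw [max_eq_right (by omega)]
        exact h.supp _ (by rw [mem_Icc]; omega)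
    · by_cases hc : y + ℓ ≤ (L : ℤ)
      · right
        rw [min_eq_left hc]
        refine ⟨h.le_one _, t ^ 8, ?_, ?_⟩
        · push_cast; omega
        · exact (hclean (y + ℓ) (by rw [abs_le]; constructor <;> omega)).2
      · left
        rw [min_eq_right (by omega)]
        exact h.supp _ (by rw [mem_Icc]; omega)
  rw [abs_le] at hm hx2
  have c1 := claim m (by rw [abs_le]; constructor <;> omega) hbig
  have c2 := claim x (by rw [abs_le]; constructor <;> omega) hcon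
  have hmL : -(L:ℤ) ≤ m ∧ m ≤ L := by
    by_contra hc
    rw [h.supp m (by rw [mem_Icc]; exact hc)] at hbig
    have := Real.exp_pos (-(t:ℝ))
    simp at hbig
    linarith
  have hxL : -(L:ℤ) ≤ x ∧ x ≤ L := by
    by_contra hc
    rw [h.supp x (by rw [mem_Icc]; exact hc)] at hcon
    have := Real.exp_pos (-(t:ℝ))
    simp at hcon
    linarith
  rcases lt_abs.1 hx1 with h1 | h1
  · exact hsep _ _ _ _ (by omega) (by omega) (by omega) (by omega) (by omega) (by omega)
      (by omega) ⟨c1, c2⟩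
  · exact hsep _ _ _ _ (by omega) (by omega) (by omega) (by omega) (by omega) (by omega)
      (by omega) ⟨c2, c1⟩

end Pool.Agent.Helper76x.LP
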