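import Mathlib
import Pool.Agent.Helper76x.LP.Local

/-!
Counting the eigenfunctions on a finite interval which are large at a given site.
-/

set_option autoImplicit false

open Finset

namespace Pool.Agent.Helper76x.LP

/-- An orthonormal basis of eigenfunctions on `[-L, L]`. -/
structure Fam (V : ℤ → ℝ) (L : ℕ) (lam : ↥(Icc (-(L : ℤ)) L) → ℝ)
    (φ : ↥(Icc (-(L : ℤ)) L) → ℤ → ℝ) : Prop where
  eig : ∀ i, Eig V L (lam i) (φ i)
  comp : ∀ x ∈ Icc (-(L : ℤ)) L, ∀ y ∈ Icc (-(L : ℤ)) L,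
    ∑ i, φ i x * φ i y = if x = y then 1 else 0
  orth : ∀ i j, ∑ x ∈ Icc (-(L : ℤ)) L, φ i x * φ j x = if i = j then 1 else 0

lemma exists_fam (V : ℤ → ℝ) (L : ℕ) : ∃ lam φ, Fam V L lam φ := by
  obtain ⟨lam, φ, h1, h2, h3, h4⟩ := spec V (-(L : ℤ)) L
  refine ⟨lam, φ, ⟨fun i => ⟨h1 i, h2 i, ?_⟩, h4, h3⟩⟩
  have := h3 i i
  rw [if_pos rfl] at this
  rw [← this]
  exact sum_congr rfl fun x _ => sq _

lemma poly_exp (k : ℕ) (C : ℝ) : ∀ᶠ s : ℕ in Filter.atTop,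
    C * (s : ℝ) ^ k * Real.exp (-s) ≤ 1 := by
  have h1 := (Real.tendsto_pow_mul_exp_neg_atTop_nhds_zero k).comp
    (tendsto_natCast_atTop_atTop (R := ℝ))
  have h2 := (h1.const_mul C)
  rw [mul_zero] at h2
  filter_upwards [h2.eventually (ge_mem_nhds (show (0:ℝ) < 1 by norm_num))] with s hs
  simp only [Function.comp_apply] at hs
  linarith

lemma succ_pow_le {s : ℕ} (hs : 6 ≤ s) : (s + 1) ^ 8 ≤ 4 * s ^ 8 := by
  have h1 : 6 * (s + 1) ≤ 7 * s := by omega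
  have h2 := Nat.pow_le_pow_left h1 8
  rw [mul_pow, mul_pow] at h2
  have h3 : 7 ^ 8 * s ^ 8 ≤ 6 ^ 8 * (4 * s ^ 8) := by
    have : (7 ^ 8 : ℕ) ≤ 6 ^ 8 * 4 := by norm_num
    calc 7 ^ 8 * s ^ 8 ≤ (6 ^ 8 * 4) * s ^ 8 := Nat.mul_le_mul_right _ this
      _ = 6 ^ 8 * (4 * s ^ 8) := by ring
  exact Nat.le_of_mul_le_mul_left (h2.trans h3) (by norm_num)

lemma exists_scale {t D : ℕ} (ht : 6 ≤ t) (hD : 2 * t ^ 8 < D) :
    ∃ s, t ≤ s ∧ 2 * s ^ 8 < D ∧ D ≤ 8 * s ^ 8 := by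
  classical
  have hex : ∃ s, t ≤ s ∧ D ≤ 8 * s ^ 8 := by
    refine ⟨max t D, le_max_left _ _, ?_⟩
    have h1 : D ≤ D ^ 8 := Nat.le_self_pow (by norm_num) D
    have h2 : D ^ 8 ≤ (max t D) ^ 8 := Nat.pow_le_pow_left (le_max_right _ _) 8
    omega
  obtain ⟨h1, h2⟩ := Nat.find_spec hex
  refine ⟨Nat.find hex, h1, ?_, h2⟩
  rcases Nat.eq_or_lt_of_le h1 with h | h
  · rw [← h]; exact hD
  · have hmin := Nat.find_min hex (m := Nat.find hex - 1) (by omega)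
    rw [not_and, not_le] at hmin
    have h3 := hmin (by omega)
    have h4 := succ_pow_le (s := Nat.find hex - 1) (by omega)
    rw [Nat.sub_add_cancel (by omega)] at h4
    omega

variable {V : ℤ → ℝ} {B : ℝ}

/-- polynomial decay away from a site where the eigenfunction is large -/
lemma tail_bound (hV : ∀ n, |V n| ≤ B) {t0 : ℕ} (hG : ∀ t, t0 ≤ t → GoodAt V B t) (m : ℤ) :
    ∃ T : ℕ, ∀ t, T ≤ t → ∀ (L : ℕ) (E : ℝ) (φ : ℤ → ℝ), Eig V L E φ →
      3 * Real.exp (-t) < |φ m| → ∀ x : ℤ, 2 * (t : ℤ) ^ 8 < |x - m| →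
        |φ x| ≤ 1 / ((x - m : ℤ) : ℝ) ^ 2 := by
  obtain ⟨T1, hT1⟩ := Filter.eventually_atTop.1 (poly_exp 16 192)
  refine ⟨max (max t0 6) (max T1 m.natAbs), fun t ht L E φ hφ hbig x hx => ?_⟩
  have ht0 : t0 ≤ t := le_trans (le_trans (le_max_left _ _) (le_max_left _ _)) ht
  have ht6 : 6 ≤ t := le_trans (le_trans (le_max_right _ _) (le_max_left _ _)) ht
  have htT : T1 ≤ t := le_trans (le_trans (le_max_left _ _) (le_max_right _ _)) ht
  have htm : m.natAbs ≤ t := le_trans (le_trans (le_max_right _ _) (le_max_right _ _)) ht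
  obtain ⟨s, hs1, hs2, hs3⟩ := exists_scale (t := t) (D := (x - m).natAbs) ht6 (by
    have : (2 * (t:ℤ) ^ 8) < ((x - m).natAbs : ℤ) := by rwa [Int.natCast_natAbs]
    exact_mod_cast this)
  have e1 : 2 * (s : ℤ) ^ 8 < |x - m| := by
    rw [← Int.natCast_natAbs]; exact_mod_cast hs2
  have e2 : |x - m| ≤ 8 * (s : ℤ) ^ 8 := by
    rw [← Int.natCast_natAbs]; exact_mod_cast hs3
  have hms : |m| ≤ (s : ℤ) ^ 8 := by
    rw [← Int.natCast_natAbs]
    have h1 : m.natAbs ≤ s := by omega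
    have h2 : s ≤ s ^ 8 := Nat.le_self_pow (by norm_num) s
    exact_mod_cast h1.trans h2
  have hmono : 3 * Real.exp (-(s:ℝ)) < |φ m| := by
    have : Real.exp (-(s:ℝ)) ≤ Real.exp (-(t:ℝ)) := by
      apply Real.exp_le_exp.2
      have : (t:ℝ) ≤ s := by exact_mod_cast hs1
      linarith
    linarith
  have h3 := hφ.loc hV (hG s (by omega)) hms hmono e1 e2
  have h4 := hT1 s (by omega)
  have hpos : (0:ℝ) < |((x - m : ℤ) : ℝ)| := by
    have h0 : (0:ℤ) < |x - m| := by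
      have : (0:ℤ) ≤ 2 * (s:ℤ) ^ 8 := by positivity
      omega
    rw [← Int.cast_abs]
    exact_mod_cast h0
  have h5 : |((x - m : ℤ) : ℝ)| ≤ 8 * (s:ℝ) ^ 8 := by
    rw [← Int.cast_abs]; exact_mod_cast e2
  have h6 : ((x - m : ℤ) : ℝ) ^ 2 ≤ 64 * (s:ℝ) ^ 16 := by
    rw [← sq_abs]
    calc |((x - m : ℤ) : ℝ)| ^ 2 ≤ (8 * (s:ℝ) ^ 8) ^ 2 := pow_le_pow_left₀ hpos.le h5 2
      _ = 64 * (s:ℝ) ^ 16 := by ring
  have hsq : (0:ℝ) < ((x - m : ℤ) : ℝ) ^ 2 := by rw [← sq_abs]; positivity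
  refine h3.trans ?_
  rw [le_div_iff₀ hsq]
  calc 3 * Real.exp (-s) * ((x - m : ℤ) : ℝ) ^ 2 ≤ 3 * Real.exp (-s) * (64 * (s:ℝ) ^ 16) :=
        mul_le_mul_of_nonneg_left h6 (by positivity)
    _ = 192 * (s:ℝ) ^ 16 * Real.exp (-s) := by ring
    _ ≤ 1 := h4

lemma summable_four : Summable fun n : ℤ => 1 / (n : ℝ) ^ 4 :=
  Real.summable_one_div_int_pow.2 (by norm_num)

lemma exists_small_tail : ∃ N : ℕ, ∀ S : Finset ℤ, (∀ x ∈ S, (N : ℤ) < |x|) →
    ∑ x ∈ S, 1 / (x : ℝ) ^ 4 < 1 / 2 := by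
  have h := summable_iff_vanishing.1 summable_four (Set.Iio (1 / 2 : ℝ))
    (Iio_mem_nhds (by norm_num))
  obtain ⟨s, hs⟩ := h
  refine ⟨s.sup Int.natAbs, fun S hS => ?_⟩
  apply hs S
  rw [disjoint_left]
  intro x hx hxs
  have h1 := hS x hx
  have h2 : x.natAbs ≤ s.sup Int.natAbs := le_sup (f := Int.natAbs) hxs
  rw [← Int.natCast_natAbs] at h1
  have : s.sup Int.natAbs < x.natAbs := by exact_mod_cast h1
  omega

/-- the eigenfunctions which are large at `m` -/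
noncomputable def big {L : ℕ} (φ : ↥(Icc (-(L : ℤ)) L) → ℤ → ℝ) (m : ℤ) (t : ℕ) :
    Finset ↥(Icc (-(L : ℤ)) L) := univ.filter fun i => 3 * Real.exp (-t) < |φ i m|

lemma mem_big {L : ℕ} {φ : ↥(Icc (-(L : ℤ)) L) → ℤ → ℝ} {m : ℤ} {t : ℕ}
    {i : ↥(Icc (-(L : ℤ)) L)} : i ∈ big φ m t ↔ 3 * Real.exp (-t) < |φ i m| := by
  unfold big
  rw [mem_filter]
  simp

lemma Fam.diag_le {L : ℕ} {lam : ↥(Icc (-(L : ℤ)) L) → ℝ} {φ : ↥(Icc (-(L : ℤ)) L) → ℤ → ℝ}
    (hF : Fam V L lam φ) (x : ℤ) : ∑ i, φ i x ^ 2 ≤ 1 := by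
  by_cases hx : x ∈ Icc (-(L : ℤ)) L
  · have := hF.comp x hx x hx
    rw [if_pos rfl] at this
    rw [← this]
    exact le_of_eq (sum_congr rfl fun i _ => sq _)
  · rw [sum_eq_zero fun i _ => by rw [(hF.eig i).supp x hx]; norm_num]
    norm_num

/-- few eigenfunctions are large at `m` -/
lemma count_bound (hV : ∀ n, |V n| ≤ B) {t0 : ℕ} (hG : ∀ t, t0 ≤ t → GoodAt V B t) (m : ℤ) :
    ∃ T : ℕ, ∀ t, T ≤ t → ∀ (L : ℕ) (lam : ↥(Icc (-(L : ℤ)) L) → ℝ)
      (φ : ↥(Icc (-(L : ℤ)) L) → ℤ → ℝ), Fam V L lam φ →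
        (big φ m t).card ≤ 2 * (4 * t ^ 8 + 1) := by
  classical
  obtain ⟨T, hT⟩ := tail_bound hV hG m
  obtain ⟨N, hN⟩ := exists_small_tail
  refine ⟨max T N, fun t ht L lam φ hF => ?_⟩
  set ball : Finset ℤ := Icc (m - 2 * (t : ℤ) ^ 8) (m + 2 * (t : ℤ) ^ 8) with hball
  have hcard : ball.card = 4 * t ^ 8 + 1 := by
    rw [hball, Int.card_Icc]
    have : m + 2 * (t : ℤ) ^ 8 + 1 - (m - 2 * (t : ℤ) ^ 8) = ((4 * t ^ 8 + 1 : ℕ) : ℤ) := by
      push_cast; ring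
    rw [this, Int.toNat_natCast]
  have hhalf : ∀ i ∈ big φ m t, 1 / 2 ≤ ∑ x ∈ ball, φ i x ^ 2 := by
    intro i hi
    rw [mem_big] at hi
    have h1 := (hF.eig i).norm
    set S : Finset ℤ := Icc (-(L : ℤ)) L \ ball with hS
    have h2 : ∑ x ∈ Icc (-(L : ℤ)) L, φ i x ^ 2 ≤ ∑ x ∈ ball, φ i x ^ 2 + ∑ x ∈ S, φ i x ^ 2 := by
      rw [← sum_union (by rw [hS]; exact disjoint_sdiff)]
      apply sum_le_sum_of_subset_of_nonneg
      · rw [hS, union_sdiff_self_eq_union]; exact subset_union_right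
      · intros; positivity
    have h3 : ∑ x ∈ S, φ i x ^ 2 ≤ ∑ x ∈ S, 1 / ((x - m : ℤ) : ℝ) ^ 4 := by
      refine sum_le_sum fun x hx => ?_
      rw [hS, mem_sdiff, hball, mem_Icc] at hx
      have hx2 : 2 * (t : ℤ) ^ 8 < |x - m| := by
        rw [lt_abs]
        by_contra hc
        apply hx.2
        rw [mem_Icc]
        omega
      have h4 := hT t (le_trans (le_max_left _ _) ht) L (lam i) (φ i) (hF.eig i) hi x hx2
      have h5 := pow_le_pow_left₀ (abs_nonneg _) h4 2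
      rw [sq_abs] at h5
      refine h5.trans (le_of_eq ?_)
      rw [div_pow, one_pow, ← pow_mul]
    have h4 : ∑ x ∈ S, 1 / ((x - m : ℤ) : ℝ) ^ 4 < 1 / 2 := by
      have h5 := hN (S.image fun x => x - m) (by
        intro y hy
        rw [mem_image] at hy
        obtain ⟨x, hx, rfl⟩ := hy
        rw [hS, mem_sdiff, hball, mem_Icc] at hx
        have hx2 : 2 * (t : ℤ) ^ 8 < |x - m| := by
          rw [lt_abs]
          by_contra hc
          apply hx.2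
          rw [mem_Icc]
          omega
        have h6 : (N : ℤ) ≤ t := by exact_mod_cast le_trans (le_max_right _ _) ht
        have h7 : (t : ℤ) ≤ (t : ℤ) ^ 8 := by
          exact_mod_cast Nat.le_self_pow (by norm_num : 8 ≠ 0) t
        omega)
      rwa [sum_image (fun x _ y _ h => by simpa using h)] at h5
    linarith
  have h1 : ((big φ m t).card : ℝ) * (1 / 2) ≤ ∑ i ∈ big φ m t, ∑ x ∈ ball, φ i x ^ 2 := by
    rw [← nsmul_eq_mul, ← sum_const]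
    exact sum_le_sum hhalf
  have h2 : ∑ i ∈ big φ m t, ∑ x ∈ ball, φ i x ^ 2 ≤ (ball.card : ℝ) := by
    rw [sum_comm]
    calc ∑ x ∈ ball, ∑ i ∈ big φ m t, φ i x ^ 2 ≤ ∑ x ∈ ball, (1:ℝ) := by
          refine sum_le_sum fun x _ => ?_
          refine le_trans ?_ (hF.diag_le x)
          exact sum_le_sum_of_subset_of_nonneg (subset_univ _) fun _ _ _ => sq_nonneg _
      _ = (ball.card : ℝ) := by simp
  rw [hcard] at h2
  have h3 : ((big φ m t).card : ℝ) ≤ ((2 * (4 * t ^ 8 + 1) : ℕ) : ℝ) := by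
    have := h1.trans h2
    push_cast at *
    linarith
  exact_mod_cast h3

/-- the eigenfunctions which are small at `m` carry little of the mass of `m` -/
lemma rem_bound (hV : ∀ n, |V n| ≤ B) {t0 : ℕ} (hG : ∀ t, t0 ≤ t → GoodAt V B t) (m : ℤ) :
    ∃ T : ℕ, ∀ t, T ≤ t → ∀ (L : ℕ) (lam : ↥(Icc (-(L : ℤ)) L) → ℝ)
      (φ : ↥(Icc (-(L : ℤ)) L) → ℤ → ℝ), Fam V L lam φ →
        ∑ i ∈ (big φ m t)ᶜ, φ i m ^ 2 ≤ 2 * (1 / 2) ^ t := by
  classical
  obtain ⟨T, hT⟩ := count_bound hV hG m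
  obtain ⟨T1, hT1⟩ := Filter.eventually_atTop.1 (poly_exp 8 (18 * 1025))
  refine ⟨max (max T T1) 1, fun t ht L lam φ hF => ?_⟩
  set q : ℕ → ℝ := fun s => ∑ i ∈ (big φ m s)ᶜ, φ i m ^ 2 with hq
  have hmem : ∀ s, ∀ i ∈ (big φ m s)ᶜ, φ i m ^ 2 ≤ 9 * Real.exp (-(2 * s)) := by
    intro s i hi
    rw [mem_compl, mem_big, not_lt] at hi
    have h5 := pow_le_pow_left₀ (abs_nonneg _) hi 2
    rw [sq_abs] at h5
    refine h5.trans (le_of_eq ?_)
    rw [mul_pow, ← Real.exp_nat_mul]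
    norm_num
  have hstep : ∀ s, t ≤ s → q s ≤ (1 / 2) ^ s + q (s + 1) := by
    intro s hs
    have hs1 : T ≤ s + 1 := by
      have := le_trans (le_trans (le_max_left T T1) (le_max_left _ 1)) ht
      omega
    have hsT1 : T1 ≤ s := by
      have := le_trans (le_trans (le_max_right T T1) (le_max_left _ 1)) ht
      omega
    have hsp : 1 ≤ s := by
      have := le_trans (le_max_right (max T T1) 1) ht
      omega
    have hsub : (big φ m s)ᶜ ⊆ ((big φ m s)ᶜ ∩ big φ m (s + 1)) ∪ (big φ m (s + 1))ᶜ := by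
      intro i hi
      by_cases h : i ∈ big φ m (s + 1)
      · exact mem_union_left _ (mem_inter.2 ⟨hi, h⟩)
      · exact mem_union_right _ (mem_compl.2 h)
    have h1 : q s ≤ ∑ i ∈ (big φ m s)ᶜ ∩ big φ m (s + 1), φ i m ^ 2 + q (s + 1) := by
      refine (sum_le_sum_of_subset_of_nonneg hsub fun _ _ _ => sq_nonneg _).trans ?_
      rw [sum_union]
      rw [disjoint_left]
      intro i hi hi'
      exact (mem_compl.1 hi') (mem_inter.1 hi).2
    have h2 : ∑ i ∈ (big φ m s)ᶜ ∩ big φ m (s + 1), φ i m ^ 2 ≤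
        ((big φ m (s + 1)).card : ℝ) * (9 * Real.exp (-(2 * s))) := by
      refine (sum_le_sum fun i hi => hmem s i (mem_inter.1 hi).1).trans ?_
      rw [sum_const, nsmul_eq_mul]
      apply mul_le_mul_of_nonneg_right _ (by positivity)
      exact_mod_cast card_le_card inter_subset_right
    have h3 : ((big φ m (s + 1)).card : ℝ) ≤ 2 * 1025 * (s : ℝ) ^ 8 := by
      have h4 := hT (s + 1) hs1 L lam φ hF
      have h5 : (s + 1) ^ 8 ≤ (2 * s) ^ 8 := Nat.pow_le_pow_left (by omega) 8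
      have h6 : 1 ≤ s ^ 8 := Nat.one_le_pow _ _ hsp
      have h7 : (big φ m (s + 1)).card ≤ 2 * 1025 * s ^ 8 := by
        rw [mul_pow] at h5
        norm_num at h5
        omega
      exact_mod_cast h7
    have h4 : 2 * 1025 * (s : ℝ) ^ 8 * (9 * Real.exp (-(2 * s))) ≤ (1 / 2) ^ s := by
      have h5 := hT1 s hsT1
      have h6 : Real.exp (-(s:ℝ)) ≤ (1 / 2) ^ s := by
        have h7 : Real.exp (-1) ≤ 1 / 2 := by
          have := Real.exp_neg_one_lt_d9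
          linarith
        calc Real.exp (-(s:ℝ)) = (Real.exp (-1)) ^ s := by
              rw [← Real.exp_nat_mul]; congr 1; ring
          _ ≤ (1 / 2) ^ s := pow_le_pow_left₀ (Real.exp_pos _).le h7 s
      have h8 : Real.exp (-(2 * (s:ℝ))) = Real.exp (-(s:ℝ)) * Real.exp (-(s:ℝ)) := by
        rw [← Real.exp_add]; congr 1; ring
      rw [h8]
      calc 2 * 1025 * (s : ℝ) ^ 8 * (9 * (Real.exp (-(s:ℝ)) * Real.exp (-(s:ℝ))))
          = (18 * 1025 * (s : ℝ) ^ 8 * Real.exp (-(s:ℝ))) * Real.exp (-(s:ℝ)) := by ring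
        _ ≤ 1 * Real.exp (-(s:ℝ)) := mul_le_mul_of_nonneg_right h5 (Real.exp_pos _).le
        _ ≤ (1 / 2) ^ s := by rw [one_mul]; exact h6
    have h5 := mul_le_mul_of_nonneg_right h3 (show 0 ≤ 9 * Real.exp (-(2 * (s:ℝ))) by positivity)
    linarith
  have hind : ∀ k : ℕ, q t ≤ 2 * (1 / 2) ^ t - 2 * (1 / 2) ^ (t + k) + q (t + k) := by
    intro k
    induction k with
    | zero => simp
    | succ k ih =>
      have h1 := hstep (t + k) (by omega)
      have h2 : (1 / 2 : ℝ) ^ (t + (k + 1)) = (1 / 2) ^ (t + k) * (1 / 2) := by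
        rw [← add_assoc, pow_succ]
      rw [h2]
      rw [← add_assoc]
      linarith
  have hlim : Filter.Tendsto (fun k : ℕ => 2 * (1 / 2 : ℝ) ^ t +
      (Fintype.card ↥(Icc (-(L : ℤ)) L) : ℝ) * (9 * Real.exp (-(2 * ((t + k : ℕ) : ℝ)))))
      Filter.atTop (nhds (2 * (1 / 2) ^ t + (Fintype.card ↥(Icc (-(L : ℤ)) L) : ℝ) * (9 * 0))) := by
    apply Filter.Tendsto.const_add
    apply Filter.Tendsto.const_mul
    apply Filter.Tendsto.const_mul
    apply Real.tendsto_exp_neg_atTop_nhds_zero.comp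
    apply Filter.Tendsto.const_mul_atTop (by norm_num)
    apply tendsto_natCast_atTop_atTop.comp
    exact Filter.tendsto_atTop_mono (fun k => by omega : ∀ k, k ≤ t + k) Filter.tendsto_id
  have hle : ∀ k : ℕ, q t ≤ 2 * (1 / 2 : ℝ) ^ t +
      (Fintype.card ↥(Icc (-(L : ℤ)) L) : ℝ) * (9 * Real.exp (-(2 * ((t + k : ℕ) : ℝ)))) := by
    intro k
    have h1 := hind k
    have h2 : q (t + k) ≤ (Fintype.card ↥(Icc (-(L : ℤ)) L) : ℝ) *
        (9 * Real.exp (-(2 * ((t + k : ℕ) : ℝ)))) := by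
      refine (sum_le_sum (hmem (t + k))).trans ?_
      rw [sum_const, nsmul_eq_mul]
      apply mul_le_mul_of_nonneg_right _ (by positivity)
      exact_mod_cast card_le_univ _
    have h3 : (0:ℝ) ≤ 2 * (1 / 2) ^ (t + k) := by positivity
    linarith
  have := ge_of_tendsto' hlim hle
  simpa using this

end Pool.Agent.Helper76x.LP
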