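import Mathlib

/-!
Open subgroups of large index in an infinite compact totally disconnected group.
-/

set_option autoImplicit false

open Set

namespace Pool.Agent.Helper76x.LP

variable {Ω : Type*} [AddCommGroup Ω] [TopologicalSpace Ω] [IsTopologicalAddGroup Ω]
  [CompactSpace Ω] [T2Space Ω] [TotallyDisconnectedSpace Ω]

lemma exists_large_index [Infinite Ω] (N : ℕ) :
    ∃ H : OpenAddSubgroup Ω, N < Nat.card (Ω ⧸ H.toAddSubgroup) := by
  set f : Fin (N + 1) → Ω := fun i => Infinite.natEmbedding Ω i with hf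
  have hfi : Function.Injective f := by
    intro i j h
    exact Fin.ext ((Infinite.natEmbedding Ω).injective h)
  set S : Set Ω := {x | ∃ i j : Fin (N + 1), i ≠ j ∧ x = -f i + f j} with hS
  have hSf : S.Finite := by
    apply (Set.finite_range (fun p : Fin (N + 1) × Fin (N + 1) => -f p.1 + f p.2)).subset
    rintro x ⟨i, j, _, rfl⟩
    exact ⟨(i, j), rfl⟩
  have hSo : IsOpen Sᶜ := hSf.isClosed.isOpen_compl
  have h0 : (0 : Ω) ∈ Sᶜ := by
    rintro ⟨i, j, hij, h⟩
    apply hij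
    apply hfi
    have : f i = f j := by
      rw [neg_add_eq_sub] at h
      exact (sub_eq_zero.1 h.symm).symm
    exact this
  obtain ⟨W, hW, hWS⟩ := ((nhds_basis_clopen (0 : Ω)).mem_iff' Sᶜ).1 (hSo.mem_nhds h0)
  obtain ⟨H, hH⟩ := IsTopologicalAddGroup.exist_openAddSubgroup_sub_clopen_nhds_of_zero hW.2 hW.1
  refine ⟨H, ?_⟩
  have hfin : Finite (Ω ⧸ H.toAddSubgroup) := AddSubgroup.quotient_finite_of_isOpen _ H.isOpen
  have hinj : Function.Injective fun i : Fin (N + 1) => (f i : Ω ⧸ H.toAddSubgroup) := by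
    intro i j h
    by_contra hij
    have h1 := QuotientAddGroup.eq.1 h
    exact hWS (hH h1) ⟨i, j, hij, rfl⟩
  have h2 := Nat.card_le_card_of_injective _ hinj
  rw [Nat.card_eq_fintype_card, Fintype.card_fin] at h2
  omega

omit [CompactSpace Ω] [T2Space Ω] [TotallyDisconnectedSpace Ω] in
lemma card_le_of_mem (H : OpenAddSubgroup Ω) {α : Ω}
    (hα : Dense (Set.range (fun n : ℤ => n • α))) {k : ℕ} (hk : 0 < k)
    (h : k • α ∈ H.toAddSubgroup) : Nat.card (Ω ⧸ H.toAddSubgroup) ≤ k := by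
  set q : Ω ⧸ H.toAddSubgroup := (α : Ω ⧸ H.toAddSubgroup) with hq
  have htop : AddSubgroup.zmultiples q = ⊤ := by
    rw [eq_top_iff]
    intro x _
    obtain ⟨ω, rfl⟩ := QuotientAddGroup.mk_surjective x
    have hopen : IsOpen {y : Ω | (y : Ω ⧸ H.toAddSubgroup) = (ω : Ω ⧸ H.toAddSubgroup)} := by
      have e : {y : Ω | (y : Ω ⧸ H.toAddSubgroup) = (ω : Ω ⧸ H.toAddSubgroup)} =
          (fun y : Ω => -y + ω) ⁻¹' (H : Set Ω) := by
        ext y
        simp only [mem_ofPred_eq, mem_preimage]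
        exact QuotientAddGroup.eq
      rw [e]
      exact H.isOpen.preimage (by fun_prop)
    obtain ⟨y, hy1, n, hn⟩ := hα.inter_open_nonempty _ hopen ⟨ω, rfl⟩
    rw [AddSubgroup.mem_zmultiples_iff]
    refine ⟨n, ?_⟩
    rw [mem_ofPred_eq] at hy1
    rw [← hy1, ← hn]
    rfl
  have h1 : Nat.card (Ω ⧸ H.toAddSubgroup) = addOrderOf q := by
    rw [← Nat.card_zmultiples, htop, AddSubgroup.card_top]
  rw [h1]
  apply Nat.le_of_dvd hk
  apply addOrderOf_dvd_of_nsmul_eq_zero
  rw [hq, ← QuotientAddGroup.mk_nsmul]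
  exact (QuotientAddGroup.eq_zero_iff _).2 h

omit [CompactSpace Ω] [T2Space Ω] [TotallyDisconnectedSpace Ω] in
lemma coset_inj (H : OpenAddSubgroup Ω) {α : Ω}
    (hα : Dense (Set.range (fun n : ℤ => n • α))) {n n' : ℤ} (ω : Ω)
    (hlt : (n - n').natAbs < Nat.card (Ω ⧸ H.toAddSubgroup))
    (h : ((ω + n • α : Ω) : Ω ⧸ H.toAddSubgroup) = ((ω + n' • α : Ω) : Ω ⧸ H.toAddSubgroup)) :
    n = n' := by
  by_contra hne
  have h1 := QuotientAddGroup.eq.1 h
  have h2 : (n' - n) • α ∈ H.toAddSubgroup := by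
    have e : -(ω + n • α) + (ω + n' • α) = (n' - n) • α := by
      rw [sub_smul]; abel
    rwa [e] at h1
  have h3 : (n - n').natAbs • α ∈ H.toAddSubgroup := by
    rcases Int.natAbs_eq (n - n') with h4 | h4
    · have e : ((n - n').natAbs : ℤ) • α = -((n' - n) • α) := by
        rw [← h4, ← neg_smul]; congr 1; ring
      rw [← natCast_zsmul, e]
      exact H.toAddSubgroup.neg_mem h2
    · have e : ((n - n').natAbs : ℤ) • α = (n' - n) • α := by
        congr 1; omega
      rw [← natCast_zsmul, e]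
      exact h2
  have h4 := card_le_of_mem H hα (by omega) h3
  omega

end Pool.Agent.Helper76x.LP
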