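import Mathlib
import Pool.Agent.Helper76x.LP.Count

/-!
Completeness of the square summable eigenvectors of a discrete Schroedinger operator on the
integers from localization on finite intervals.
-/

set_option autoImplicit false

open Finset Filter

namespace Pool.Agent.Helper76x.LP

/-- enumeration of a finite family by `Fin K`, padded by zero -/
lemma exists_enum {ι X : Type*} [Zero X] (A : Finset ι) (F : ι → X) {K : ℕ} (hK : A.card ≤ K) :
    ∃ G : Fin K → X, (∀ k, G k = 0 ∨ ∃ i ∈ A, G k = F i) ∧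
      ∀ h : X → ℝ, h 0 = 0 → ∑ k, h (G k) = ∑ i ∈ A, h (F i) := by
  classical
  obtain ⟨j⟩ : Nonempty (A ↪ Fin K) := Function.Embedding.nonempty_of_card_le (by simpa using hK)
  refine ⟨fun k => if hk : ∃ i : A, j i = k then F (hk.choose : ι) else 0, ?_, ?_⟩
  · intro k
    by_cases hk : ∃ i : A, j i = k
    · right
      exact ⟨hk.choose, hk.choose.2, by simp only [dif_pos hk]⟩
    · left
      simp only [dif_neg hk]
  · intro h h0
    have e : ∀ i : A, (if hk : ∃ i' : A, j i' = j i then F (hk.choose : ι) else 0) = F i := by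
      intro i
      have hk : ∃ i' : A, j i' = j i := ⟨i, rfl⟩
      rw [dif_pos hk]
      rw [j.injective hk.choose_spec]
    rw [← sum_coe_sort A (fun i => h (F i))]
    have e2 : ∑ i : A, h (F i) = ∑ k ∈ univ.image j,
        h (if hk : ∃ i' : A, j i' = k then F (hk.choose : ι) else 0) := by
      rw [sum_image (fun x _ y _ hxy => j.injective hxy)]
      exact sum_congr rfl fun i _ => by rw [e i]
    rw [e2]
    symm
    apply sum_subset (subset_univ _)
    intro k _ hk
    rw [dif_neg, h0]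
    rintro ⟨i, hi⟩
    exact hk (mem_image.2 ⟨i, mem_univ _, hi⟩)

/-- the dominating function -/
noncomputable def dom (m : ℤ) (t : ℕ) (x : ℤ) : ℝ :=
  if |x - m| ≤ 2 * (t : ℤ) ^ 8 then 1 else 1 / ((x - m : ℤ) : ℝ) ^ 2

lemma dom_nonneg (m : ℤ) (t : ℕ) (x : ℤ) : 0 ≤ dom m t x := by
  unfold dom
  split_ifs
  · norm_num
  · positivity

lemma dom_summable (m : ℤ) (t : ℕ) : Summable fun x => dom m t x ^ 2 := by
  have h1 : Summable fun x : ℤ => 1 / ((x - m : ℤ) : ℝ) ^ 4 :=
    summable_four.comp_injective (i := fun x : ℤ => x - m) (fun x y h => by simpa using h)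
  have h2 : Summable fun x : ℤ => if x ∈ Icc (m - 2 * (t : ℤ) ^ 8) (m + 2 * (t : ℤ) ^ 8)
      then (1:ℝ) else 0 := by
    apply summable_of_ne_finset_zero (s := Icc (m - 2 * (t : ℤ) ^ 8) (m + 2 * (t : ℤ) ^ 8))
    intro x hx
    rw [if_neg hx]
  refine Summable.of_nonneg_of_le (fun _ => sq_nonneg _) (fun x => ?_) (h1.add h2)
  unfold dom
  by_cases h : |x - m| ≤ 2 * (t : ℤ) ^ 8
  · rw [if_pos h, if_pos (by rw [mem_Icc]; rw [abs_le] at h; omega)]
    have : 0 ≤ 1 / ((x - m : ℤ) : ℝ) ^ 4 := by positivity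
    linarith
  · rw [if_neg h, if_neg (by rw [mem_Icc]; rw [abs_le] at h; omega)]
    rw [div_pow, one_pow, ← pow_mul, add_zero]

variable {V : ℤ → ℝ} {B : ℝ}

/-- approximation by finitely many eigenfunctions on a finite interval -/
lemma finite_approx (hV : ∀ n, |V n| ≤ B) {t0 : ℕ} (hG : ∀ t, t0 ≤ t → GoodAt V B t) (m : ℤ) :
    ∃ T : ℕ, ∀ t, T ≤ t → ∀ L : ℕ, |m| ≤ L →
      ∃ G : Fin (2 * (4 * t ^ 8 + 1)) → (ℤ → ℝ) × ℝ,
        (∀ k x, |(G k).1 x| ≤ dom m t x) ∧ (∀ k, |(G k).2| ≤ B + 2) ∧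
        (∀ k, ∀ x ∈ Icc (-(L : ℤ)) L, (G k).1 (x + 1) + (G k).1 (x - 1) + V x * (G k).1 x =
          (G k).2 * (G k).1 x) ∧
        ∀ X : Finset ℤ, ∑ x ∈ X, ((if x = m then 1 else 0) - ∑ k, (G k).1 m * (G k).1 x) ^ 2 ≤
          2 * (1 / 2) ^ t := by
  classical
  obtain ⟨T1, hT1⟩ := tail_bound hV hG m
  obtain ⟨T2, hT2⟩ := count_bound hV hG m
  obtain ⟨T3, hT3⟩ := rem_bound hV hG m
  refine ⟨max T1 (max T2 T3), fun t ht L hmL => ?_⟩
  have h1 := hT1 t ((le_max_left _ _).trans ht)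
  have h2 := hT2 t (((le_max_left _ _).trans (le_max_right _ _)).trans ht)
  have h3 := hT3 t (((le_max_right _ _).trans (le_max_right _ _)).trans ht)
  have hB : 0 ≤ B := (abs_nonneg _).trans (hV 0)
  obtain ⟨lam, φ, hF⟩ := exists_fam V L
  obtain ⟨G, hG1, hG2⟩ := exists_enum (big φ m t) (fun i => (φ i, lam i)) (h2 L lam φ hF)
  have hmI : m ∈ Icc (-(L : ℤ)) L := by
    rw [mem_Icc]; rw [abs_le] at hmL; exact hmL
  refine ⟨G, ?_, ?_, ?_, ?_⟩
  · intro k x
    rcases hG1 k with h0 | ⟨i, hi, hGi⟩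
    · rw [h0]; simpa using dom_nonneg m t x
    · rw [hGi]
      simp only
      unfold dom
      split_ifs with hx
      · exact (hF.eig i).le_one x
      · rw [mem_big] at hi
        exact h1 L (lam i) (φ i) (hF.eig i) hi x (not_le.1 hx)
  · intro k
    rcases hG1 k with h0 | ⟨i, hi, hGi⟩
    · rw [h0]; simp; linarith
    · rw [hGi]
      exact (hF.eig i).bound hV
  · intro k x hx
    rcases hG1 k with h0 | ⟨i, hi, hGi⟩
    · rw [h0]; simp
    · rw [hGi]
      exact (hF.eig i).eqn x hx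
  · intro X
    have hsum : ∀ x, ∑ k, (G k).1 m * (G k).1 x = ∑ i ∈ big φ m t, φ i m * φ i x := by
      intro x
      exact hG2 (fun z => z.1 m * z.1 x) (by simp)
    have hrem : ∀ x, ((if x = m then (1:ℝ) else 0) - ∑ k, (G k).1 m * (G k).1 x) =
        ∑ i, (if i ∈ big φ m t then 0 else φ i m) * φ i x := by
      intro x
      rw [hsum x]
      have hfull : (if x = m then (1:ℝ) else 0) = ∑ i, φ i m * φ i x := by
        by_cases hx : x ∈ Icc (-(L : ℤ)) L
        · rw [hF.comp m hmI x hx]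
          by_cases h : x = m
          · rw [if_pos h, if_pos h.symm]
          · rw [if_neg h, if_neg (Ne.symm h)]
        · rw [if_neg (by rintro rfl; exact hx hmI)]
          symm
          apply sum_eq_zero
          intro i _
          rw [(hF.eig i).supp x hx, mul_zero]
      rw [hfull, ← sum_sdiff (subset_univ (big φ m t)), add_sub_cancel_right,
        ← sum_sdiff (subset_univ (big φ m t))]
      have e1 : ∑ i ∈ big φ m t, (if i ∈ big φ m t then 0 else φ i m) * φ i x = 0 := by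
        apply sum_eq_zero
        intro i hi
        rw [if_pos hi, zero_mul]
      rw [e1, add_zero]
      refine sum_congr rfl fun i hi => ?_
      rw [if_neg (mem_sdiff.1 hi).2]
    have hle : ∑ x ∈ X, (∑ i, (if i ∈ big φ m t then 0 else φ i m) * φ i x) ^ 2 ≤
        ∑ x ∈ Icc (-(L : ℤ)) L, (∑ i, (if i ∈ big φ m t then 0 else φ i m) * φ i x) ^ 2 := by
      calc _ ≤ ∑ x ∈ X ∪ Icc (-(L : ℤ)) L,
            (∑ i, (if i ∈ big φ m t then 0 else φ i m) * φ i x) ^ 2 :=
            sum_le_sum_of_subset_of_nonneg subset_union_left fun _ _ _ => sq_nonneg _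
        _ = _ := by
            symm
            apply sum_subset subset_union_right
            intro x _ hx
            rw [sum_eq_zero fun i _ => by rw [(hF.eig i).supp x hx, mul_zero]]
            norm_num
    rw [sum_congr rfl fun x _ => by rw [hrem x]]
    refine hle.trans ?_
    rw [parseval hF.orth]
    refine le_trans (le_of_eq ?_) (h3 L lam φ hF)
    rw [← sum_sdiff (subset_univ (big φ m t))]
    have e1 : ∑ i ∈ big φ m t, (if i ∈ big φ m t then 0 else φ i m) ^ 2 = 0 := by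
      apply sum_eq_zero
      intro i hi
      rw [if_pos hi]; norm_num
    rw [e1, add_zero]
    have e2 : univ \ big φ m t = (big φ m t)ᶜ := rfl
    rw [e2]
    refine sum_congr rfl fun i hi => ?_
    rw [if_neg (mem_compl.1 hi)]

/-- approximation by finitely many eigenvectors on the whole line -/
lemma infinite_approx (hV : ∀ n, |V n| ≤ B) {t0 : ℕ} (hG : ∀ t, t0 ≤ t → GoodAt V B t) (m : ℤ) :
    ∃ T : ℕ, ∀ t, T ≤ t →
      ∃ G : Fin (2 * (4 * t ^ 8 + 1)) → (ℤ → ℝ) × ℝ,
        (∀ k x, |(G k).1 x| ≤ dom m t x) ∧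
        (∀ k, ∀ x, (G k).1 (x + 1) + (G k).1 (x - 1) + V x * (G k).1 x =
          (G k).2 * (G k).1 x) ∧
        ∀ X : Finset ℤ, ∑ x ∈ X, ((if x = m then 1 else 0) - ∑ k, (G k).1 m * (G k).1 x) ^ 2 ≤
          2 * (1 / 2) ^ t := by
  classical
  obtain ⟨T, hT⟩ := finite_approx hV hG m
  refine ⟨T, fun t ht => ?_⟩
  set K := 2 * (4 * t ^ 8 + 1) with hK
  have hB : 0 ≤ B := (abs_nonneg _).trans (hV 0)
  have hex : ∀ L : ℕ, ∃ G : Fin K → (ℤ → ℝ) × ℝ, |m| ≤ L →
      (∀ k x, |(G k).1 x| ≤ dom m t x) ∧ (∀ k, |(G k).2| ≤ B + 2) ∧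
        (∀ k, ∀ x ∈ Icc (-(L : ℤ)) L, (G k).1 (x + 1) + (G k).1 (x - 1) + V x * (G k).1 x =
          (G k).2 * (G k).1 x) ∧
        ∀ X : Finset ℤ, ∑ x ∈ X, ((if x = m then 1 else 0) - ∑ k, (G k).1 m * (G k).1 x) ^ 2 ≤
          2 * (1 / 2) ^ t := by
    intro L
    by_cases hL : |m| ≤ L
    · obtain ⟨G, hG⟩ := hT t ht L hL
      exact ⟨G, fun _ => hG⟩
    · exact ⟨0, fun h => absurd h hL⟩
  choose G hGL using hex
  set C : Set (Fin K → (ℤ → ℝ) × ℝ) := Set.pi Set.univ fun _ =>
    (Set.pi Set.univ fun x => Set.Icc (-(dom m t x)) (dom m t x)) ×ˢ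
      Set.Icc (-(B + 2)) (B + 2) with hC
  have hCc : IsCompact C := isCompact_univ_pi fun _ =>
    (isCompact_univ_pi fun _ => isCompact_Icc).prod isCompact_Icc
  have hev : ∀ᶠ L : ℕ in (hyperfilter ℕ : Filter ℕ), |m| ≤ L := by
    apply Filter.Eventually.filter_mono Nat.hyperfilter_le_atTop
    filter_upwards [eventually_ge_atTop m.natAbs] with L hL
    rw [← Int.natCast_natAbs]
    exact_mod_cast hL
  have hmem : ∀ᶠ L : ℕ in (hyperfilter ℕ : Filter ℕ), G L ∈ C := by
    filter_upwards [hev] with L hL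
    obtain ⟨a1, a2, _, _⟩ := hGL L hL
    intro k _
    refine ⟨fun x _ => ?_, ?_⟩
    · exact abs_le.1 (a1 k x)
    · exact abs_le.1 (a2 k)
  obtain ⟨G0, hG0, hlim⟩ := hCc.ultrafilter_le_nhds ((hyperfilter ℕ).map G)
    (by rw [le_principal_iff]; exact hmem)
  have htend : Tendsto G (hyperfilter ℕ : Filter ℕ) (nhds G0) := hlim
  have ht1 : ∀ k x, Tendsto (fun L => (G L k).1 x) (hyperfilter ℕ : Filter ℕ)
      (nhds ((G0 k).1 x)) := by
    intro k x
    have hc : Continuous fun g : Fin K → (ℤ → ℝ) × ℝ => (g k).1 x :=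
      (continuous_apply x).comp (continuous_fst.comp (continuous_apply k))
    exact (hc.tendsto G0).comp htend
  have ht2 : ∀ k, Tendsto (fun L => (G L k).2) (hyperfilter ℕ : Filter ℕ)
      (nhds ((G0 k).2)) := by
    intro k
    have hc : Continuous fun g : Fin K → (ℤ → ℝ) × ℝ => (g k).2 :=
      (continuous_snd.comp (continuous_apply k))
    exact (hc.tendsto G0).comp htend
  refine ⟨G0, ?_, ?_, ?_⟩
  · intro k x
    exact abs_le.2 ((hG0 k (Set.mem_univ _)).1 x (Set.mem_univ _))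
  · intro k x
    have e1 := ((ht1 k (x + 1)).add (ht1 k (x - 1))).add ((ht1 k x).const_mul (V x))
    have e2 := (ht2 k).mul (ht1 k x)
    refine tendsto_nhds_unique_of_eventuallyEq e1 e2 ?_
    have hev2 : ∀ᶠ L : ℕ in (hyperfilter ℕ : Filter ℕ), |x| ≤ L := by
      apply Filter.Eventually.filter_mono Nat.hyperfilter_le_atTop
      filter_upwards [eventually_ge_atTop x.natAbs] with L hL
      rw [← Int.natCast_natAbs]
      exact_mod_cast hL
    filter_upwards [hev, hev2] with L hL hL2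
    obtain ⟨_, _, a3, _⟩ := hGL L hL
    exact a3 k x (by rw [mem_Icc]; exact abs_le.1 hL2)
  · intro X
    have e1 : Tendsto (fun L => ∑ x ∈ X, ((if x = m then (1:ℝ) else 0) -
        ∑ k, (G L k).1 m * (G L k).1 x) ^ 2) (hyperfilter ℕ : Filter ℕ)
        (nhds (∑ x ∈ X, ((if x = m then 1 else 0) - ∑ k, (G0 k).1 m * (G0 k).1 x) ^ 2)) := by
      apply tendsto_finsetSum
      intro x _
      apply Tendsto.pow
      apply Tendsto.const_sub
      apply tendsto_finsetSum
      intro k _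
      exact (ht1 k m).mul (ht1 k x)
    refine le_of_tendsto e1 ?_
    filter_upwards [hev] with L hL
    obtain ⟨_, _, _, a4⟩ := hGL L hL
    exact a4 X

/-- the set of square summable eigenvectors -/
def eigSet (V : ℤ → ℝ) : Set (lp (fun _ : ℤ => ℂ) 2) :=
  {ψ | ∃ E : ℝ, ∀ n : ℤ, ψ (n + 1) + ψ (n - 1) + (V n : ℂ) * ψ n = (E : ℂ) * ψ n}

/-- Completeness of the eigenvectors. -/
theorem complete (hV : ∀ n, |V n| ≤ B) {t0 : ℕ} (hG : ∀ t, t0 ≤ t → GoodAt V B t) :
    (Submodule.span ℂ (eigSet V)).topologicalClosure = ⊤ := by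
  classical
  have hsingle : ∀ m : ℤ, lp.single (E := fun _ : ℤ => ℂ) 2 m (1 : ℂ) ∈
      (Submodule.span ℂ (eigSet V)).topologicalClosure := by
    intro m
    rw [← SetLike.mem_coe, Submodule.topologicalClosure_coe, Metric.mem_closure_iff]
    intro ε hε
    obtain ⟨T, hT⟩ := infinite_approx hV hG m
    have hlim : Tendsto (fun t : ℕ => (2:ℝ) * (1 / 2) ^ t) atTop (nhds (2 * 0)) :=
      (tendsto_pow_atTop_nhds_zero_of_lt_one (by norm_num) (by norm_num)).const_mul 2
    rw [mul_zero] at hlim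
    obtain ⟨t, ht1, ht2⟩ := ((eventually_ge_atTop T).and
      (hlim.eventually (gt_mem_nhds (show (0:ℝ) < (ε / 2) ^ 2 by positivity)))).exists
    obtain ⟨G, g1, g2, g3⟩ := hT t ht1
    have hmem : ∀ k, Memℓp (fun x => (((G k).1 x : ℝ) : ℂ)) 2 := by
      intro k
      apply memℓp_gen
      refine Summable.of_nonneg_of_le (fun _ => by positivity) (fun x => ?_) (dom_summable m t)
      simp only [ENNReal.toReal_ofNat, Complex.norm_real, Real.norm_eq_abs]
      rw [Real.rpow_two]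
      exact pow_le_pow_left₀ (abs_nonneg _) (g1 k x) 2
    set ψ : Fin (2 * (4 * t ^ 8 + 1)) → lp (fun _ : ℤ => ℂ) 2 := fun k => ⟨_, hmem k⟩ with hψ
    have hψa : ∀ k x, ψ k x = (((G k).1 x : ℝ) : ℂ) := fun k x => rfl
    refine ⟨∑ k, (((G k).1 m : ℝ) : ℂ) • ψ k, ?_, ?_⟩
    · apply Submodule.sum_mem
      intro k _
      apply Submodule.smul_mem
      apply Submodule.subset_span
      refine ⟨(G k).2, fun n => ?_⟩
      rw [hψa, hψa, hψa]
      have := g2 k n
      rw [← Complex.ofReal_add, ← Complex.ofReal_mul, ← Complex.ofReal_add, ← Complex.ofReal_mul,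
        this]
    · rw [dist_eq_norm]
      have hle : ‖lp.single (E := fun _ : ℤ => ℂ) 2 m (1 : ℂ) -
          ∑ k, (((G k).1 m : ℝ) : ℂ) • ψ k‖ ≤ ε / 2 := by
        apply lp.norm_le_of_forall_sum_le (by simp) (by positivity)
        intro X
        have e : ∀ x, ‖(lp.single (E := fun _ : ℤ => ℂ) 2 m (1 : ℂ) -
            ∑ k, (((G k).1 m : ℝ) : ℂ) • ψ k : lp (fun _ : ℤ => ℂ) 2) x‖ ^ (2:ENNReal).toReal =
            ((if x = m then (1:ℝ) else 0) - ∑ k, (G k).1 m * (G k).1 x) ^ 2 := by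
          intro x
          have e1 : (lp.single (E := fun _ : ℤ => ℂ) 2 m (1 : ℂ) -
            ∑ k, (((G k).1 m : ℝ) : ℂ) • ψ k : lp (fun _ : ℤ => ℂ) 2) x =
            ((((if x = m then (1:ℝ) else 0) - ∑ k, (G k).1 m * (G k).1 x : ℝ)) : ℂ) := by
            rw [lp.coeFn_sub, Pi.sub_apply, lp.coeFn_sum, Finset.sum_apply, lp.single_apply]
            simp only [lp.coeFn_smul, Pi.smul_apply, smul_eq_mul, hψa]
            push_cast
            congr 1
            by_cases h : x = m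
            · rw [h]; simp
            · rw [Pi.single_eq_of_ne h, if_neg h]; simp
          rw [e1, Complex.norm_real, Real.norm_eq_abs, ENNReal.toReal_ofNat, Real.rpow_two,
            sq_abs]
        rw [sum_congr rfl fun x _ => e x]
        refine (g3 X).trans ?_
        rw [ENNReal.toReal_ofNat, Real.rpow_two]
        exact ht2.le
      linarith
  rw [eq_top_iff]
  intro f _
  have hs := lp.hasSum_single (E := fun _ : ℤ => ℂ) (p := 2) (by norm_num) f
  have hclosed : IsClosed ((Submodule.span ℂ (eigSet V)).topologicalClosure :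
      Set (lp (fun _ : ℤ => ℂ) 2)) := Submodule.isClosed_topologicalClosure _
  refine hclosed.mem_of_tendsto hs (Eventually.of_forall fun s => ?_)
  apply Submodule.sum_mem
  intro i _
  have e : lp.single (E := fun _ : ℤ => ℂ) 2 i (f i) =
      (f i) • lp.single (E := fun _ : ℤ => ℂ) 2 i (1 : ℂ) := by
    rw [← lp.single_smul, smul_eq_mul, mul_one]
  rw [e]
  exact Submodule.smul_mem _ _ (hsingle i)

end Pool.Agent.Helper76x.LP
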