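import Mathlib

/-!
Resampling finitely many coordinates of an infinite product of uniform variables.
-/

set_option autoImplicit false

open MeasureTheory Set unitInterval
open scoped ENNReal

namespace Pool.Agent.Helper76x.LP

variable {ι : Type*}

/-- the infinite product of uniform laws -/
noncomputable def PP (ι : Type*) : Measure (ι → I) := Measure.infinitePi fun _ => (volume : Measure I)

instance : IsProbabilityMeasure (PP ι) := by unfold PP; infer_instance

lemma extend_meas {n : ℕ} {e : Fin n → ι} (he : Function.Injective e) :
    Measurable fun z : (ι → I) × (Fin n → I) => Function.extend e z.2 z.1 := by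
  rw [measurable_pi_iff]
  intro i
  by_cases h : ∃ k, e k = i
  · obtain ⟨k, rfl⟩ := h
    simp only [he.extend_apply]
    exact (measurable_pi_apply k).comp measurable_snd
  · have : ∀ z : (ι → I) × (Fin n → I), Function.extend e z.2 z.1 i = z.1 i := fun z =>
      Function.extend_apply' _ _ _ h
    simp only [this]
    exact (measurable_pi_apply i).comp measurable_fst

theorem map_extend {n : ℕ} {e : Fin n → ι} (he : Function.Injective e) :
    ((PP ι).prod (Measure.pi (fun _ : Fin n => (volume : Measure I)))).map
      (fun z => Function.extend e z.2 z.1) = PP ι := by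
  classical
  unfold PP
  apply Measure.eq_infinitePi
  intro s t ht
  rw [Measure.map_apply (extend_meas he) (MeasurableSet.pi s.countable_toSet fun i _ => ht i)]
  have hpre : (fun z : (ι → I) × (Fin n → I) => Function.extend e z.2 z.1) ⁻¹' (Set.pi s t) =
      (Set.pi (s.filter fun i => ¬ ∃ k, e k = i) t) ×ˢ
        (Set.pi univ fun k => if e k ∈ s then t (e k) else univ) := by
    ext ⟨x, y⟩
    simp only [mem_preimage, mem_prod, Set.mem_pi, Finset.coe_filter, mem_ofPred_eq, mem_univ,
      true_implies, Finset.mem_coe]
    constructor
    · intro h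
      refine ⟨fun i hi => ?_, fun k => ?_⟩
      · have := h i hi.1
        rwa [Function.extend_apply' _ _ _ hi.2] at this
      · by_cases hk : e k ∈ s
        · rw [if_pos hk]
          have := h (e k) hk
          rwa [he.extend_apply] at this
        · rw [if_neg hk]; exact mem_univ _
    · rintro ⟨h1, h2⟩ i hi
      by_cases hk : ∃ k, e k = i
      · obtain ⟨k, rfl⟩ := hk
        rw [he.extend_apply]
        have := h2 k
        rwa [if_pos hi] at this
      · rw [Function.extend_apply' _ _ _ hk]
        exact h1 i ⟨hi, hk⟩
  rw [hpre, Measure.prod_prod, Measure.infinitePi_pi _ fun i _ => ht i, Measure.pi_pi]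
  have h1 : ∏ k : Fin n, (volume : Measure I) (if e k ∈ s then t (e k) else univ) =
      ∏ i ∈ s.filter fun i => ∃ k, e k = i, (volume : Measure I) (t i) := by
    have h2 : (s.filter fun i => ∃ k, e k = i) = (Finset.univ.filter fun k => e k ∈ s).image e := by
      ext i
      simp only [Finset.mem_filter, Finset.mem_image, Finset.mem_univ, true_and]
      constructor
      · rintro ⟨hi, k, rfl⟩; exact ⟨k, hi, rfl⟩
      · rintro ⟨k, hk, rfl⟩; exact ⟨hk, k, rfl⟩
    rw [h2, Finset.prod_image (fun x _ y _ h => he h), Finset.prod_filter]
    refine Finset.prod_congr rfl fun k _ => ?_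
    split_ifs
    · rfl
    · exact measure_univ
  rw [h1, mul_comm, Finset.prod_filter_mul_prod_filter_not]

/-- conditioning on all but finitely many coordinates -/
theorem PP_apply {n : ℕ} {e : Fin n → ι} (he : Function.Injective e) {B : Set (ι → I)}
    (hB : MeasurableSet B) :
    PP ι B = ∫⁻ x, (Measure.pi (fun _ : Fin n => (volume : Measure I)))
      {y | Function.extend e y x ∈ B} ∂(PP ι) := by
  conv_lhs => rw [← map_extend he]
  rw [Measure.map_apply (extend_meas he) hB, Measure.prod_apply (extend_meas he hB)]
  rfl

/-- an event and an event with small conditional probability -/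
theorem PP_inter_le {n : ℕ} {e : Fin n → ι} (he : Function.Injective e) {A B : Set (ι → I)}
    (hA : MeasurableSet A) (hB : MeasurableSet B) {w : ℝ≥0∞}
    (hAe : ∀ x y, Function.extend e y x ∈ A → x ∈ A)
    (hBw : ∀ x, (Measure.pi (fun _ : Fin n => (volume : Measure I)))
      {y | Function.extend e y x ∈ B} ≤ w) : PP ι (A ∩ B) ≤ w * PP ι A := by
  classical
  rw [PP_apply he (hA.inter hB)]
  have h : ∀ x, (Measure.pi (fun _ : Fin n => (volume : Measure I)))
      {y | Function.extend e y x ∈ A ∩ B} ≤ A.indicator (fun _ => w) x := by
    intro x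
    by_cases hx : x ∈ A
    · rw [indicator_of_mem hx]
      refine le_trans (measure_mono ?_) (hBw x)
      intro y hy
      exact hy.2
    · rw [indicator_of_notMem hx]
      have : {y : Fin n → I | Function.extend e y x ∈ A ∩ B} = ∅ := by
        ext y
        simp only [mem_ofPred_eq, mem_empty_iff_false, iff_false]
        intro hy
        exact hx (hAe x y hy.1)
      rw [this, measure_empty]
  refine (lintegral_mono h).trans (le_of_eq ?_)
  rw [lintegral_indicator hA, lintegral_const, Measure.restrict_apply_univ]

theorem PP_le {n : ℕ} {e : Fin n → ι} (he : Function.Injective e) {B : Set (ι → I)}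
    (hB : MeasurableSet B) {w : ℝ≥0∞}
    (hBw : ∀ x, (Measure.pi (fun _ : Fin n => (volume : Measure I)))
      {y | Function.extend e y x ∈ B} ≤ w) : PP ι B ≤ w := by
  have h := PP_inter_le he MeasurableSet.univ hB (fun _ _ _ => mem_univ _) hBw
  rwa [univ_inter, measure_univ, mul_one] at h

end Pool.Agent.Helper76x.LP
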