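import Mathlib
import Pool.Agent.Helper76x.LP.Decay
import Pool.Agent.Helper76x.LP.Contract

/-!
Growth of the solutions at a fixed energy for a potential with independent uniform parts.
-/

set_option autoImplicit false

open MeasureTheory Set unitInterval
open scoped ENNReal

namespace Pool.Agent.Helper76x.LP

/-- extension of a finite sequence by zero -/
noncomputable def extI {n : ℕ} (y : Fin n → I) (j : ℕ) : ℝ := if h : j < n then (y ⟨j, h⟩ : ℝ) else 0

lemma extI_cons_zero {n : ℕ} (s : I) (y : Fin n → I) :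
    extI (Fin.cons s y : Fin (n + 1) → I) 0 = s := by
  unfold extI
  rw [dif_pos (Nat.succ_pos n)]
  rfl

lemma extI_cons_succ {n : ℕ} (s : I) (y : Fin n → I) (j : ℕ) :
    extI (Fin.cons s y : Fin (n + 1) → I) (j + 1) = extI y j := by
  unfold extI
  by_cases h : j < n
  · rw [dif_pos h, dif_pos (Nat.succ_lt_succ h)]
    rfl
  · rw [dif_neg h, dif_neg (fun h' => h (Nat.lt_of_succ_lt_succ h'))]

lemma tr_front (w : ℕ → ℝ) (p : ℝ × ℝ) (k : ℕ) :
    tr w p (k + 1) = tr (fun j => w (j + 1)) (w 0 * p.1 - p.2, p.1) k := by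
  induction k with
  | zero => rfl
  | succ k ih => rw [tr, ih]; rfl

lemma tr_congr {w w' : ℕ → ℝ} (p : ℝ × ℝ) {k : ℕ} (h : ∀ j < k, w j = w' j) :
    tr w p k = tr w' p k := by
  induction k with
  | zero => rfl
  | succ k ih =>
    rw [tr, tr, ih fun j hj => h j (Nat.lt_succ_of_lt hj), h k (Nat.lt_succ_self k)]

lemma tr_smul (w : ℕ → ℝ) (c : ℝ) (p : ℝ × ℝ) (k : ℕ) :
    tr w (c * p.1, c * p.2) k = (c * (tr w p k).1, c * (tr w p k).2) := by
  induction k with
  | zero => rfl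
  | succ k ih =>
    rw [tr, tr, ih]
    ext
    · simp only; ring
    · rfl

/-- inverse length of a pair -/
noncomputable def inl (p : ℝ × ℝ) : ℝ≥0∞ := (ENNReal.ofReal (√(nsq p)))⁻¹

lemma inl_smul {c : ℝ} (hc : c ≠ 0) (p : ℝ × ℝ) :
    inl (c * p.1, c * p.2) = ENNReal.ofReal |c|⁻¹ * inl p := by
  unfold inl nsq
  have e : (c * p.1) ^ 2 + (c * p.2) ^ 2 = c ^ 2 * (p.1 ^ 2 + p.2 ^ 2) := by ring
  simp only
  rw [e, Real.sqrt_mul (sq_nonneg c), Real.sqrt_sq_eq_abs, ENNReal.ofReal_mul (abs_nonneg _),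
    ENNReal.mul_inv, ENNReal.ofReal_inv_of_pos (abs_pos.2 hc)]
  · left; exact (ENNReal.ofReal_pos.2 (abs_pos.2 hc)).ne'
  · left; exact ENNReal.ofReal_ne_top

/-- expected inverse length -/
noncomputable def Z (n : ℕ) (b : ℕ → ℝ) (ε : ℝ) (p : ℝ × ℝ) : ℝ≥0∞ :=
  ∫⁻ y : Fin n → I, inl (tr (fun j => b j - ε * extI y j) p n)
    ∂(Measure.pi fun _ => (volume : Measure I))

lemma extI_cont {n : ℕ} (j : ℕ) : Continuous fun y : Fin n → I => extI y j := by
  unfold extI
  by_cases h : j < n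
  · simp only [dif_pos h]
    exact continuous_subtype_val.comp (continuous_apply _)
  · simp only [dif_neg h]
    exact continuous_const

lemma tr_cont {X : Type*} [TopologicalSpace X] {w : X → ℕ → ℝ} (hw : ∀ j, Continuous fun x => w x j)
    {p : X → ℝ × ℝ} (hp : Continuous p) (k : ℕ) : Continuous fun x => tr (w x) (p x) k := by
  induction k with
  | zero => exact hp
  | succ k ih =>
    simp only [tr]
    exact (((hw k).mul (continuous_fst.comp ih)).sub (continuous_snd.comp ih)).prodMk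
      (continuous_fst.comp ih)

lemma nsq_cont : Continuous nsq := by
  unfold nsq
  fun_prop

lemma inl_meas : Measurable inl := by
  unfold inl
  exact (ENNReal.measurable_ofReal.comp (nsq_cont.measurable.sqrt)).inv

lemma lint_I (g : ℝ → ℝ≥0∞) : ∫⁻ s : I, g s = ∫⁻ s in Icc (0:ℝ) 1, g s :=
  unitInterval.measurePreserving_coe.lintegral_comp_emb unitInterval.measurableEmbedding_coe g

lemma Z_succ (n : ℕ) (b : ℕ → ℝ) (ε : ℝ) (p : ℝ × ℝ) :
    Z (n + 1) b ε p = ∫⁻ s in Icc (0:ℝ) 1,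
      Z n (fun j => b (j + 1)) ε ((b 0 - ε * s) * p.1 - p.2, p.1) := by
  rw [← lint_I]
  unfold Z
  have h := (measurePreserving_piFinSuccAbove (fun _ : Fin (n + 1) => (volume : Measure I)) 0).symm
  rw [← h.lintegral_comp_emb (MeasurableEquiv.measurableEmbedding _)]
  rw [lintegral_prod]
  · refine lintegral_congr fun s => lintegral_congr fun y => ?_
    have e : (MeasurableEquiv.piFinSuccAbove (fun _ : Fin (n + 1) => I) 0).symm (s, y) =
        (Fin.cons s y : Fin (n + 1) → I) := by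
      rw [MeasurableEquiv.piFinSuccAbove_symm_apply]
      simp [Fin.insertNthEquiv]
    rw [e, tr_front]
    simp only [extI_cons_zero, extI_cons_succ]
  · apply Measurable.aemeasurable
    have h1 : Measurable fun y : Fin (n + 1) → I =>
        inl (tr (fun j => b j - ε * extI y j) p (n + 1)) := by
      apply inl_meas.comp
      apply Continuous.measurable
      apply tr_cont _ continuous_const
      intro j
      exact continuous_const.sub (continuous_const.mul (extI_cont j))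
    exact h1.comp (MeasurableEquiv.measurable _)

lemma Z_smul (n : ℕ) (b : ℕ → ℝ) (ε : ℝ) {c : ℝ} (hc : c ≠ 0) (p : ℝ × ℝ) :
    Z n b ε (c * p.1, c * p.2) = ENNReal.ofReal |c|⁻¹ * Z n b ε p := by
  unfold Z
  rw [← lintegral_const_mul' _ _ ENNReal.ofReal_ne_top]
  refine lintegral_congr fun y => ?_
  rw [tr_smul, inl_smul hc]

lemma Z_meas (n : ℕ) (b : ℕ → ℝ) (ε : ℝ) : Measurable fun x : ℝ => Z n b ε (x, 1) := by
  unfold Z
  have : Measurable fun q : ℝ × (Fin n → I) =>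
      inl (tr (fun j => b j - ε * extI q.2 j) (q.1, 1) n) := by
    apply inl_meas.comp
    apply Continuous.measurable
    apply tr_cont (w := fun q : ℝ × (Fin n → I) => fun j => b j - ε * extI q.2 j)
    · intro j
      exact continuous_const.sub (continuous_const.mul ((extI_cont j).comp continuous_snd))
    · exact continuous_fst.prodMk continuous_const
  exact this.lintegral_prod_right'

/-- the function of the slope -/
noncomputable def gZ (n : ℕ) (b : ℕ → ℝ) (ε : ℝ) (x : ℝ) : ℝ≥0∞ := Z n b ε (x, 1)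

lemma gZ_succ (n : ℕ) (b : ℕ → ℝ) (ε : ℝ) {x : ℝ} (hx : x ≠ 0) :
    gZ (n + 1) b ε x = mob (b 0) (avg ε (gZ n (fun j => b (j + 1)) ε)) x := by
  unfold gZ mob avg
  rw [Z_succ, ← lintegral_const_mul' _ _ ENNReal.ofReal_ne_top]
  refine lintegral_congr fun s => ?_
  rw [← Z_smul n _ ε hx]
  congr 2
  · field_simp
    ring
  · simp

lemma mass_congr {F G : ℝ → ℝ≥0∞} (h : ∀ x, x ≠ 0 → F x = G x) : mass F = mass G := by
  unfold mass
  apply lintegral_congr_ae
  have : ∀ᵐ x : ℝ, x ≠ 0 := by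
    rw [ae_iff]
    simp
  filter_upwards [this] with x hx
  rw [h x hx]

lemma avg_congr {F G : ℝ → ℝ≥0∞} {ε : ℝ} (hε : ε ≠ 0) (h : ∀ x, x ≠ 0 → F x = G x) (x : ℝ) :
    avg ε F x = avg ε G x := by
  unfold avg
  apply lintegral_congr_ae
  apply ae_restrict_of_ae
  have : ∀ᵐ s : ℝ, s ≠ x / ε := by
    rw [ae_iff]
    simp
  filter_upwards [this] with s hs
  apply h
  intro h0
  apply hs
  rw [eq_div_iff hε]
  linarith

lemma mass_avg_le {F : ℝ → ℝ≥0∞} (hF : Measurable F) (ε : ℝ) : mass (avg ε F) ≤ mass F :=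
  le_self_add.trans (avg_defect hF ε)

lemma mass_step (n : ℕ) (b : ℕ → ℝ) {ε : ℝ} (h0 : 0 < ε) (h1 : ε ≤ 1) {M : ℕ} (hM : 8 ≤ M * ε) :
    (140 * (M : ℝ≥0∞) ^ 2 + 1) * mass (gZ (n + 2) b ε) ≤
      (140 * (M : ℝ≥0∞) ^ 2 + 2⁻¹) * mass (gZ n (fun j => b (j + 2)) ε) := by
  have e1 : mass (gZ (n + 2) b ε) = mass (avg ε (gZ (n + 1) (fun j => b (j + 1)) ε)) := by
    rw [mass_congr fun x hx => gZ_succ (n + 1) b ε hx, mob_mass]
  have e2 : avg ε (gZ (n + 1) (fun j => b (j + 1)) ε) =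
      avg ε (mob (b 1) (avg ε (gZ n (fun j => b (j + 2)) ε))) := by
    funext x
    apply avg_congr h0.ne'
    intro x hx
    rw [gZ_succ n _ ε hx]
  rw [e1, e2]
  exact contract (Z_meas n _ ε) h0 h1 hM (b 1)

lemma mass_zero (b : ℕ → ℝ) (ε : ℝ) : mass (gZ 0 b ε) = ENNReal.ofReal Real.pi := by
  have e : ∀ x, gZ 0 b ε x ^ 2 = ENNReal.ofReal ((1 + x ^ 2)⁻¹) := by
    intro x
    unfold gZ Z
    simp only [tr]
    rw [lintegral_const, measure_univ, mul_one]
    unfold inl nsq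
    have hpos : 0 < x ^ 2 + 1 ^ 2 := by positivity
    rw [← ENNReal.ofReal_inv_of_pos (Real.sqrt_pos.2 hpos), ← ENNReal.ofReal_pow (by positivity),
      inv_pow, Real.sq_sqrt hpos.le]
    congr 2
    ring
  unfold mass
  simp_rw [e]
  rw [← ofReal_integral_eq_lintegral_ofReal integrable_inv_one_add_sq
    (Filter.Eventually.of_forall fun x => by positivity), integral_univ_inv_one_add_sq]

/-- the contraction factor per two steps -/
noncomputable def fac (M : ℕ) : ℝ := (140 * (M : ℝ) ^ 2 + 1 / 2) / (140 * (M : ℝ) ^ 2 + 1)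

lemma mass_step' (n : ℕ) (b : ℕ → ℝ) {ε : ℝ} (h0 : 0 < ε) (h1 : ε ≤ 1) {M : ℕ}
    (hM : 8 ≤ M * ε) :
    mass (gZ (n + 2) b ε) ≤ ENNReal.ofReal (fac M) * mass (gZ n (fun j => b (j + 2)) ε) := by
  have h := mass_step n b h0 h1 hM
  have hpos : (0:ℝ) < 140 * (M : ℝ) ^ 2 + 1 := by positivity
  have e1 : (140 * (M : ℝ≥0∞) ^ 2 + 1) = ENNReal.ofReal (140 * (M : ℝ) ^ 2 + 1) := by
    rw [ENNReal.ofReal_add (by positivity) zero_le_one, ENNReal.ofReal_mul (by norm_num),
      ENNReal.ofReal_pow (by positivity), ENNReal.ofReal_natCast]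
    simp
  have e2 : (140 * (M : ℝ≥0∞) ^ 2 + 2⁻¹) = ENNReal.ofReal (140 * (M : ℝ) ^ 2 + 1 / 2) := by
    rw [ENNReal.ofReal_add (by positivity) (by norm_num), ENNReal.ofReal_mul (by norm_num),
      ENNReal.ofReal_pow (by positivity), ENNReal.ofReal_natCast,
      ENNReal.ofReal_div_of_pos (by norm_num)]
    simp
  rw [e1, e2] at h
  unfold fac
  rw [ENNReal.ofReal_div_of_pos hpos, ENNReal.div_eq_inv_mul, mul_assoc]
  rw [← ENNReal.mul_le_iff_le_inv (ENNReal.ofReal_pos.2 hpos).ne' ENNReal.ofReal_ne_top]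
  exact h

lemma mass_iter (k : ℕ) (b : ℕ → ℝ) {ε : ℝ} (h0 : 0 < ε) (h1 : ε ≤ 1) {M : ℕ}
    (hM : 8 ≤ M * ε) :
    mass (gZ (2 * k) b ε) ≤ ENNReal.ofReal (fac M) ^ k * ENNReal.ofReal Real.pi := by
  induction k generalizing b with
  | zero => simp [mass_zero]
  | succ k ih =>
    have e : 2 * (k + 1) = 2 * k + 2 := by ring
    rw [e]
    refine (mass_step' _ b h0 h1 hM).trans ?_
    calc ENNReal.ofReal (fac M) * mass (gZ (2 * k) (fun j => b (j + 2)) ε)
        ≤ ENNReal.ofReal (fac M) * (ENNReal.ofReal (fac M) ^ k * ENNReal.ofReal Real.pi) := by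
          gcongr
          exact ih _
      _ = _ := by rw [pow_succ]; ring

lemma mass_bound (n : ℕ) (b : ℕ → ℝ) {ε : ℝ} (h0 : 0 < ε) (h1 : ε ≤ 1) {M : ℕ}
    (hM : 8 ≤ M * ε) :
    mass (gZ n b ε) ≤ ENNReal.ofReal (fac M) ^ (n / 2) * ENNReal.ofReal Real.pi := by
  rcases Nat.even_or_odd' n with ⟨k, hk | hk⟩
  · subst hk
    rw [Nat.mul_div_cancel_left _ (by norm_num)]
    exact mass_iter k b h0 h1 hM
  · subst hk
    have e : (2 * k + 1) / 2 = k := by omega
    rw [e, mass_congr fun x hx => gZ_succ (2 * k) b ε hx, mob_mass]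
    exact (mass_avg_le (Z_meas _ _ ε) ε).trans (mass_iter k _ h0 h1 hM)

lemma avg_sq_le {F : ℝ → ℝ≥0∞} (hF : Measurable F) {ε : ℝ} (h0 : 0 < ε) (x : ℝ) :
    avg ε F x ^ 2 ≤ ENNReal.ofReal ε⁻¹ * mass F := by
  unfold avg
  have hg : Measurable fun s => F (x - ε * s) := hF.comp (by fun_prop)
  refine (sq_lint _ hg.aemeasurable).trans ?_
  rw [Measure.restrict_apply_univ, Real.volume_Icc]
  simp only [sub_zero, ENNReal.ofReal_one, mul_one]
  refine (setLIntegral_le_lintegral _ _).trans (le_of_eq ?_)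
  have h1 : ∫⁻ s, F (x - ε * s) ^ 2 = ENNReal.ofReal |ε⁻¹| * ∫⁻ z, F (x - z) ^ 2 := by
    rw [← smul_eq_mul, ← lintegral_smul_measure, ← Real.map_volume_mul_left h0.ne',
      lintegral_map _ (by fun_prop)]
    exact (hF.comp (by fun_prop)).pow_const 2
  rw [h1, abs_of_pos (inv_pos.2 h0)]
  congr 1
  exact lintegral_sub_left_eq_self (fun z => F z ^ 2) x

/-- The probability of a small transfer. -/
theorem small_prob (n : ℕ) (b : ℕ → ℝ) {ε : ℝ} (h0 : 0 < ε) (h1 : ε ≤ 1) {M : ℕ}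
    (hM : 8 ≤ M * ε) {R : ℝ} (hR : 0 < R) :
    (Measure.pi (fun _ : Fin (n + 1) => (volume : Measure I)))
      {y | ¬ R ^ 2 ≤ nsq (tr (fun j => b j - ε * extI y j) (1, 0) (n + 1))} ^ 2 ≤
      ENNReal.ofReal (R ^ 2 * ε⁻¹ * fac M ^ (n / 2) * Real.pi) := by
  have hfac : 0 ≤ fac M := by unfold fac; positivity
  have hZ : Z (n + 1) b ε (1, 0) = avg ε (gZ n (fun j => b (j + 1)) ε) (b 0) := by
    rw [Z_succ]
    unfold avg gZ
    refine lintegral_congr fun s => ?_
    congr 2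
    simp
  have hZ2 : Z (n + 1) b ε (1, 0) ^ 2 ≤
      ENNReal.ofReal ε⁻¹ * (ENNReal.ofReal (fac M) ^ (n / 2) * ENNReal.ofReal Real.pi) := by
    rw [hZ]
    refine (avg_sq_le (Z_meas n _ ε) h0 _).trans ?_
    gcongr
    exact mass_bound n _ h0 h1 hM
  have hm : Measurable fun y : Fin (n + 1) → I =>
      inl (tr (fun j => b j - ε * extI y j) (1, 0) (n + 1)) := by
    apply inl_meas.comp
    apply Continuous.measurable
    apply tr_cont _ continuous_const
    intro j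
    exact continuous_const.sub (continuous_const.mul (extI_cont j))
  have hmark := mul_meas_ge_le_lintegral (μ := Measure.pi (fun _ : Fin (n + 1) =>
    (volume : Measure I))) hm ((ENNReal.ofReal R)⁻¹)
  have hsub : {y : Fin (n + 1) → I | ¬ R ^ 2 ≤
      nsq (tr (fun j => b j - ε * extI y j) (1, 0) (n + 1))} ⊆
      {y | (ENNReal.ofReal R)⁻¹ ≤ inl (tr (fun j => b j - ε * extI y j) (1, 0) (n + 1))} := by
    intro y hy
    simp only [mem_ofPred_eq, not_le] at hy ⊢
    unfold inl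
    rw [ENNReal.inv_le_inv]
    apply ENNReal.ofReal_le_ofReal
    rw [← Real.sqrt_sq hR.le]
    exact Real.sqrt_le_sqrt hy.le
  set P := (Measure.pi (fun _ : Fin (n + 1) => (volume : Measure I)))
      {y | ¬ R ^ 2 ≤ nsq (tr (fun j => b j - ε * extI y j) (1, 0) (n + 1))} with hP
  have hR0 : ENNReal.ofReal R ≠ 0 := (ENNReal.ofReal_pos.2 hR).ne'
  have h3 : P ≤ ENNReal.ofReal R * Z (n + 1) b ε (1, 0) := by
    have h4 : (ENNReal.ofReal R)⁻¹ * P ≤ Z (n + 1) b ε (1, 0) :=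
      le_trans (mul_le_mul' le_rfl (measure_mono hsub)) hmark
    calc P = ENNReal.ofReal R * ((ENNReal.ofReal R)⁻¹ * P) := by
          rw [← mul_assoc, ENNReal.mul_inv_cancel hR0 ENNReal.ofReal_ne_top, one_mul]
      _ ≤ _ := by gcongr
  calc P ^ 2 ≤ (ENNReal.ofReal R * Z (n + 1) b ε (1, 0)) ^ 2 := by gcongr
    _ = ENNReal.ofReal R ^ 2 * Z (n + 1) b ε (1, 0) ^ 2 := mul_pow _ _ _
    _ ≤ ENNReal.ofReal R ^ 2 * (ENNReal.ofReal ε⁻¹ *
        (ENNReal.ofReal (fac M) ^ (n / 2) * ENNReal.ofReal Real.pi)) := by gcongr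
    _ = ENNReal.ofReal (R ^ 2 * ε⁻¹ * fac M ^ (n / 2) * Real.pi) := by
        rw [ENNReal.ofReal_mul (by positivity), ENNReal.ofReal_mul (by positivity),
          ENNReal.ofReal_mul (by positivity), ENNReal.ofReal_pow hR.le, ENNReal.ofReal_pow hfac]
        ring

end Pool.Agent.Helper76x.LP
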