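import Mathlib
import Pool.Agent.Helper76x.LP.Fixed

/-!
The probability of a resonance for a potential with independent uniform parts.
-/

set_option autoImplicit false

open MeasureTheory Set unitInterval
open scoped ENNReal

namespace Pool.Agent.Helper76x.LP

/-- extension of a finite real sequence by zero -/
noncomputable def extR {n : ℕ} (y : Fin n → ℝ) (j : ℕ) : ℝ := if h : j < n then y ⟨j, h⟩ else 0

/-- a potential with variable part on the sites `a, ..., a + n - 1` -/
noncomputable def Wy {n : ℕ} (base : ℤ → ℝ) (ε : ℝ) (a : ℤ) (y : Fin n → ℝ) (z : ℤ) : ℝ :=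
  base z + ε * extR y (z - a).toNat

lemma Res_congr {V V' : ℤ → ℝ} {E δ : ℝ} {a b : ℤ} (h : ∀ z ∈ Finset.Icc a b, V z = V' z) :
    Res V E δ a b ↔ Res V' E δ a b := by
  unfold Res
  refine exists_congr fun v => and_congr_right fun _ => ?_
  have e : ∑ x ∈ Finset.Icc a b, (hop V E v x) ^ 2 = ∑ x ∈ Finset.Icc a b, (hop V' E v x) ^ 2 := by
    refine Finset.sum_congr rfl fun x hx => ?_
    unfold hop
    rw [h x hx]
  rw [e]

lemma extR_cont {n : ℕ} (j : ℕ) : Continuous fun y : Fin n → ℝ => extR y j := by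
  unfold extR
  by_cases h : j < n
  · simp only [dif_pos h]
    exact continuous_apply _
  · simp only [dif_neg h]
    exact continuous_const

lemma Res_open {X : Type*} [TopologicalSpace X] {W : X → ℤ → ℝ}
    (hW : ∀ z, Continuous fun x => W x z) (E δ : ℝ) (a b : ℤ) :
    IsOpen {x | Res (W x) E δ a b} := by
  have e : {x | Res (W x) E δ a b} = ⋃ v : {v : ℤ → ℝ // ∀ z, z ∉ Finset.Icc a b → v z = 0},
      {x | ∑ z ∈ Finset.Icc a b, (hop (W x) E v z) ^ 2 <
        δ ^ 2 * ∑ z ∈ Finset.Icc a b, (v.1 z) ^ 2} := by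
    ext x
    simp only [mem_ofPred_eq, mem_iUnion, Res]
    constructor
    · rintro ⟨v, h1, h2⟩; exact ⟨⟨v, h1⟩, h2⟩
    · rintro ⟨⟨v, h1⟩, h2⟩; exact ⟨v, h1, h2⟩
  rw [e]
  apply isOpen_iUnion
  intro v
  apply isOpen_lt _ continuous_const
  apply continuous_finsetSum
  intro z _
  unfold hop
  exact (continuous_const.add (((hW z).sub continuous_const).mul continuous_const)).pow 2

lemma Wy_cont {n : ℕ} (base : ℤ → ℝ) (ε : ℝ) (a z : ℤ) :
    Continuous fun y : Fin n → ℝ => Wy base ε a y z := by
  unfold Wy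
  exact continuous_const.add (continuous_const.mul (extR_cont _))

/-- resonances on a line of potentials -/
lemma line_bound {V : ℤ → ℝ} {E δ ε : ℝ} (hε : 0 < ε) (hδ : 0 < δ) (a b : ℤ) :
    volume {t : ℝ | Res V (E + ε * t) δ a b} ≤
      ((Finset.Icc a b).card : ℝ≥0∞) * ENNReal.ofReal (2 * δ / ε) := by
  obtain ⟨lam, φ, h1, h2, h3, h4⟩ := spec V a b
  have hsub : {t : ℝ | Res V (E + ε * t) δ a b} ⊆
      ⋃ i, Ioo ((lam i - E - δ) / ε) ((lam i - E + δ) / ε) := by
    intro t ht
    obtain ⟨i, hi⟩ := ht.exists_near h1 h2 h3 h4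
    rw [mem_iUnion]
    refine ⟨i, ?_⟩
    have h5 := abs_lt_of_sq_lt_sq hi hδ.le
    rw [abs_lt] at h5
    constructor
    · rw [div_lt_iff₀ hε]; linarith
    · rw [lt_div_iff₀ hε]; linarith
  refine (measure_mono hsub).trans ((measure_iUnion_fintype_le _ _).trans (le_of_eq ?_))
  have e : ∀ i, volume (Ioo ((lam i - E - δ) / ε) ((lam i - E + δ) / ε)) =
      ENNReal.ofReal (2 * δ / ε) := by
    intro i
    rw [Real.volume_Ioo]
    congr 1
    ring
  simp_rw [e]
  rw [Finset.sum_const, Finset.card_univ, Fintype.card_coe, nsmul_eq_mul]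

lemma Res_shift {n : ℕ} (base : ℤ → ℝ) {ε : ℝ} {a b : ℤ} (hb : b = a + n - 1) (y : Fin n → ℝ)
    (E δ t : ℝ) : Res (Wy base ε a (y - fun _ => t)) E δ a b ↔
      Res (Wy base ε a y) (E + ε * t) δ a b := by
  unfold Res
  refine exists_congr fun v => and_congr_right fun _ => ?_
  have e : ∑ x ∈ Finset.Icc a b, (hop (Wy base ε a (y - fun _ => t)) E v x) ^ 2 =
      ∑ x ∈ Finset.Icc a b, (hop (Wy base ε a y) (E + ε * t) v x) ^ 2 := by
    refine Finset.sum_congr rfl fun x hx => ?_
    rw [Finset.mem_Icc] at hx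
    have hlt : (x - a).toNat < n := by omega
    have e1 : extR (y - fun _ => t) (x - a).toNat = extR y (x - a).toNat - t := by
      unfold extR
      rw [dif_pos hlt, dif_pos hlt]
      rfl
    unfold hop Wy
    rw [e1]
    ring
  rw [e]

lemma wegner_real {n : ℕ} (hn : 0 < n) (base : ℤ → ℝ) {ε E δ : ℝ} (hε : 0 < ε) (hδ : 0 < δ)
    {a b : ℤ} (hb : b = a + n - 1) :
    volume ({y : Fin n → ℝ | Res (Wy base ε a y) E δ a b} ∩ Icc 0 1) ≤
      ENNReal.ofReal (6 * n ^ 2 * δ / ε) := by
  set D : Set (Fin n → ℝ) := {y | Res (Wy base ε a y) E δ a b} ∩ Icc 0 1 with hD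
  have hDm : MeasurableSet D :=
    (Res_open (fun z => Wy_cont base ε a z) E δ a b).measurableSet.inter measurableSet_Icc
  have hnr : (0:ℝ) < n := by exact_mod_cast hn
  set S : Set (ℝ × (Fin n → ℝ)) := {q | q.1 ∈ Icc (0:ℝ) (1 / n) ∧ q.2 - (fun _ => q.1) ∈ D} with hS
  have hSm : MeasurableSet S := by
    apply MeasurableSet.inter
    · exact measurable_fst measurableSet_Icc
    · have : Measurable fun q : ℝ × (Fin n → ℝ) => q.2 - (fun _ => q.1) := by
        apply Measurable.sub measurable_snd
        exact measurable_pi_lambda _ fun _ => measurable_fst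
      exact this hDm
  have h1 := Measure.prod_apply (μ := (volume : Measure ℝ)) (ν := (volume : Measure (Fin n → ℝ)))
    hSm
  have h2 := Measure.prod_apply_symm (μ := (volume : Measure ℝ))
    (ν := (volume : Measure (Fin n → ℝ))) hSm
  have h3 : ∫⁻ t, volume (Prod.mk t ⁻¹' S) = ENNReal.ofReal (1 / n) * volume D := by
    have e : ∀ t : ℝ, volume (Prod.mk t ⁻¹' S) = (Icc (0:ℝ) (1 / n)).indicator
        (fun _ => volume D) t := by
      intro t
      by_cases ht : t ∈ Icc (0:ℝ) (1 / n)
      · rw [indicator_of_mem ht]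
        have e2 : Prod.mk t ⁻¹' S = (fun y : Fin n → ℝ => y + (fun _ => -t)) ⁻¹' D := by
          ext y
          simp only [hS, mem_preimage, mem_ofPred_eq, ht, true_and]
          have : y - (fun _ => t) = y + fun _ => -t := by
            funext j; simp [sub_eq_add_neg]
          rw [this]
        rw [e2, measure_preimage_add_right]
      · rw [indicator_of_notMem ht]
        have e2 : Prod.mk t ⁻¹' S = ∅ := by
          ext y
          simp only [hS, mem_preimage, mem_ofPred_eq, ht, false_and, mem_empty_iff_false]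
        rw [e2, measure_empty]
    simp_rw [e]
    rw [lintegral_indicator measurableSet_Icc, lintegral_const, Measure.restrict_apply_univ,
      Real.volume_Icc, sub_zero, mul_comm]
  have h4 : ∫⁻ y, volume ((fun t : ℝ => (t, y)) ⁻¹' S) ≤
      ENNReal.ofReal (1 + 1 / n) ^ n * ((n : ℝ≥0∞) * ENNReal.ofReal (2 * δ / ε)) := by
    have e : ∀ y : Fin n → ℝ, volume ((fun t : ℝ => (t, y)) ⁻¹' S) ≤
        (Icc (0 : Fin n → ℝ) (fun _ => 1 + 1 / n)).indicator
        (fun _ => (n : ℝ≥0∞) * ENNReal.ofReal (2 * δ / ε)) y := by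
      intro y
      by_cases hy : y ∈ Icc (0 : Fin n → ℝ) (fun _ => 1 + 1 / n)
      · rw [indicator_of_mem hy]
        have hsub : (fun t : ℝ => (t, y)) ⁻¹' S ⊆
            {t | Res (Wy base ε a y) (E + ε * t) δ a b} := by
          rintro t ⟨_, ht, _⟩
          rw [mem_ofPred_eq] at ht
          exact (Res_shift base hb y E δ t).1 ht
        refine (measure_mono hsub).trans ((line_bound hε hδ a b).trans (le_of_eq ?_))
        rw [Int.card_Icc, hb]
        congr 2
        omega
      · rw [indicator_of_notMem hy]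
        have e2 : (fun t : ℝ => (t, y)) ⁻¹' S = ∅ := by
          ext t
          simp only [hS, mem_preimage, mem_ofPred_eq, mem_empty_iff_false, iff_false, not_and]
          intro ht hD'
          apply hy
          obtain ⟨_, h5, h6⟩ := hD'
          constructor
          · intro j
            have := h5 j
            simp only [Pi.zero_apply, Pi.sub_apply] at this ⊢
            linarith [ht.1]
          · intro j
            have := h6 j
            simp only [Pi.one_apply, Pi.sub_apply] at this ⊢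
            linarith [ht.2]
        rw [e2, measure_empty]
    refine (lintegral_mono e).trans (le_of_eq ?_)
    rw [lintegral_indicator measurableSet_Icc, lintegral_const, Measure.restrict_apply_univ,
      Real.volume_Icc_pi, mul_comm]
    congr 1
    simp
  have h5 : ENNReal.ofReal (1 / n) * volume D ≤
      ENNReal.ofReal (1 + 1 / n) ^ n * ((n : ℝ≥0∞) * ENNReal.ofReal (2 * δ / ε)) := by
    rw [← h3, ← h1, h2]; exact h4
  have h6 : (1 + 1 / (n:ℝ)) ^ n ≤ 3 := by
    calc (1 + 1 / (n:ℝ)) ^ n ≤ (Real.exp (1 / n)) ^ n := by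
          apply pow_le_pow_left₀ (by positivity)
          have := Real.add_one_le_exp (1 / (n:ℝ))
          linarith
      _ = Real.exp 1 := by
          rw [← Real.exp_nat_mul]
          congr 1
          field_simp
      _ ≤ 3 := by
          have := Real.exp_one_lt_d9
          linarith
  calc volume D = ENNReal.ofReal n * (ENNReal.ofReal (1 / n) * volume D) := by
        rw [← mul_assoc, ← ENNReal.ofReal_mul hnr.le, mul_one_div_cancel hnr.ne',
          ENNReal.ofReal_one, one_mul]
    _ ≤ ENNReal.ofReal n * (ENNReal.ofReal (1 + 1 / n) ^ n *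
          ((n : ℝ≥0∞) * ENNReal.ofReal (2 * δ / ε))) := by gcongr
    _ = ENNReal.ofReal (n * ((1 + 1 / n) ^ n * (n * (2 * δ / ε)))) := by
        rw [ENNReal.ofReal_mul hnr.le, ENNReal.ofReal_mul (by positivity),
          ENNReal.ofReal_mul hnr.le, ENNReal.ofReal_pow (by positivity), ENNReal.ofReal_natCast]
    _ ≤ ENNReal.ofReal (6 * n ^ 2 * δ / ε) := by
        apply ENNReal.ofReal_le_ofReal
        calc (n:ℝ) * ((1 + 1 / n) ^ n * (n * (2 * δ / ε)))
            ≤ n * (3 * (n * (2 * δ / ε))) := by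
              apply mul_le_mul_of_nonneg_left _ hnr.le
              apply mul_le_mul_of_nonneg_right h6 (by positivity)
          _ = 6 * n ^ 2 * δ / ε := by ring

/-- Wegner estimate -/
theorem wegner {n : ℕ} (hn : 0 < n) (base : ℤ → ℝ) {ε E δ : ℝ} (hε : 0 < ε) (hδ : 0 < δ)
    {a b : ℤ} (hb : b = a + n - 1) :
    (Measure.pi (fun _ : Fin n => (volume : Measure I)))
      {y | Res (Wy base ε a (fun j => (y j : ℝ))) E δ a b} ≤
      ENNReal.ofReal (6 * n ^ 2 * δ / ε) := by
  have hmp : MeasurePreserving (fun (y : Fin n → I) (j : Fin n) => (y j : ℝ))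
      (Measure.pi (fun _ : Fin n => (volume : Measure I)))
      (Measure.pi (fun _ : Fin n => (volume : Measure ℝ).restrict (Icc 0 1))) :=
    measurePreserving_pi _ _ fun _ => unitInterval.measurePreserving_coe
  rw [← Measure.restrict_pi_pi] at hmp
  have hAm : MeasurableSet {y : Fin n → ℝ | Res (Wy base ε a y) E δ a b} :=
    (Res_open (fun z => Wy_cont base ε a z) E δ a b).measurableSet
  have h1 := hmp.measure_preimage hAm.nullMeasurableSet
  have e : (fun (y : Fin n → I) (j : Fin n) => (y j : ℝ)) ⁻¹'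
      {y : Fin n → ℝ | Res (Wy base ε a y) E δ a b} =
      {y | Res (Wy base ε a (fun j => (y j : ℝ))) E δ a b} := rfl
  rw [e] at h1
  rw [h1, Measure.restrict_apply hAm]
  have e2 : (univ.pi fun _ : Fin n => Icc (0:ℝ) 1) = Icc 0 1 := by
    rw [pi_univ_Icc]; rfl
  rw [e2]
  exact wegner_real hn base hε hδ hb

end Pool.Agent.Helper76x.LP
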