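import Mathlib
import Pool.Agent.Helper76x.LP.Wegner
import Pool.Agent.Helper76x.LP.Repl
import Pool.Agent.Helper76x.LP.Group
import Pool.Agent.Helper76x.LP.Limit

/-!
The random continuous functions on a compact totally disconnected group.
-/

set_option autoImplicit false

open MeasureTheory Set unitInterval
open scoped ENNReal

namespace Pool.Agent.Helper76x.LP

/-- amplitude at level `t` -/
noncomputable def amp (c : ℝ) (t : ℕ) : ℝ := c / ((t : ℝ) + 1) ^ 2

lemma amp_pos {c : ℝ} (hc : 0 < c) (t : ℕ) : 0 < amp c t := by unfold amp; positivity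

lemma amp_le_one {c : ℝ} (_hc : 0 < c) (hc1 : c ≤ 1) (t : ℕ) : amp c t ≤ 1 := by
  unfold amp
  rw [div_le_one (by positivity)]
  have : (0:ℝ) ≤ t := Nat.cast_nonneg t
  nlinarith

lemma base_summable : Summable fun t : ℕ => 1 / ((t : ℝ) + 1) ^ 2 := by
  have h := (summable_nat_add_iff 1).2 (Real.summable_one_div_nat_pow.2 (by norm_num : 1 < 2))
  refine h.congr fun t => ?_
  push_cast
  rfl

lemma amp_summable (c : ℝ) : Summable (amp c) := by
  unfold amp
  refine (base_summable.mul_left c).congr fun t => ?_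
  ring

variable {Ω : Type*} [AddCommGroup Ω] [TopologicalSpace Ω] [IsTopologicalAddGroup Ω]

/-- index set of the random variables -/
abbrev Idx (H : ℕ → OpenAddSubgroup Ω) : Type _ := Σ t : ℕ, Ω ⧸ (H t).toAddSubgroup

/-- index at level `t` -/
def ix (H : ℕ → OpenAddSubgroup Ω) (t : ℕ) (ω : Ω) : Idx H := ⟨t, (ω : Ω ⧸ (H t).toAddSubgroup)⟩

/-- the random function -/
noncomputable def pot (H : ℕ → OpenAddSubgroup Ω) (f0 : Ω → ℝ) (c : ℝ) (x : Idx H → I) (ω : Ω) : ℝ :=
  f0 ω + ∑' t, amp c t * (x (ix H t ω) : ℝ)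

variable {H : ℕ → OpenAddSubgroup Ω} {f0 : Ω → ℝ} {c : ℝ}

omit [IsTopologicalAddGroup Ω] in
lemma term_bound (hc : 0 < c) (x : Idx H → I) (ω : Ω) (t : ℕ) :
    ‖amp c t * (x (ix H t ω) : ℝ)‖ ≤ amp c t := by
  rw [Real.norm_eq_abs, abs_mul, abs_of_pos (amp_pos hc t)]
  have h1 := (x (ix H t ω)).2.1
  have h2 := (x (ix H t ω)).2.2
  rw [abs_of_nonneg h1]
  have := amp_pos hc t
  nlinarith

omit [IsTopologicalAddGroup Ω] in
lemma term_summable (hc : 0 < c) (x : Idx H → I) (ω : Ω) :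
    Summable fun t => amp c t * (x (ix H t ω) : ℝ) :=
  Summable.of_norm_bounded (amp_summable c) (term_bound hc x ω)

omit [IsTopologicalAddGroup Ω] in
lemma pot_sub_le (hc : 0 < c) (x : Idx H → I) (ω : Ω) :
    |pot H f0 c x ω - f0 ω| ≤ ∑' t, amp c t := by
  unfold pot
  rw [add_sub_cancel_left, ← Real.norm_eq_abs]
  exact tsum_of_norm_bounded (amp_summable c).hasSum (term_bound hc x ω)

lemma coset_open (H : OpenAddSubgroup Ω) (ω : Ω) :
    IsOpen {y : Ω | (y : Ω ⧸ H.toAddSubgroup) = (ω : Ω ⧸ H.toAddSubgroup)} := by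
  have e : {y : Ω | (y : Ω ⧸ H.toAddSubgroup) = (ω : Ω ⧸ H.toAddSubgroup)} =
      (fun y : Ω => -y + ω) ⁻¹' (H : Set Ω) := by
    ext y
    simp only [mem_ofPred_eq, mem_preimage]
    exact QuotientAddGroup.eq
  rw [e]
  exact H.isOpen.preimage (by fun_prop)

lemma coord_cont (H : ℕ → OpenAddSubgroup Ω) (t : ℕ) :
    Continuous fun p : Ω × (Idx H → I) => ((p.2 (ix H t p.1) : I) : ℝ) := by
  rw [continuous_iff_continuousAt]
  rintro ⟨ω, x⟩
  have h1 : Continuous fun p : Ω × (Idx H → I) => ((p.2 (ix H t ω) : I) : ℝ) :=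
    continuous_subtype_val.comp ((continuous_apply (ix H t ω)).comp continuous_snd)
  refine h1.continuousAt.congr ?_
  have h2 : ∀ᶠ p : Ω × (Idx H → I) in nhds (ω, x),
      (p.1 : Ω ⧸ (H t).toAddSubgroup) = (ω : Ω ⧸ (H t).toAddSubgroup) := by
    have h3 : IsOpen {p : Ω × (Idx H → I) |
        (p.1 : Ω ⧸ (H t).toAddSubgroup) = (ω : Ω ⧸ (H t).toAddSubgroup)} :=
      (coset_open (H t) ω).preimage continuous_fst
    exact h3.mem_nhds rfl
  filter_upwards [h2] with p hp
  unfold ix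
  rw [hp]

lemma pot_cont (hc : 0 < c) (hf : Continuous f0) :
    Continuous fun p : Ω × (Idx H → I) => pot H f0 c p.2 p.1 := by
  unfold pot
  apply (hf.comp continuous_fst).add
  apply continuous_tsum (u := amp c)
  · intro t
    exact continuous_const.mul (coord_cont H t)
  · exact amp_summable c
  · intro t p
    exact term_bound hc p.2 p.1 t

/-- the potential along an orbit -/
noncomputable def VV (H : ℕ → OpenAddSubgroup Ω) (f0 : Ω → ℝ) (c : ℝ) (α : Ω) (x : Idx H → I)
    (ω : Ω) (n : ℤ) : ℝ := pot H f0 c x (ω + n • α)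

lemma VV_cont (hc : 0 < c) (hf : Continuous f0) (α : Ω) (n : ℤ) :
    Continuous fun p : Ω × (Idx H → I) => VV H f0 c α p.2 p.1 n := by
  unfold VV
  have h : Continuous fun p : Ω × (Idx H → I) => ((p.1 + n • α, p.2) : Ω × (Idx H → I)) :=
    (continuous_fst.add continuous_const).prodMk continuous_snd
  exact (pot_cont hc hf).comp h

omit [IsTopologicalAddGroup Ω] in
lemma VV_diff (hc : 0 < c) {α : Ω} {x x' : Idx H → I} {ω : Ω} {n : ℤ} {t : ℕ}
    (h : ∀ s, s ≠ t → x' (ix H s (ω + n • α)) = x (ix H s (ω + n • α))) :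
    VV H f0 c α x' ω n = VV H f0 c α x ω n - amp c t * (x (ix H t (ω + n • α)) : ℝ) +
      amp c t * (x' (ix H t (ω + n • α)) : ℝ) := by
  unfold VV pot
  have e : ∑' s, amp c s * (x' (ix H s (ω + n • α)) : ℝ) -
      ∑' s, amp c s * (x (ix H s (ω + n • α)) : ℝ) =
      amp c t * (x' (ix H t (ω + n • α)) : ℝ) - amp c t * (x (ix H t (ω + n • α)) : ℝ) := by
    rw [← (term_summable hc x' _).tsum_sub (term_summable hc x _), tsum_eq_single t]
    intro s hs
    rw [h s hs, sub_self]
  linarith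

/-- closedness of the good event -/
lemma good_closed {X : Type*} [TopologicalSpace X] {W : X → ℤ → ℝ}
    (hW : ∀ z, Continuous fun x => W x z) (B : ℝ) (t : ℕ) : IsClosed {x | GoodAt (W x) B t} := by
  have htr : ∀ (g : ℕ → ℤ) (E : ℝ) (n : ℕ),
      IsClosed {x | Real.exp (4 * t) ^ 2 ≤ nsq (tr (fun j => E - W x (g j)) (1, 0) n)} := by
    intro g E n
    apply isClosed_le continuous_const
    apply nsq_cont.comp
    apply tr_cont (w := fun x j => E - W x (g j)) _ continuous_const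
    intro j
    exact continuous_const.sub (hW _)
  have e : {x | GoodAt (W x) B t} = ⋂ k : ℤ, {x | |(k : ℝ) * Real.exp (-(3 * t))| ≤ B + 3 →
      (∀ a : ℤ, |a| ≤ 10 * (t : ℤ) ^ 8 →
        Real.exp (4 * t) ^ 2 ≤
          nsq (tr (fun j => k * Real.exp (-(3 * t)) - W x (a + j)) (1, 0) (t ^ 8)) ∧
        Real.exp (4 * t) ^ 2 ≤
          nsq (tr (fun j => k * Real.exp (-(3 * t)) - W x (a - j)) (1, 0) (t ^ 8))) ∧
      (∀ a b c d : ℤ, -(10 * (t : ℤ) ^ 8) ≤ a → a ≤ b → b < c → c ≤ d → d ≤ 10 * (t : ℤ) ^ 8 →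
        b - a ≤ 2 * (t : ℤ) ^ 8 → d - c ≤ 2 * (t : ℤ) ^ 8 →
        ¬ (Res (W x) (k * Real.exp (-(3 * t))) (Real.exp (-(2 * t))) a b ∧
          Res (W x) (k * Real.exp (-(3 * t))) (Real.exp (-(2 * t))) c d))} := by
    ext x
    simp only [GoodAt, mem_ofPred_eq, mem_iInter]
  rw [e]
  apply isClosed_iInter
  intro k
  by_cases hk : |(k : ℝ) * Real.exp (-(3 * t))| ≤ B + 3
  · simp only [hk, true_implies]
    apply IsClosed.and
    · simp only [ofPred_forall]
      apply isClosed_iInter; intro a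
      apply isClosed_iInter; intro _
      exact (htr (fun j => a + j) _ _).and (htr (fun j => a - j) _ _)
    · simp only [ofPred_forall]
      apply isClosed_iInter; intro a
      apply isClosed_iInter; intro b
      apply isClosed_iInter; intro c
      apply isClosed_iInter; intro d
      repeat (apply isClosed_iInter; intro _)
      have h1 := Res_open hW (k * Real.exp (-(3 * t))) (Real.exp (-(2 * t))) a b
      have h2 := Res_open hW (k * Real.exp (-(3 * t))) (Real.exp (-(2 * t))) c d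
      exact (h1.and h2).isClosed_compl
  · simp only [hk, false_implies]
    exact isClosed_univ

end Pool.Agent.Helper76x.LP
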