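import Mathlib
import Pool.Agent.Helper76x.LP.Model

/-!
Probability of the bad events.
-/

set_option autoImplicit false

open MeasureTheory Set unitInterval
open scoped ENNReal

namespace Pool.Agent.Helper76x.LP

variable {Ω : Type*} [AddCommGroup Ω] [TopologicalSpace Ω] [IsTopologicalAddGroup Ω]
  [CompactSpace Ω] {H : ℕ → OpenAddSubgroup Ω} {f0 : Ω → ℝ} {c : ℝ} {α : Ω}

lemma quot_finite (H : OpenAddSubgroup Ω) : Finite (Ω ⧸ H.toAddSubgroup) :=
  AddSubgroup.quotient_finite_of_isOpen _ H.isOpen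

instance : Countable (Idx H) := by
  have : ∀ t, Finite (Ω ⧸ (H t).toAddSubgroup) := fun t => quot_finite (H t)
  unfold Idx
  infer_instance

omit [CompactSpace Ω] in
lemma site_inj (hα : Dense (Set.range (fun n : ℤ => n • α))) {t : ℕ} (ω : Ω)
    (hcard : 20 * t ^ 8 + 1 < Nat.card (Ω ⧸ (H t).toAddSubgroup)) {n n' : ℤ}
    (hn : |n - n'| ≤ 20 * (t : ℤ) ^ 8) (h : ix H t (ω + n • α) = ix H t (ω + n' • α)) :
    n = n' := by
  have h1 : ((ω + n • α : Ω) : Ω ⧸ (H t).toAddSubgroup) =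
      ((ω + n' • α : Ω) : Ω ⧸ (H t).toAddSubgroup) := by
    unfold ix at h
    rw [Sigma.mk.inj_iff] at h
    exact eq_of_heq h.2
  refine coset_inj (H t) hα ω ?_ h1
  have h2 : ((n - n').natAbs : ℤ) ≤ 20 * (t : ℤ) ^ 8 := by rw [Int.natCast_natAbs]; exact hn
  have h3 : (n - n').natAbs ≤ 20 * t ^ 8 := by exact_mod_cast h2
  omega

omit [IsTopologicalAddGroup Ω] [CompactSpace Ω] in
lemma ix_ne {s t : ℕ} (h : s ≠ t) (ω ω' : Ω) : ix H t ω' ≠ ix H s ω := by
  intro he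
  unfold ix at he
  rw [Sigma.mk.inj_iff] at he
  exact h he.1.symm

omit [CompactSpace Ω] in
lemma VV_cont_x (hc : 0 < c) (α ω : Ω) (n : ℤ) :
    Continuous fun x : Idx H → I => VV H f0 c α x ω n := by
  unfold VV
  have h := pot_cont (H := H) (f0 := fun _ => (0:ℝ)) hc continuous_const
  have h2 : Continuous fun x : Idx H → I => pot H (fun _ => (0:ℝ)) c x (ω + n • α) :=
    h.comp (continuous_const.prodMk continuous_id)
  have e : (fun x : Idx H → I => pot H f0 c x (ω + n • α)) =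
      fun x => f0 (ω + n • α) + pot H (fun _ => (0:ℝ)) c x (ω + n • α) := by
    funext x
    unfold pot
    ring
  rw [e]
  exact continuous_const.add h2

omit [IsTopologicalAddGroup Ω] [CompactSpace Ω] in
/-- resampling the sites `g j` -/
lemma VV_extend (hc : 0 < c) {t n : ℕ} {ω : Ω} {g : ℕ → ℤ}
    (he : Function.Injective fun j : Fin n => ix H t (ω + g j • α)) (x : Idx H → I)
    (y : Fin n → I) (j : Fin n) :
    VV H f0 c α (Function.extend (fun j : Fin n => ix H t (ω + g j • α)) y x) ω (g j) =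
      VV H f0 c α x ω (g j) - amp c t * (x (ix H t (ω + g j • α)) : ℝ) + amp c t * (y j : ℝ) := by
  rw [VV_diff (x := x) (t := t) hc]
  · rw [he.extend_apply]
  · intro s hs
    rw [Function.extend_apply']
    rintro ⟨k, hk⟩
    exact ix_ne hs _ _ hk

omit [IsTopologicalAddGroup Ω] [CompactSpace Ω] in
lemma VV_extend_other (hc : 0 < c) {t n : ℕ} {ω : Ω} {g : ℕ → ℤ} (x : Idx H → I)
    (y : Fin n → I) {z : ℤ} (hz : ∀ j : Fin n, ix H t (ω + g j • α) ≠ ix H t (ω + z • α)) :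
    VV H f0 c α (Function.extend (fun j : Fin n => ix H t (ω + g j • α)) y x) ω z =
      VV H f0 c α x ω z := by
  rw [VV_diff (x := x) (t := t) hc]
  · rw [Function.extend_apply']
    · ring
    · rintro ⟨k, hk⟩
      exact hz k hk
  · intro s hs
    rw [Function.extend_apply']
    rintro ⟨k, hk⟩
    exact ix_ne hs _ _ hk

/-- the growth event -/
lemma clean_bound (hc : 0 < c) (hc1 : c ≤ 1) (hα : Dense (Set.range (fun n : ℤ => n • α))) {t : ℕ}
    (ht : 1 ≤ t) (ω : Ω) (hcard : 20 * t ^ 8 + 1 < Nat.card (Ω ⧸ (H t).toAddSubgroup))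
    {g : ℕ → ℤ} (hg1 : ∀ i j, i < t ^ 8 → j < t ^ 8 → |g i - g j| ≤ 20 * (t : ℤ) ^ 8)
    (hg2 : ∀ i j, g i = g j → i = j) (E : ℝ) {M : ℕ} (hM : 8 ≤ M * amp c t) {R p : ℝ}
    (hR : 0 < R) (hp : 0 ≤ p)
    (hpp : R ^ 2 * (amp c t)⁻¹ * fac M ^ ((t ^ 8 - 1) / 2) * Real.pi ≤ p ^ 2) :
    PP (Idx H) {x | ¬ R ^ 2 ≤ nsq (tr (fun j => E - VV H f0 c α x ω (g j)) (1, 0) (t ^ 8))} ≤
      ENNReal.ofReal p := by
  obtain ⟨m, hm⟩ : ∃ m, t ^ 8 = m + 1 := ⟨t ^ 8 - 1, by have := Nat.one_le_pow 8 t ht; omega⟩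
  rw [hm] at hg1 hpp ⊢
  rw [Nat.add_sub_cancel] at hpp
  have he : Function.Injective fun j : Fin (m + 1) => ix H t (ω + g j • α) := by
    intro i j hij
    have h1 := site_inj hα ω hcard (hg1 i j i.2 j.2) hij
    exact Fin.ext (hg2 _ _ h1)
  have hmeas : MeasurableSet {x : Idx H → I | ¬ R ^ 2 ≤
      nsq (tr (fun j => E - VV H f0 c α x ω (g j)) (1, 0) (m + 1))} := by
    have h1 : IsClosed {x : Idx H → I | R ^ 2 ≤
        nsq (tr (fun j => E - VV H f0 c α x ω (g j)) (1, 0) (m + 1))} := by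
      apply isClosed_le continuous_const
      apply nsq_cont.comp
      apply tr_cont (w := fun x j => E - VV H f0 c α x ω (g j)) _ continuous_const
      intro j
      exact continuous_const.sub (VV_cont_x hc α ω _)
    exact h1.measurableSet.compl
  refine PP_le he hmeas fun x => ?_
  set b : ℕ → ℝ := fun j => E - (VV H f0 c α x ω (g j) -
    amp c t * (x (ix H t (ω + g j • α)) : ℝ)) with hb
  have hset : {y : Fin (m + 1) → I | Function.extend (fun j : Fin (m + 1) =>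
      ix H t (ω + g j • α)) y x ∈ {x | ¬ R ^ 2 ≤
        nsq (tr (fun j => E - VV H f0 c α x ω (g j)) (1, 0) (m + 1))}} =
      {y | ¬ R ^ 2 ≤ nsq (tr (fun j => b j - amp c t * extI y j) (1, 0) (m + 1))} := by
    ext y
    simp only [mem_ofPred_eq]
    rw [tr_congr (w' := fun j => b j - amp c t * extI y j)]
    intro j hj
    have h1 := VV_extend (f0 := f0) hc he x y ⟨j, hj⟩
    simp only at h1
    rw [h1]
    have h2 : extI y j = (y ⟨j, hj⟩ : ℝ) := by unfold extI; rw [dif_pos hj]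
    rw [h2, hb]
    ring
  rw [hset]
  have h1 := small_prob m b (amp_pos hc t) (amp_le_one hc hc1 t) hM hR
  have h2 := h1.trans (ENNReal.ofReal_le_ofReal hpp)
  rw [ENNReal.ofReal_pow hp] at h2
  exact (ENNReal.pow_le_pow_left_iff (by norm_num)).1 h2

lemma res_meas (hc : 0 < c) (ω : Ω) (E δ : ℝ) (a b : ℤ) :
    MeasurableSet {x : Idx H → I | Res (VV H f0 c α x ω) E δ a b} :=
  (Res_open (fun z => VV_cont_x hc α ω z) E δ a b).measurableSet

omit [CompactSpace Ω] in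
lemma res_inj (hα : Dense (Set.range (fun n : ℤ => n • α))) {t : ℕ} (ω : Ω)
    (hcard : 20 * t ^ 8 + 1 < Nat.card (Ω ⧸ (H t).toAddSubgroup)) {a b : ℤ}
    (hab : b - a ≤ 2 * (t : ℤ) ^ 8) :
    Function.Injective fun j : Fin (b - a + 1).toNat => ix H t (ω + (a + (j : ℕ) : ℤ) • α) := by
  intro i j hij
  have hi := i.2
  have hj := j.2
  have hnn : (0:ℤ) ≤ (t:ℤ) ^ 8 := by positivity
  have h1 := site_inj hα ω hcard (n := a + (i : ℕ)) (n' := a + (j : ℕ))
    (by rw [abs_le]; constructor <;> omega) hij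
  exact Fin.ext (by omega)

omit [CompactSpace Ω] in
lemma res_cond (hc : 0 < c) (hα : Dense (Set.range (fun n : ℤ => n • α))) {t : ℕ} (ω : Ω)
    (hcard : 20 * t ^ 8 + 1 < Nat.card (Ω ⧸ (H t).toAddSubgroup)) {a b : ℤ} (hab0 : a ≤ b)
    (hab : b - a ≤ 2 * (t : ℤ) ^ 8) (E : ℝ) {δ : ℝ} (hδ : 0 < δ) (x : Idx H → I) :
    (Measure.pi (fun _ : Fin (b - a + 1).toNat => (volume : Measure I)))
      {y | Function.extend (fun j : Fin (b - a + 1).toNat =>
        ix H t (ω + (a + (j : ℕ) : ℤ) • α)) y x ∈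
        {x : Idx H → I | Res (VV H f0 c α x ω) E δ a b}} ≤
      ENNReal.ofReal (6 * (2 * (t : ℝ) ^ 8 + 1) ^ 2 * δ / amp c t) := by
  have he := res_inj hα ω hcard hab
  set n := (b - a + 1).toNat with hn
  have hn0 : 0 < n := by omega
  have hb : b = a + n - 1 := by omega
  set base : ℤ → ℝ := fun z => VV H f0 c α x ω z -
    amp c t * (x (ix H t (ω + z • α)) : ℝ) with hbase
  have hset : {y : Fin n → I | Function.extend (fun j : Fin n =>
        ix H t (ω + (a + (j : ℕ) : ℤ) • α)) y x ∈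
        {x : Idx H → I | Res (VV H f0 c α x ω) E δ a b}} =
      {y | Res (Wy base (amp c t) a (fun j => (y j : ℝ))) E δ a b} := by
    ext y
    simp only [mem_ofPred_eq]
    apply Res_congr
    intro z hz
    rw [Finset.mem_Icc] at hz
    have hlt : (z - a).toNat < n := by omega
    have hzz : a + ((z - a).toNat : ℤ) = z := by omega
    have h1 := VV_extend (f0 := f0) (g := fun j => a + (j : ℤ)) hc he x y ⟨(z - a).toNat, hlt⟩
    simp only [hzz] at h1
    rw [h1]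
    unfold Wy extR
    rw [dif_pos hlt]
  rw [hset]
  refine (wegner hn0 base (amp_pos hc t) hδ hb).trans (ENNReal.ofReal_le_ofReal ?_)
  have h2 : (n : ℝ) ≤ 2 * (t : ℝ) ^ 8 + 1 := by
    have : (n : ℤ) ≤ 2 * (t : ℤ) ^ 8 + 1 := by omega
    exact_mod_cast this
  have := amp_pos hc t
  gcongr

/-- the double resonance event -/
lemma sep_bound (hc : 0 < c) (hα : Dense (Set.range (fun n : ℤ => n • α))) {t : ℕ} (ω : Ω)
    (hcard : 20 * t ^ 8 + 1 < Nat.card (Ω ⧸ (H t).toAddSubgroup)) {a b a' b' : ℤ}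
    (h1 : -(10 * (t : ℤ) ^ 8) ≤ a) (h2 : a ≤ b) (h3 : b < a') (h4 : a' ≤ b')
    (h5 : b' ≤ 10 * (t : ℤ) ^ 8) (h6 : b - a ≤ 2 * (t : ℤ) ^ 8) (h7 : b' - a' ≤ 2 * (t : ℤ) ^ 8)
    (E : ℝ) {δ : ℝ} (hδ : 0 < δ) :
    PP (Idx H) ({x | Res (VV H f0 c α x ω) E δ a b} ∩ {x | Res (VV H f0 c α x ω) E δ a' b'}) ≤
      ENNReal.ofReal ((6 * (2 * (t : ℝ) ^ 8 + 1) ^ 2 * δ / amp c t) ^ 2) := by
  have hw : 0 ≤ 6 * (2 * (t : ℝ) ^ 8 + 1) ^ 2 * δ / amp c t := by
    have := amp_pos hc t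
    positivity
  have hA := PP_le (res_inj hα ω hcard h6) (res_meas (f0 := f0) (α := α) hc ω E δ a b)
    (res_cond hc hα ω hcard h2 h6 E hδ)
  have hAB := PP_inter_le (res_inj hα ω hcard h7) (res_meas (f0 := f0) (α := α) hc ω E δ a b)
    (res_meas (f0 := f0) (α := α) hc ω E δ a' b')
    (fun x y hx => by
      rw [mem_ofPred_eq] at hx ⊢
      rw [Res_congr (V' := VV H f0 c α x ω)] at hx
      · exact hx
      · intro z hz
        rw [Finset.mem_Icc] at hz
        apply VV_extend_other (g := fun j => a' + (j : ℤ)) hc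
        intro j hj
        have hjlt := j.2
        have := site_inj hα ω hcard (by rw [abs_le]; constructor <;> omega) hj
        omega)
    (res_cond hc hα ω hcard h4 h7 E hδ)
  refine hAB.trans ((mul_le_mul' le_rfl hA).trans (le_of_eq ?_))
  rw [← ENNReal.ofReal_mul hw, ← sq]

/-- the probability of the bad event at scale `t` -/
theorem bad_bound (hc : 0 < c) (hc1 : c ≤ 1) (hα : Dense (Set.range (fun n : ℤ => n • α))) {t : ℕ}
    (ht : 1 ≤ t) (ω : Ω) (hcard : 20 * t ^ 8 + 1 < Nat.card (Ω ⧸ (H t).toAddSubgroup))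
    {M : ℕ} (hM : 8 ≤ M * amp c t) {p B : ℝ} (hp : 0 ≤ p)
    (hpp : Real.exp (4 * t) ^ 2 * (amp c t)⁻¹ * fac M ^ ((t ^ 8 - 1) / 2) * Real.pi ≤ p ^ 2)
    {N : ℕ} (hN : (B + 3) * Real.exp (3 * t) ≤ N) :
    PP (Idx H) {x | ¬ GoodAt (VV H f0 c α x ω) B t} ≤
      ENNReal.ofReal ((2 * N + 1) * ((20 * (t : ℝ) ^ 8 + 1) * (2 * p) + (20 * (t : ℝ) ^ 8 + 1) ^ 4 *
        (6 * (2 * (t : ℝ) ^ 8 + 1) ^ 2 * Real.exp (-(2 * t)) / amp c t) ^ 2)) := by
  classical
  set δ := Real.exp (-(2 * (t:ℝ))) with hδ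
  set En : ℤ → ℝ := fun k => k * Real.exp (-(3 * t)) with hEn
  set w : ℝ := (6 * (2 * (t : ℝ) ^ 8 + 1) ^ 2 * δ / amp c t) ^ 2 with hw
  have hw0 : 0 ≤ w := sq_nonneg _
  set Ks : Finset ℤ := Finset.Icc (-(N : ℤ)) N with hKs
  set As : Finset ℤ := Finset.Icc (-(10 * (t : ℤ) ^ 8)) (10 * (t : ℤ) ^ 8) with hAs
  set Fw : ℤ → ℤ → Set (Idx H → I) := fun k a => {x | ¬ Real.exp (4 * t) ^ 2 ≤
    nsq (tr (fun j => En k - VV H f0 c α x ω (a + j)) (1, 0) (t ^ 8))} with hFw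
  set Bw : ℤ → ℤ → Set (Idx H → I) := fun k a => {x | ¬ Real.exp (4 * t) ^ 2 ≤
    nsq (tr (fun j => En k - VV H f0 c α x ω (a - j)) (1, 0) (t ^ 8))} with hBw
  set Dr : ℤ → (ℤ × ℤ) × (ℤ × ℤ) → Set (Idx H → I) := fun k q =>
    if a_cond : -(10 * (t : ℤ) ^ 8) ≤ q.1.1 ∧ q.1.1 ≤ q.1.2 ∧ q.1.2 < q.2.1 ∧ q.2.1 ≤ q.2.2 ∧
      q.2.2 ≤ 10 * (t : ℤ) ^ 8 ∧ q.1.2 - q.1.1 ≤ 2 * (t : ℤ) ^ 8 ∧
      q.2.2 - q.2.1 ≤ 2 * (t : ℤ) ^ 8 then
    {x | Res (VV H f0 c α x ω) (En k) δ q.1.1 q.1.2} ∩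
      {x | Res (VV H f0 c α x ω) (En k) δ q.2.1 q.2.2} else ∅ with hDr
  have hsub : {x | ¬ GoodAt (VV H f0 c α x ω) B t} ⊆
      ⋃ k ∈ Ks, ((⋃ a ∈ As, (Fw k a ∪ Bw k a)) ∪
        ⋃ q ∈ (As ×ˢ As) ×ˢ (As ×ˢ As), Dr k q) := by
    intro x hx
    by_contra hcon
    apply hx
    intro k hk
    have hkK : k ∈ Ks := by
      rw [hKs, Finset.mem_Icc, ← abs_le]
      have h1 : |(k : ℝ)| ≤ N := by
        rw [abs_mul, abs_of_pos (Real.exp_pos _)] at hk
        have h2 : |(k : ℝ)| = |(k : ℝ)| * Real.exp (-(3 * t)) * Real.exp (3 * t) := by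
          rw [mul_assoc, ← Real.exp_add]; simp
        rw [h2]
        exact (mul_le_mul_of_nonneg_right hk (Real.exp_pos _).le).trans hN
      rw [← Int.cast_abs] at h1
      exact_mod_cast h1
    simp only [mem_iUnion, not_exists] at hcon
    have hk2 := hcon k hkK
    rw [mem_union, not_or] at hk2
    obtain ⟨hk3, hk4⟩ := hk2
    simp only [mem_iUnion, not_exists] at hk3 hk4
    constructor
    · intro a ha
      have haA : a ∈ As := by rw [hAs, Finset.mem_Icc, ← abs_le]; exact ha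
      have h3 := hk3 a haA
      rw [mem_union, not_or] at h3
      exact ⟨not_not.1 h3.1, not_not.1 h3.2⟩
    · intro a b a' b' g1 g2 g3 g4 g5 g6 g7 hres
      have hnn : (0:ℤ) ≤ (t:ℤ) ^ 8 := by positivity
      have hq : ((a, b), (a', b')) ∈ (As ×ˢ As) ×ˢ (As ×ˢ As) := by
        simp only [Finset.mem_product, hAs, Finset.mem_Icc]
        omega
      have h4 := hk4 ((a, b), (a', b')) hq
      apply h4
      simp only [hDr]
      rw [dif_pos ⟨g1, g2, g3, g4, g5, g6, g7⟩]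
      exact hres
  have hcardK : (Ks.card : ℝ≥0∞) = ENNReal.ofReal (2 * N + 1) := by
    rw [hKs, Int.card_Icc]
    have : ((N : ℤ) + 1 - -(N : ℤ)).toNat = 2 * N + 1 := by omega
    rw [this, ← ENNReal.ofReal_natCast]
    push_cast
    rfl
  have hcardA : As.card = 20 * t ^ 8 + 1 := by
    rw [hAs, Int.card_Icc]
    have : (10 * (t : ℤ) ^ 8 + 1 - -(10 * (t : ℤ) ^ 8)) = ((20 * t ^ 8 + 1 : ℕ) : ℤ) := by
      push_cast; ring
    rw [this, Int.toNat_natCast]
  have hcardA' : (As.card : ℝ≥0∞) = ENNReal.ofReal (20 * (t:ℝ) ^ 8 + 1) := by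
    rw [hcardA, ← ENNReal.ofReal_natCast]
    push_cast
    rfl
  have bFw : ∀ k a, PP (Idx H) (Fw k a) ≤ ENNReal.ofReal p := by
    intro k a
    have hnn : (0:ℤ) ≤ (t:ℤ) ^ 8 := by positivity
    apply clean_bound (g := fun j => a + (j : ℤ)) hc hc1 hα ht ω hcard _ _ (En k) hM
      (Real.exp_pos _) hp hpp
    · intro i j hi hj
      have hi' : (i : ℤ) < (t : ℤ) ^ 8 := by exact_mod_cast hi
      have hj' : (j : ℤ) < (t : ℤ) ^ 8 := by exact_mod_cast hj
      rw [abs_le]; constructor <;> omega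
    · intro i j hij
      omega
  have bBw : ∀ k a, PP (Idx H) (Bw k a) ≤ ENNReal.ofReal p := by
    intro k a
    have hnn : (0:ℤ) ≤ (t:ℤ) ^ 8 := by positivity
    apply clean_bound (g := fun j => a - (j : ℤ)) hc hc1 hα ht ω hcard _ _ (En k) hM
      (Real.exp_pos _) hp hpp
    · intro i j hi hj
      have hi' : (i : ℤ) < (t : ℤ) ^ 8 := by exact_mod_cast hi
      have hj' : (j : ℤ) < (t : ℤ) ^ 8 := by exact_mod_cast hj
      rw [abs_le]; constructor <;> omega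
    · intro i j hij
      omega
  have bDr : ∀ k q, PP (Idx H) (Dr k q) ≤ ENNReal.ofReal w := by
    intro k q
    simp only [hDr]
    split_ifs with hq
    · obtain ⟨g1, g2, g3, g4, g5, g6, g7⟩ := hq
      exact sep_bound hc hα ω hcard g1 g2 g3 g4 g5 g6 g7 (En k) (Real.exp_pos _)
    · simp
  have hone : ∀ k, PP (Idx H) ((⋃ a ∈ As, (Fw k a ∪ Bw k a)) ∪
        ⋃ q ∈ (As ×ˢ As) ×ˢ (As ×ˢ As), Dr k q) ≤
      ENNReal.ofReal ((20 * (t : ℝ) ^ 8 + 1) * (2 * p) + (20 * (t : ℝ) ^ 8 + 1) ^ 4 * w) := by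
    intro k
    have u1 : PP (Idx H) (⋃ a ∈ As, (Fw k a ∪ Bw k a)) ≤
        ENNReal.ofReal ((20 * (t : ℝ) ^ 8 + 1) * (2 * p)) := by
      refine (measure_biUnion_finset_le _ _).trans ?_
      refine (Finset.sum_le_sum fun a _ => (measure_union_le _ _).trans
        (add_le_add (bFw k a) (bBw k a))).trans (le_of_eq ?_)
      rw [Finset.sum_const, nsmul_eq_mul, hcardA', ← ENNReal.ofReal_add hp hp,
        ← ENNReal.ofReal_mul (by positivity)]
      congr 1
      ring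
    have u2 : PP (Idx H) (⋃ q ∈ (As ×ˢ As) ×ˢ (As ×ˢ As), Dr k q) ≤
        ENNReal.ofReal ((20 * (t : ℝ) ^ 8 + 1) ^ 4 * w) := by
      refine (measure_biUnion_finset_le _ _).trans ?_
      refine (Finset.sum_le_sum fun q _ => bDr k q).trans (le_of_eq ?_)
      rw [Finset.sum_const, nsmul_eq_mul, Finset.card_product, Finset.card_product]
      push_cast
      rw [hcardA', ← ENNReal.ofReal_mul (by positivity), ← ENNReal.ofReal_mul (by positivity),
        ← ENNReal.ofReal_mul (by positivity)]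
      congr 1
      ring
    refine (measure_union_le _ _).trans ((add_le_add u1 u2).trans (le_of_eq ?_))
    rw [← ENNReal.ofReal_add (by positivity) (by positivity)]
  refine (measure_mono hsub).trans ((measure_biUnion_finset_le _ _).trans ?_)
  refine (Finset.sum_le_sum fun k _ => hone k).trans (le_of_eq ?_)
  rw [Finset.sum_const, nsmul_eq_mul, hcardK, ← ENNReal.ofReal_mul (by positivity)]

end Pool.Agent.Helper76x.LP
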