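import Mathlib
import Pool.Agent.Helper76x.LP.Events

/-!
Numerical bounds for the probabilities of the bad events.
-/

set_option autoImplicit false

open MeasureTheory Set unitInterval
open scoped ENNReal

namespace Pool.Agent.Helper76x.LP

lemma fac_le (M : ℕ) : fac M ≤ Real.exp (-(1 / (2 * (140 * (M : ℝ) ^ 2 + 1)))) := by
  have h1 : fac M = -(1 / (2 * (140 * (M : ℝ) ^ 2 + 1))) + 1 := by
    unfold fac
    have : (140 * (M : ℝ) ^ 2 + 1) ≠ 0 := by positivity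
    field_simp
    ring
  rw [h1]
  exact Real.add_one_le_exp _

lemma num_p {c : ℝ} (hc : 0 < c) (hc1 : c ≤ 1) : ∀ᶠ t : ℕ in Filter.atTop,
    8 ≤ ((⌈8 / amp c t⌉₊ : ℕ) : ℝ) * amp c t ∧
    Real.exp (4 * t) ^ 2 * (amp c t)⁻¹ * fac ⌈8 / amp c t⌉₊ ^ ((t ^ 8 - 1) / 2) * Real.pi ≤
      Real.exp (-(4 * t)) ^ 2 := by
  set κ : ℝ := c ^ 2 / 1461888 with hκ
  have hκ0 : 0 < κ := by positivity
  obtain ⟨T, hT⟩ := exists_nat_gt (17 / κ)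
  filter_upwards [poly_exp 2 (16 / c), Filter.eventually_ge_atTop (max T 2)] with t h1 h2
  have ht2 : 2 ≤ t := le_trans (le_max_right _ _) h2
  have htT : (T : ℝ) ≤ t := by exact_mod_cast le_trans (le_max_left _ _) h2
  have htr : (2:ℝ) ≤ t := by exact_mod_cast ht2
  have hamp := amp_pos hc t
  have hamp1 := amp_le_one hc hc1 t
  constructor
  · have := Nat.le_ceil (8 / amp c t)
    rwa [div_le_iff₀ hamp] at this
  set M := ⌈8 / amp c t⌉₊ with hM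
  have hinv : (amp c t)⁻¹ ≤ 4 * (t:ℝ) ^ 2 / c := by
    unfold amp
    rw [inv_div]
    apply div_le_div_of_nonneg_right _ hc.le
    nlinarith
  have hMle : (M : ℝ) ≤ 36 * (t:ℝ) ^ 2 / c := by
    have h3 : (M : ℝ) ≤ 8 / amp c t + 1 := (Nat.ceil_lt_add_one (by positivity)).le
    have h4 : 1 ≤ (amp c t)⁻¹ := (one_le_inv₀ hamp).2 hamp1
    calc (M : ℝ) ≤ 8 / amp c t + 1 := h3
      _ ≤ 9 * (amp c t)⁻¹ := by rw [div_eq_mul_inv]; linarith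
      _ ≤ 9 * (4 * (t:ℝ) ^ 2 / c) := by linarith
      _ = _ := by ring
  have hbig : (1:ℝ) ≤ 36 * (t:ℝ) ^ 2 / c := by
    rw [le_div_iff₀ hc]
    nlinarith
  have hM2 : 140 * (M : ℝ) ^ 2 + 1 ≤ 182736 * (t:ℝ) ^ 4 / c ^ 2 := by
    have h3 : (M : ℝ) ^ 2 ≤ (36 * (t:ℝ) ^ 2 / c) ^ 2 := pow_le_pow_left₀ (Nat.cast_nonneg _) hMle 2
    have h4 : 1 ≤ (36 * (t:ℝ) ^ 2 / c) ^ 2 := one_le_pow₀ hbig
    calc 140 * (M : ℝ) ^ 2 + 1 ≤ 140 * (36 * (t:ℝ) ^ 2 / c) ^ 2 + (36 * (t:ℝ) ^ 2 / c) ^ 2 := by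
          linarith
      _ = _ := by ring
  have hexp1 : fac M ≤ Real.exp (-(c ^ 2 / (365472 * (t:ℝ) ^ 4))) := by
    refine (fac_le M).trans (Real.exp_le_exp.2 ?_)
    rw [neg_le_neg_iff]
    rw [div_le_div_iff₀ (by positivity) (by positivity)]
    have h3 : (140 * (M : ℝ) ^ 2 + 1) * c ^ 2 ≤ 182736 * (t:ℝ) ^ 4 := by
      have := mul_le_mul_of_nonneg_right hM2 (sq_nonneg c)
      rwa [div_mul_cancel₀ _ (by positivity)] at this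
    linarith
  set q := (t ^ 8 - 1) / 2 with hq
  have hq1 : (t:ℝ) ^ 8 / 4 ≤ q := by
    have h3 : 2 ^ 8 ≤ t ^ 8 := Nat.pow_le_pow_left ht2 8
    have h4 : t ^ 8 ≤ 4 * q := by omega
    have h5 : ((t ^ 8 : ℕ) : ℝ) ≤ ((4 * q : ℕ) : ℝ) := by exact_mod_cast h4
    push_cast at h5
    linarith
  have hfac0 : 0 ≤ fac M := by unfold fac; positivity
  have hexp2 : fac M ^ q ≤ Real.exp (-(κ * (t:ℝ) ^ 4)) := by
    calc fac M ^ q ≤ (Real.exp (-(c ^ 2 / (365472 * (t:ℝ) ^ 4)))) ^ q :=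
          pow_le_pow_left₀ hfac0 hexp1 q
      _ = Real.exp (-(q * (c ^ 2 / (365472 * (t:ℝ) ^ 4)))) := by
          rw [← Real.exp_nat_mul]; congr 1; ring
      _ ≤ Real.exp (-(κ * (t:ℝ) ^ 4)) := by
          apply Real.exp_le_exp.2
          rw [neg_le_neg_iff]
          calc κ * (t:ℝ) ^ 4 = ((t:ℝ) ^ 8 / 4) * (c ^ 2 / (365472 * (t:ℝ) ^ 4)) := by
                rw [hκ]
                field_simp
                norm_num
            _ ≤ q * (c ^ 2 / (365472 * (t:ℝ) ^ 4)) := by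
                apply mul_le_mul_of_nonneg_right hq1 (by positivity)
  have hκt : 17 * (t:ℝ) ≤ κ * (t:ℝ) ^ 4 := by
    have h3 : 17 / κ ≤ t := hT.le.trans htT
    rw [div_le_iff₀ hκ0] at h3
    have h4 : (1:ℝ) ≤ (t:ℝ) ^ 2 := by nlinarith
    calc 17 * (t:ℝ) ≤ (t * κ) * t := by nlinarith
      _ ≤ (t * κ) * t * (t:ℝ) ^ 2 := by
          apply le_mul_of_one_le_right (by positivity) h4
      _ = κ * (t:ℝ) ^ 4 := by ring
  have hpi : Real.pi ≤ 4 := Real.pi_le_four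
  have e1 : Real.exp (4 * t) ^ 2 = Real.exp (8 * t) := by
    rw [← Real.exp_nat_mul]; congr 1; push_cast; ring
  have e2 : Real.exp (-(4 * t)) ^ 2 = Real.exp (-(8 * t)) := by
    rw [← Real.exp_nat_mul]; congr 1; push_cast; ring
  rw [e1, e2]
  calc Real.exp (8 * t) * (amp c t)⁻¹ * fac M ^ q * Real.pi
      ≤ Real.exp (8 * t) * (4 * (t:ℝ) ^ 2 / c) * Real.exp (-(κ * (t:ℝ) ^ 4)) * 4 := by
        gcongr
    _ ≤ Real.exp (8 * t) * (4 * (t:ℝ) ^ 2 / c) * Real.exp (-(17 * (t:ℝ))) * 4 := by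
        gcongr
    _ = (16 / c * (t:ℝ) ^ 2 * Real.exp (-(t:ℝ))) * Real.exp (-(8 * t)) := by
        have : Real.exp (-(17 * (t:ℝ))) = Real.exp (-(t:ℝ)) * Real.exp (-(8 * t)) *
            Real.exp (-(8 * t)) := by
          rw [← Real.exp_add, ← Real.exp_add]; congr 1; ring
        rw [this]
        have h5 : Real.exp (8 * (t:ℝ)) * Real.exp (-(8 * t)) = 1 := by
          rw [← Real.exp_add]; simp
        linear_combination (16 / c * (t:ℝ) ^ 2 * Real.exp (-(t:ℝ)) * Real.exp (-(8 * t))) * h5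
    _ ≤ 1 * Real.exp (-(8 * t)) := by
        apply mul_le_mul_of_nonneg_right h1 (Real.exp_pos _).le
    _ = _ := one_mul _

/-- the constant in the probability bound -/
noncomputable def CC (B c : ℝ) : ℝ := (2 * B + 9) * (42 + 194481 * 46656 / c ^ 2)

lemma num_final {c B : ℝ} (hc : 0 < c) (hB : 0 ≤ B) {t : ℕ} (ht : 1 ≤ t) :
    (2 * ((⌈(B + 3) * Real.exp (3 * t)⌉₊ : ℕ) : ℝ) + 1) * ((20 * (t : ℝ) ^ 8 + 1) *
      (2 * Real.exp (-(4 * t))) + (20 * (t : ℝ) ^ 8 + 1) ^ 4 *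
        (6 * (2 * (t : ℝ) ^ 8 + 1) ^ 2 * Real.exp (-(2 * t)) / amp c t) ^ 2) ≤
      CC B c * ((t : ℝ) ^ 68 * Real.exp (-(1 * t))) := by
  have htr : (1:ℝ) ≤ t := by exact_mod_cast ht
  have ht8 : (1:ℝ) ≤ (t:ℝ) ^ 8 := one_le_pow₀ htr
  have hN : (2 * ((⌈(B + 3) * Real.exp (3 * t)⌉₊ : ℕ) : ℝ) + 1) ≤
      (2 * B + 9) * Real.exp (3 * t) := by
    have h1 : ((⌈(B + 3) * Real.exp (3 * t)⌉₊ : ℕ) : ℝ) ≤ (B + 3) * Real.exp (3 * t) + 1 :=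
      (Nat.ceil_lt_add_one (by positivity)).le
    have h2 : 1 ≤ Real.exp (3 * t) := Real.one_le_exp (by positivity)
    nlinarith
  have h20 : 20 * (t:ℝ) ^ 8 + 1 ≤ 21 * (t:ℝ) ^ 8 := by linarith
  have h2 : 2 * (t:ℝ) ^ 8 + 1 ≤ 3 * (t:ℝ) ^ 8 := by linarith
  have hinv : (amp c t)⁻¹ ≤ 4 * (t:ℝ) ^ 2 / c := by
    unfold amp
    rw [inv_div]
    apply div_le_div_of_nonneg_right _ hc.le
    nlinarith
  have hamp := amp_pos hc t
  have hw : 6 * (2 * (t : ℝ) ^ 8 + 1) ^ 2 * Real.exp (-(2 * t)) / amp c t ≤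
      216 * (t:ℝ) ^ 18 / c * Real.exp (-(2 * t)) := by
    rw [div_eq_mul_inv]
    calc 6 * (2 * (t : ℝ) ^ 8 + 1) ^ 2 * Real.exp (-(2 * t)) * (amp c t)⁻¹
        ≤ 6 * (3 * (t : ℝ) ^ 8) ^ 2 * Real.exp (-(2 * t)) * (4 * (t:ℝ) ^ 2 / c) := by gcongr
      _ = _ := by ring
  have e4 : Real.exp (-(2 * (t:ℝ))) ^ 2 = Real.exp (-(4 * t)) := by
    rw [← Real.exp_nat_mul]; congr 1; push_cast; ring
  have hw2 : (6 * (2 * (t : ℝ) ^ 8 + 1) ^ 2 * Real.exp (-(2 * t)) / amp c t) ^ 2 ≤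
      46656 * (t:ℝ) ^ 36 / c ^ 2 * Real.exp (-(4 * t)) := by
    calc (6 * (2 * (t : ℝ) ^ 8 + 1) ^ 2 * Real.exp (-(2 * t)) / amp c t) ^ 2
        ≤ (216 * (t:ℝ) ^ 18 / c * Real.exp (-(2 * t))) ^ 2 :=
          pow_le_pow_left₀ (by positivity) hw 2
      _ = 46656 * (t:ℝ) ^ 36 / c ^ 2 * Real.exp (-(2 * (t:ℝ))) ^ 2 := by ring
      _ = _ := by rw [e4]
  have hpow : (t:ℝ) ^ 8 ≤ (t:ℝ) ^ 68 := pow_le_pow_right₀ htr (by norm_num)
  have hbr : (20 * (t : ℝ) ^ 8 + 1) * (2 * Real.exp (-(4 * t))) + (20 * (t : ℝ) ^ 8 + 1) ^ 4 *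
      (6 * (2 * (t : ℝ) ^ 8 + 1) ^ 2 * Real.exp (-(2 * t)) / amp c t) ^ 2 ≤
      (42 + 194481 * 46656 / c ^ 2) * ((t:ℝ) ^ 68 * Real.exp (-(4 * t))) := by
    have a1 : (20 * (t : ℝ) ^ 8 + 1) * (2 * Real.exp (-(4 * t))) ≤
        42 * ((t:ℝ) ^ 68 * Real.exp (-(4 * t))) := by
      calc (20 * (t : ℝ) ^ 8 + 1) * (2 * Real.exp (-(4 * t)))
          ≤ (21 * (t:ℝ) ^ 68) * (2 * Real.exp (-(4 * t))) := by
            gcongr
            linarith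
        _ = _ := by ring
    have a2 : (20 * (t : ℝ) ^ 8 + 1) ^ 4 *
        (6 * (2 * (t : ℝ) ^ 8 + 1) ^ 2 * Real.exp (-(2 * t)) / amp c t) ^ 2 ≤
        194481 * 46656 / c ^ 2 * ((t:ℝ) ^ 68 * Real.exp (-(4 * t))) := by
      calc (20 * (t : ℝ) ^ 8 + 1) ^ 4 *
            (6 * (2 * (t : ℝ) ^ 8 + 1) ^ 2 * Real.exp (-(2 * t)) / amp c t) ^ 2
          ≤ (21 * (t:ℝ) ^ 8) ^ 4 * (46656 * (t:ℝ) ^ 36 / c ^ 2 * Real.exp (-(4 * t))) := by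
            gcongr
        _ = _ := by ring
    calc _ ≤ 42 * ((t:ℝ) ^ 68 * Real.exp (-(4 * t))) +
          194481 * 46656 / c ^ 2 * ((t:ℝ) ^ 68 * Real.exp (-(4 * t))) := add_le_add a1 a2
      _ = _ := by ring
  have hbr0 : 0 ≤ (20 * (t : ℝ) ^ 8 + 1) * (2 * Real.exp (-(4 * t))) + (20 * (t : ℝ) ^ 8 + 1) ^ 4 *
      (6 * (2 * (t : ℝ) ^ 8 + 1) ^ 2 * Real.exp (-(2 * t)) / amp c t) ^ 2 := by positivity
  calc _ ≤ ((2 * B + 9) * Real.exp (3 * t)) *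
        ((42 + 194481 * 46656 / c ^ 2) * ((t:ℝ) ^ 68 * Real.exp (-(4 * t)))) :=
        mul_le_mul hN hbr hbr0 (by positivity)
    _ = CC B c * ((t : ℝ) ^ 68 * (Real.exp (3 * t) * Real.exp (-(4 * t)))) := by
        unfold CC; ring
    _ = _ := by
        rw [← Real.exp_add]
        congr 3
        ring

end Pool.Agent.Helper76x.LP
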