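import Mathlib
import Pool.Agent.Helper76x.LP.Numeric

/-!
Dense pure point spectrum for limit-periodic operators: assembly.
-/

set_option autoImplicit false

open MeasureTheory Set unitInterval Filter
open scoped ENNReal

namespace Pool.Agent.Helper76x.LP

variable {Ω : Type*} [AddCommGroup Ω] [TopologicalSpace Ω] [IsTopologicalAddGroup Ω]
  [CompactSpace Ω] [MeasurableSpace Ω] [BorelSpace Ω]

/-- almost surely all large scales are good -/
theorem ae_good {H : ℕ → OpenAddSubgroup Ω} {c : ℝ} {α : Ω} {f0 : Ω → ℝ} (hf : Continuous f0)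
    (hc : 0 < c) (hc1 : c ≤ 1) (hα : Dense (Set.range (fun n : ℤ => n • α)))
    (hH : ∀ t, 20 * t ^ 8 + 1 < Nat.card (Ω ⧸ (H t).toAddSubgroup)) {B : ℝ} (hB : 0 ≤ B)
    (μ : Measure Ω) [IsFiniteMeasure μ] :
    ∀ᵐ x ∂(PP (Idx H)), ∀ᵐ ω ∂μ, ∃ t0, ∀ t, t0 ≤ t → GoodAt (VV H f0 c α x ω) B t := by
  apply Measure.ae_ae_of_ae_prod (p := fun z : (Idx H → I) × Ω =>
    ∃ t0, ∀ t, t0 ≤ t → GoodAt (VV H f0 c α z.1 z.2) B t)
  obtain ⟨T, hT⟩ := eventually_atTop.1 ((num_p hc hc1).and (eventually_ge_atTop 1))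
  set s : ℕ → Set ((Idx H → I) × Ω) := fun n =>
    {z | ¬ GoodAt (VV H f0 c α z.1 z.2) B (n + T)} with hs
  have hsm : ∀ n, MeasurableSet (s n) := by
    intro n
    have h1 : IsClosed {z : (Idx H → I) × Ω | GoodAt (VV H f0 c α z.1 z.2) B (n + T)} := by
      apply good_closed (W := fun z : (Idx H → I) × Ω => VV H f0 c α z.1 z.2)
      intro k
      exact (VV_cont hc hf α k).comp (continuous_snd.prodMk continuous_fst)
    exact h1.measurableSet.compl
  have hbound : ∀ n, ((PP (Idx H)).prod μ) (s n) ≤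
      ENNReal.ofReal (CC B c * (((n + T : ℕ) : ℝ) ^ 68 * Real.exp (-(1 * ((n + T : ℕ) : ℝ))))) *
        μ univ := by
    intro n
    rw [Measure.prod_apply_symm (hsm n)]
    rw [← lintegral_const]
    apply lintegral_mono
    intro ω
    obtain ⟨⟨h1, h2⟩, h3⟩ := hT (n + T) (by omega)
    have h4 := bad_bound (f0 := f0) (B := B) hc hc1 hα h3 ω (hH (n + T)) h1 (Real.exp_pos _).le h2
      (Nat.le_ceil _)
    exact h4.trans (ENNReal.ofReal_le_ofReal (num_final hc hB h3))
  have hsum : ∑' n, ((PP (Idx H)).prod μ) (s n) ≠ ⊤ := by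
    have h1 : Summable fun n : ℕ => CC B c * ((n : ℝ) ^ 68 * Real.exp (-(1 * (n:ℝ)))) := by
      apply Summable.mul_left
      have := Real.summable_pow_mul_exp_neg_nat_mul 68 (r := 1) one_pos
      refine this.congr fun n => ?_
      congr 2
      ring
    have h2 := (summable_nat_add_iff T).2 h1
    have h3 : ∑' n, ENNReal.ofReal (CC B c * (((n + T : ℕ) : ℝ) ^ 68 *
        Real.exp (-(1 * ((n + T : ℕ) : ℝ))))) ≠ ⊤ := h2.tsum_ofReal_ne_top
    have h4 : ∑' n, ((PP (Idx H)).prod μ) (s n) ≤ (∑' n, ENNReal.ofReal (CC B c *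
        (((n + T : ℕ) : ℝ) ^ 68 * Real.exp (-(1 * ((n + T : ℕ) : ℝ)))))) * μ univ := by
      rw [← ENNReal.tsum_mul_right]
      exact ENNReal.tsum_le_tsum hbound
    exact ne_top_of_le_ne_top (ENNReal.mul_ne_top h3 (measure_ne_top _ _)) h4
  filter_upwards [ae_eventually_notMem hsum] with z hz
  obtain ⟨N, hN⟩ := eventually_atTop.1 hz
  refine ⟨N + T, fun t ht => ?_⟩
  have h1 := hN (t - T) (by omega)
  simp only [hs, mem_ofPred_eq, not_not] at h1
  rwa [Nat.sub_add_cancel (by omega)] at h1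

/-- The main theorem. -/
theorem dense_pure_point [T2Space Ω] [TotallyDisconnectedSpace Ω] [Infinite Ω] (μ : Measure Ω)
    [IsFiniteMeasure μ] (α : Ω) (hα : Dense (Set.range (fun n : ℤ => n • α))) :
    Dense {f : C(Ω, ℝ) | ∀ᵐ ω ∂μ, (Submodule.span ℂ
      (eigSet fun n : ℤ => f (ω + n • α))).topologicalClosure = ⊤} := by
  rw [Metric.dense_iff]
  intro f0 r hr
  choose H hH using fun t : ℕ => exists_large_index (Ω := Ω) (20 * t ^ 8 + 1)
  set S : ℝ := ∑' t : ℕ, 1 / ((t : ℝ) + 1) ^ 2 with hS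
  have hS0 : 0 ≤ S := tsum_nonneg fun t => by positivity
  set c : ℝ := min 1 (r / 2 / (S + 1)) with hc
  have hc0 : 0 < c := lt_min one_pos (by positivity)
  have hc1 : c ≤ 1 := min_le_left _ _
  have hamp : ∑' t, amp c t = c * S := by
    rw [hS, ← tsum_mul_left]
    refine tsum_congr fun t => ?_
    unfold amp
    ring
  have hcS : c * S ≤ r / 2 := by
    have h1 : c ≤ r / 2 / (S + 1) := min_le_right _ _
    calc c * S ≤ c * (S + 1) := by nlinarith
      _ ≤ r / 2 / (S + 1) * (S + 1) := mul_le_mul_of_nonneg_right h1 (by linarith)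
      _ = r / 2 := by field_simp
  set B : ℝ := ‖f0‖ + c * S with hB
  have hB0 : 0 ≤ B := by positivity
  have hae := ae_good (f0 := f0) (α := α) f0.continuous hc0 hc1 hα hH hB0 μ
  obtain ⟨x, hx⟩ := hae.exists
  have hcont : Continuous (pot H f0 c x) := by
    have h1 := pot_cont (H := H) hc0 f0.continuous
    exact h1.comp (continuous_id.prodMk continuous_const)
  set f : C(Ω, ℝ) := ⟨pot H f0 c x, hcont⟩ with hf
  refine ⟨f, ?_, ?_⟩
  · rw [Metric.mem_ball]
    refine lt_of_le_of_lt ((ContinuousMap.dist_le (by positivity : 0 ≤ r / 2)).2 fun ω => ?_)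
      (half_lt_self hr)
    rw [Real.dist_eq]
    have h1 := pot_sub_le (H := H) (f0 := f0) hc0 x ω
    rw [hamp] at h1
    exact h1.trans hcS
  · rw [mem_ofPred_eq]
    filter_upwards [hx] with ω hω
    obtain ⟨t0, ht0⟩ := hω
    apply complete (B := B) (t0 := t0)
    · intro n
      have h1 := pot_sub_le (H := H) (f0 := f0) hc0 x (ω + n • α)
      rw [hamp] at h1
      have h2 : |f0 (ω + n • α)| ≤ ‖f0‖ := f0.norm_coe_le_norm _
      have h3 : |pot H f0 c x (ω + n • α)| ≤ |pot H f0 c x (ω + n • α) - f0 (ω + n • α)| +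
          |f0 (ω + n • α)| := by
        have := abs_add_le (pot H f0 c x (ω + n • α) - f0 (ω + n • α)) (f0 (ω + n • α))
        rwa [sub_add_cancel] at this
      show |pot H f0 c x (ω + n • α)| ≤ B
      rw [hB]
      linarith
    · exact ht0

end Pool.Agent.Helper76x.LP
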